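import Pool.Agent.Helper8.BR.Defs

set_option autoImplicit false

/-! BR-6 -/

open scoped TensorProduct Quaternion

namespace Pool.Agent.Helper8.BR

section centralizer_aux

variable (R A C : Type) [CommRing R] [Ring A] [Algebra R A] [Ring C] [Algebra R C]

/-- `A ⊗ Aᵐᵒᵖ` acts on `C` by `(a ⊗ b) c = f a * c * f b`. -/
private noncomputable def centAct (f : A →ₐ[R] C) : (A ⊗[R] Aᵐᵒᵖ) →ₐ[R] Module.End R C :=
  (AlgHom.mulLeftRight R C).comp
    (Algebra.TensorProduct.map f (AlgHom.op f))

private lemma centAct_tmul (f : A →ₐ[R] C) (a : A) (b : Aᵐᵒᵖ) (c : C) :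
    centAct R A C f (a ⊗ₜ b) c = f a * c * f b.unop := by
  simp [centAct]

private lemma centAct_apply (f : A →ₐ[R] C) (T : A ⊗[R] Aᵐᵒᵖ) (a : A) (z : C)
    (hz : z ∈ Subalgebra.centralizer R (Set.range f)) :
    centAct R A C f T (f a * z) = f (AlgHom.mulLeftRight R A T a) * z := by
  induction T using TensorProduct.induction_on with
  | zero => simp
  | tmul x y =>
    rw [centAct_tmul, AlgHom.mulLeftRight_apply, map_mul, map_mul]
    have := (Subalgebra.mem_centralizer_iff R).mp hz (f y.unop) ⟨_, rfl⟩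
    rw [mul_assoc, mul_assoc, ← this]
    simp only [mul_assoc]
  | add S T hS hT => rw [map_add, LinearMap.add_apply, hS, hT, map_add, LinearMap.add_apply,
      map_add, add_mul]

end centralizer_aux

/-- the bimodule lemma: `C = A ⊗ Z_C(A)` for an Azumaya subalgebra `A` -/
theorem centralizer_equiv (R A C : Type) [CommRing R] [Ring A] [Algebra R A] [Module.Free R A]
    [IsAzumaya R A] [Ring C] [Algebra R C] (f : A →ₐ[R] C) :
    ∃ e : A ⊗[R] (Subalgebra.centralizer R (Set.range f)) ≃ₐ[R] C,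
      ∀ a z, e (a ⊗ₜ z) = f a * z := by
  classical
  let Z := Subalgebra.centralizer R (Set.range f)
  let e₀ : A ⊗[R] Z →ₐ[R] C := Algebra.TensorProduct.lift f Z.val (by
    intro a z
    exact (Subalgebra.mem_centralizer_iff R).mp z.2 (f a) ⟨_, rfl⟩)
  have he₀ : ∀ a z, e₀ (a ⊗ₜ z) = f a * z := fun a z => by simp [e₀]
  let θ := (AlgEquiv.ofBijective (AlgHom.mulLeftRight R A) IsAzumaya.bij).symm
  have hθ : ∀ φ, AlgHom.mulLeftRight R A (θ φ) = φ := fun φ =>
    (AlgEquiv.ofBijective (AlgHom.mulLeftRight R A) IsAzumaya.bij).apply_symm_apply φ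
  have hθ' : ∀ T, θ (AlgHom.mulLeftRight R A T) = T := fun T =>
    (AlgEquiv.ofBijective (AlgHom.mulLeftRight R A) IsAzumaya.bij).symm_apply_apply T
  let ρ : Module.End R A →ₐ[R] Module.End R C := (centAct R A C f).comp θ.toAlgHom
  have hρ1 : ∀ φ a z, z ∈ Z → ρ φ (f a * z) = f (φ a) * z := by
    intro φ a z hz
    have := centAct_apply R A C f (θ φ) a z hz
    rw [hθ] at this
    exact this
  have hρl : ∀ a c, ρ (AlgHom.mulLeftRight R A (a ⊗ₜ 1)) c = f a * c := by
    intro a c
    change centAct R A C f (θ _) c = _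
    rw [hθ', centAct_tmul]
    simp
  have hρr : ∀ a c, ρ (AlgHom.mulLeftRight R A (1 ⊗ₜ MulOpposite.op a)) c = c * f a := by
    intro a c
    change centAct R A C f (θ _) c = _
    rw [hθ', centAct_tmul]
    simp
  let b := Module.Free.chooseBasis R A
  let φ : Module.Free.ChooseBasisIndex R A → Module.End R A := fun i =>
    (LinearMap.toSpanSingleton R A 1).comp (b.coord i)
  have hφ : ∀ i x, φ i x = b.repr x i • (1 : A) := fun i x => by simp [φ]
  have hmem : ∀ i c, ρ (φ i) c ∈ Z := by
    intro i c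
    rw [Subalgebra.mem_centralizer_iff]
    rintro _ ⟨a, rfl⟩
    rw [← hρl, ← hρr, ← Module.End.mul_apply, ← Module.End.mul_apply, ← map_mul, ← map_mul]
    congr 2
    ext x
    simp [hφ]
  have hid : ∑ i, AlgHom.mulLeftRight R A (b i ⊗ₜ 1) * φ i = 1 := by
    ext x
    simp only [LinearMap.sum_apply, Module.End.mul_apply, AlgHom.mulLeftRight_apply, hφ,
      MulOpposite.unop_one, mul_one, Algebra.mul_smul_comm, Module.End.one_apply]
    exact b.sum_repr x
  have hdec : ∀ c, ∑ i, f (b i) * ρ (φ i) c = c := by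
    intro c
    have h1 := congrArg (fun ψ => ρ ψ c) hid
    simp only [map_sum, map_mul, map_one, LinearMap.sum_apply, Module.End.mul_apply,
      Module.End.one_apply, hρl] at h1
    exact h1
  let g : C →ₗ[R] A ⊗[R] Z := ∑ i, (TensorProduct.mk R A Z (b i)).comp
    (LinearMap.codRestrict (Subalgebra.toSubmodule Z) (ρ (φ i)) (hmem i))
  have hg : ∀ c, g c = ∑ i, b i ⊗ₜ (⟨ρ (φ i) c, hmem i c⟩ : Z) := by
    intro c
    simp only [g, LinearMap.sum_apply, LinearMap.comp_apply, TensorProduct.mk_apply]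
    rfl
  have hge : ∀ t, g (e₀ t) = t := by
    intro t
    induction t using TensorProduct.induction_on with
    | zero => simp
    | tmul a z =>
      rw [he₀, hg]
      have h2 : ∀ i, (⟨ρ (φ i) (f a * z), hmem i _⟩ : Z) = b.repr a i • z := by
        intro i
        apply Subtype.ext
        change ρ (φ i) (f a * z) = b.repr a i • (z : C)
        rw [hρ1 _ _ _ z.2, hφ]
        simp
      simp only [h2]
      simp only [← TensorProduct.smul_tmul]
      rw [← TensorProduct.sum_tmul, b.sum_repr]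
    | add s t hs ht => rw [map_add, map_add, hs, ht]
  have heg : ∀ c, e₀ (g c) = c := by
    intro c
    rw [hg, map_sum]
    simp only [he₀]
    exact hdec c
  refine ⟨AlgEquiv.ofBijective e₀ ⟨fun s t hst => ?_, fun c => ⟨g c, heg c⟩⟩, he₀⟩
  rw [← hge s, ← hge t, hst]

end Pool.Agent.Helper8.BR
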