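import Pool.Agent.Helper8.BR.Fields
import Pool.Agent.Helper8.BR.Centralizer

set_option autoImplicit false

/-! BR-7 -/

open scoped TensorProduct Quaternion

namespace Pool.Agent.Helper8.BR

private lemma exists_dual_one {K V : Type} [Field K] [AddCommGroup V] [Module K V] {x : V}
    (hx : x ≠ 0) : ∃ g : V →ₗ[K] K, g x = 1 := by
  have h : ¬ ∀ f : Module.Dual K V, f x = 0 := fun h =>
    hx ((Module.forall_dual_apply_eq_zero_iff K x).mp h)
  push Not at h
  obtain ⟨f, hf⟩ := h
  exact ⟨(f x)⁻¹ • f, by simp [hf]⟩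

theorem skolem_noether (K A : Type) [Field K] [Ring A] [Algebra K A] [IsAzumaya K A]
    (φ : A ≃ₐ[K] A) : ∃ u : Aˣ, ∀ a, φ a = u * a * (u⁻¹ : Aˣ) := by
  classical
  have hA : Nontrivial A := (FaithfulSMul.algebraMap_injective K A).nontrivial
  let L : (A ⊗[K] Aᵐᵒᵖ) →ₐ[K] Module.End K A :=
    (AlgHom.mulLeftRight K A).comp (Algebra.TensorProduct.map φ.toAlgHom (AlgHom.id K Aᵐᵒᵖ))
  have hL : ∀ (a : A) (b : Aᵐᵒᵖ) (c : A), L (a ⊗ₜ b) c = φ a * c * b.unop := by
    intro a b c
    simp [L]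
  let θ := (AlgEquiv.ofBijective (AlgHom.mulLeftRight K A) IsAzumaya.bij).symm
  have hθ' : ∀ T, θ (AlgHom.mulLeftRight K A T) = T := fun T =>
    (AlgEquiv.ofBijective (AlgHom.mulLeftRight K A) IsAzumaya.bij).symm_apply_apply T
  let ρ : Module.End K A →ₐ[K] Module.End K A := L.comp θ.toAlgHom
  have hρ : ∀ (a : A) (b : Aᵐᵒᵖ) (c : A), ρ (AlgHom.mulLeftRight K A (a ⊗ₜ b)) c
      = φ a * c * b.unop := by
    intro a b c
    change L (θ _) c = _
    rw [hθ', hL]
  obtain ⟨f, hf⟩ := exists_dual_one (K := K) (one_ne_zero : (1 : A) ≠ 0)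
  -- rank one operators `y ↦ f y • x`
  let rk : A → Module.End K A := fun x => (LinearMap.toSpanSingleton K A x).comp f
  have hrk : ∀ x y, rk x y = f y • x := fun x y => by simp [rk]
  have hP : ρ (rk 1) ≠ 0 := by
    intro h0
    let b := Module.Free.chooseBasis K A
    have hid : ∑ i, rk (b i) * rk 1 * (LinearMap.toSpanSingleton K A 1).comp (b.coord i) = 1 := by
      ext y
      simp only [LinearMap.sum_apply, Module.End.mul_apply, hrk, LinearMap.comp_apply,
        LinearMap.toSpanSingleton_apply, Module.Basis.coord_apply, map_smul, hf, smul_eq_mul,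
        mul_one, one_smul, Module.End.one_apply, b.sum_repr]
    have h1 := congrArg ρ hid
    rw [map_sum, map_one] at h1
    simp only [map_mul, h0, mul_zero, zero_mul, Finset.sum_const_zero] at h1
    have h2 := LinearMap.congr_fun h1 (1 : A)
    simp at h2
  obtain ⟨c₀, hc₀⟩ : ∃ c₀, ρ (rk 1) c₀ ≠ 0 := by
    by_contra h
    push Not at h
    exact hP (LinearMap.ext h)
  let Ψ : A → A := fun x => ρ (rk x) c₀
  have hΨ : ∀ (ψ : Module.End K A) (x : A), Ψ (ψ x) = ρ ψ (Ψ x) := by
    intro ψ x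
    change ρ (rk (ψ x)) c₀ = ρ ψ (ρ (rk x) c₀)
    rw [← Module.End.mul_apply, ← map_mul]
    congr 2
    ext y
    simp [hrk]
  have hinj : ∀ x, Ψ x = 0 → x = 0 := by
    intro x hx
    by_contra hx0
    obtain ⟨g, hg⟩ := exists_dual_one (K := K) hx0
    let ψ : Module.End K A := (LinearMap.toSpanSingleton K A 1).comp g
    have hψ : ψ x = 1 := by simp [ψ, hg]
    have h1 := hΨ ψ x
    rw [hψ, hx, map_zero] at h1
    exact hc₀ h1
  set u := Ψ 1 with hu
  have hright : ∀ x, Ψ x = u * x := by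
    intro x
    have h1 := hΨ (AlgHom.mulLeftRight K A (1 ⊗ₜ MulOpposite.op x)) 1
    rw [AlgHom.mulLeftRight_apply, hρ] at h1
    simpa using h1
  have hleft : ∀ a, Ψ a = φ a * u := by
    intro a
    have h1 := hΨ (AlgHom.mulLeftRight K A (a ⊗ₜ 1)) 1
    rw [AlgHom.mulLeftRight_apply, hρ] at h1
    simpa using h1
  have hmi : Function.Injective (LinearMap.mulLeft K u) := by
    rw [injective_iff_map_eq_zero]
    intro x hx
    refine hinj x ?_
    rw [hright]
    simpa using hx
  have hms : Function.Surjective (LinearMap.mulLeft K u) :=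
    LinearMap.surjective_of_injective hmi
  obtain ⟨v, hv⟩ := hms 1
  have huv : u * v = 1 := by simpa using hv
  have hvu : v * u = 1 := by
    apply hmi
    simp only [LinearMap.mulLeft_apply]
    rw [← mul_assoc, huv, one_mul, mul_one]
  refine ⟨⟨u, v, huv, hvu⟩, fun a => ?_⟩
  have h1 : φ a * u = u * a := by rw [← hleft, hright]
  change φ a = u * a * v
  rw [← h1, mul_assoc, huv, mul_one]

end Pool.Agent.Helper8.BR
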