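import Pool.Agent.Helper8.BR.Defs

set_option autoImplicit false

/-! BR-3 -/

open scoped TensorProduct Quaternion

namespace Pool.Agent.Helper8.BR

private theorem mulLeftRight_mem (K A : Type) [Field K] [Ring A] [Algebra K A] (I : TwoSidedIdeal A)
    (r : A ⊗[K] Aᵐᵒᵖ) (x : A) (hx : x ∈ I) : AlgHom.mulLeftRight K A r x ∈ I := by
  induction r using TensorProduct.induction_on with
  | zero =>
    rw [map_zero, LinearMap.zero_apply]
    exact I.zero_mem
  | tmul a b =>
    rw [AlgHom.mulLeftRight_apply]
    exact I.mul_mem_right _ _ (I.mul_mem_left _ _ hx)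
  | add r s hr hs =>
    rw [map_add, LinearMap.add_apply]
    exact I.add_mem hr hs

private theorem az_nontrivial (K A : Type) [Field K] [Ring A] [Algebra K A] [IsAzumaya K A] :
    Nontrivial A := by
  by_contra hA
  rw [not_nontrivial_iff_subsingleton] at hA
  have : (1 : K) = 0 := FaithfulSMul.eq_of_smul_eq_smul (α := A) fun a => Subsingleton.elim _ _
  exact one_ne_zero this

theorem az_simple (K A : Type) [Field K] [Ring A] [Algebra K A] [IsAzumaya K A] :
    IsSimpleRing A := by
  have hnt : Nontrivial A := az_nontrivial K A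
  refine IsSimpleRing.of_eq_bot_or_eq_top fun I => ?_
  by_cases hI : I = ⊥
  · exact Or.inl hI
  · right
    have hex : ∃ x ∈ I, x ≠ 0 := by
      by_contra hcon
      push Not at hcon
      apply hI
      refine le_antisymm (fun x hx => ?_) bot_le
      rw [hcon x hx]
      exact TwoSidedIdeal.zero_mem _
    obtain ⟨x, hxI, hx0⟩ := hex
    refine le_antisymm le_top fun y _ => ?_
    obtain ⟨g, _, hg⟩ := LinearMap.exists_extend_of_notMem (K := K) (p := (⊥ : Submodule K A))
      (v := x) (V' := A) 0 (by simpa using hx0) y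
    obtain ⟨r, hr⟩ := (IsAzumaya.bij (R := K) (A := A)).2 g
    rw [← hg, ← hr]
    exact mulLeftRight_mem K A I r x hxI

theorem az_of_central_simple (K A : Type) [Field K] [Ring A] [Algebra K A]
    [FiniteDimensional K A] [Algebra.IsCentral K A] [IsSimpleRing A] : IsAzumaya K A := by
  classical
  let _ : Module (A ⊗[K] Aᵐᵒᵖ) A := TensorProduct.Algebra.module
  have hsmul : ∀ (r : A ⊗[K] Aᵐᵒᵖ) (x : A), r • x = AlgHom.mulLeftRight K A r x := fun r x => rfl
  have htmul : ∀ (a b x : A), (a ⊗ₜ[K] (MulOpposite.op b)) • x = a * x * b := fun a b x => by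
    rw [hsmul, AlgHom.mulLeftRight_apply, MulOpposite.unop_op]
  -- `A` is a simple module
  have hsimple : IsSimpleModule (A ⊗[K] Aᵐᵒᵖ) A := by
    rw [isSimpleModule_iff]
    refine @IsSimpleOrder.mk _ _ _ inferInstance (fun N => ?_)
    let I : TwoSidedIdeal A := TwoSidedIdeal.mk' (N : Set A) N.zero_mem N.add_mem N.neg_mem
      (fun {x y} hy => by
        have := N.smul_mem (x ⊗ₜ[K] (MulOpposite.op 1)) hy
        rw [htmul, mul_one] at this
        exact this)
      (fun {x y} hx => by
        have := N.smul_mem (1 ⊗ₜ[K] (MulOpposite.op y)) hx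
        rw [htmul, one_mul] at this
        exact this)
    rcases eq_bot_or_eq_top I with hI | hI
    · left
      refine le_antisymm (fun x hx => ?_) bot_le
      have hx' : x ∈ I := by
        rw [TwoSidedIdeal.mem_mk']
        exact hx
      rw [hI] at hx'
      rw [Submodule.mem_bot]
      exact hx'
    · right
      refine le_antisymm le_top fun x _ => ?_
      have hx' : x ∈ I := by
        rw [hI]
        trivial
      rw [TwoSidedIdeal.mem_mk'] at hx'
      exact hx'
  -- endomorphisms are given by scalars
  have hend : ∀ g : Module.End (A ⊗[K] Aᵐᵒᵖ) A, ∃ c : K, ∀ x, g x = c • x := by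
    intro g
    have h1 : ∀ x, g x = x * g 1 := fun x => by
      have := g.map_smul (x ⊗ₜ[K] (MulOpposite.op 1)) 1
      rw [htmul, htmul, mul_one, mul_one, mul_one] at this
      exact this
    have h2 : ∀ x, g x = g 1 * x := fun x => by
      have := g.map_smul (1 ⊗ₜ[K] (MulOpposite.op x)) 1
      rw [htmul, htmul, one_mul, one_mul, one_mul] at this
      exact this
    have h3 : g 1 ∈ Subalgebra.center K A := by
      rw [Subalgebra.mem_center_iff]
      intro b
      rw [← h1, ← h2]
    obtain ⟨c, hc⟩ := Algebra.IsCentral.mem_center_iff (K := K) |>.mp h3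
    refine ⟨c, fun x => ?_⟩
    rw [h2, hc, ← Algebra.smul_def]
  have hsurj : Function.Surjective (AlgHom.mulLeftRight K A) := by
    intro f
    let f' : Module.End (Module.End (A ⊗[K] Aᵐᵒᵖ) A) A :=
      { toFun := f
        map_add' := f.map_add
        map_smul' := fun g x => by
          obtain ⟨c, hc⟩ := hend g
          simp only [Module.End.smul_def, RingHom.id_apply]
          rw [hc, hc, f.map_smul] }
    let b := Module.finBasis K A
    obtain ⟨r, hr⟩ := jacobson_density f' (Finset.univ.image b)
    refine ⟨r, b.ext fun i => ?_⟩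
    have := hr (b i) (Finset.mem_image_of_mem _ (Finset.mem_univ i))
    rw [hsmul] at this
    exact this.symm
  have hinj : Function.Injective (AlgHom.mulLeftRight K A) := by
    have hdim : Module.finrank K (A ⊗[K] Aᵐᵒᵖ) = Module.finrank K (Module.End K A) := by
      rw [Module.finrank_tensorProduct, Module.finrank_linearMap,
        (MulOpposite.opLinearEquiv K (M := A)).finrank_eq]
    exact (LinearMap.injective_iff_surjective_of_finrank_eq_finrank
      (f := (AlgHom.mulLeftRight K A).toLinearMap) hdim).mpr hsurj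
  exact { toProjective := inferInstance, toFaithfulSMul := inferInstance, toFinite := inferInstance,
          bij := ⟨hinj, hsurj⟩ }

/-- every Azumaya algebra over a field is Brauer equivalent to a central division algebra -/
theorem exists_division (K A : Type) [Field K] [Ring A] [Algebra K A] [IsAzumaya K A] :
    ∃ (D : Type) (_ : DivisionRing D) (_ : Algebra K D) (n : ℕ), n ≠ 0 ∧
      FiniteDimensional K D ∧ Algebra.IsCentral K D ∧ IsAzumaya K D ∧
      Nonempty (A ≃ₐ[K] Matrix (Fin n) (Fin n) D) := by
  have hnt : Nontrivial A := az_nontrivial K A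
  have hsim : IsSimpleRing A := az_simple K A
  have hfin : Module.Finite K A := inferInstance
  have hart : IsArtinianRing A := IsArtinianRing.of_finite K A
  obtain ⟨n, hn, D, hD, hDalg, hDfin, ⟨e⟩⟩ :=
    IsSimpleRing.exists_algEquiv_matrix_divisionRing_finite K A
  have hAc : Algebra.IsCentral K A := by
    have h1 : Algebra.IsCentral K (Module.End K A) := inferInstance
    have h2 : Algebra.IsCentral K (A ⊗[K] Aᵐᵒᵖ) :=
      Algebra.IsCentral.of_algEquiv K _ _
        (AlgEquiv.ofBijective (AlgHom.mulLeftRight K A) IsAzumaya.bij).symm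
    exact Algebra.IsCentral.left_of_tensor_of_field K A Aᵐᵒᵖ
  have hDc : Algebra.IsCentral K D := by
    have h1 : Algebra.IsCentral K (Matrix (Fin n) (Fin n) D) := Algebra.IsCentral.of_algEquiv K _ _ e
    refine ⟨fun d hd => ?_⟩
    have h2 : Matrix.scalarAlgHom (Fin n) K d ∈ Subalgebra.center K (Matrix (Fin n) (Fin n) D) := by
      rw [Matrix.subalgebraCenter_eq_scalarAlgHom_map]
      exact ⟨d, hd, rfl⟩
    obtain ⟨c, hc⟩ := Algebra.IsCentral.mem_center_iff (K := K) |>.mp h2
    have h3 := congrFun (congrFun hc (0 : Fin n)) (0 : Fin n)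
    rw [Matrix.algebraMap_matrix_apply, if_pos rfl] at h3
    rw [Algebra.mem_bot]
    refine ⟨c, ?_⟩
    rw [← h3]
    simp [Matrix.scalarAlgHom]
  exact ⟨D, hD, hDalg, n, hn.out, hDfin, hDc, az_of_central_simple K D, ⟨e⟩⟩

end Pool.Agent.Helper8.BR
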