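import Pool.Agent.Helper8.BR.Tensor

set_option autoImplicit false

/-! BR-2 -/

open scoped TensorProduct Quaternion

namespace Pool.Agent.Helper8.BR

theorem az_op (R A : Type) [CommRing R] [Ring A] [Algebra R A] [Module.Free R A]
    [IsAzumaya R A] : IsAzumaya R Aᵐᵒᵖ := by
  have h1 : Module.Projective R Aᵐᵒᵖ := .of_equiv (MulOpposite.opLinearEquiv R (M := A))
  have h2 : FaithfulSMul R Aᵐᵒᵖ :=
    .of_injective (MulOpposite.opLinearEquiv R (M := A)) (LinearEquiv.injective _)
  have h3 : Module.Finite R Aᵐᵒᵖ := .equiv (MulOpposite.opLinearEquiv R (M := A))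
  refine ⟨?_⟩
  let e : Aᵐᵒᵖ ⊗[R] Aᵐᵒᵖᵐᵒᵖ ≃ₗ[R] A ⊗[R] Aᵐᵒᵖ :=
    (TensorProduct.comm R Aᵐᵒᵖ Aᵐᵒᵖᵐᵒᵖ).trans
      (TensorProduct.congr ((MulOpposite.opLinearEquiv R (M := Aᵐᵒᵖ)).symm.trans
        (MulOpposite.opLinearEquiv R (M := A)).symm) (LinearEquiv.refl R _))
  have key : ((AlgHom.mulLeftRight R Aᵐᵒᵖ).toLinearMap) =
      ((LinearEquiv.conj (MulOpposite.opLinearEquiv R (M := A))).toLinearMap.comp
        (AlgHom.mulLeftRight R A).toLinearMap).comp e.toLinearMap := by
    apply TensorProduct.ext'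
    intro x y
    refine LinearMap.ext fun z => ?_
    obtain ⟨x, rfl⟩ := MulOpposite.op_surjective x
    obtain ⟨y, rfl⟩ := MulOpposite.op_surjective y
    obtain ⟨y, rfl⟩ := MulOpposite.op_surjective y
    obtain ⟨z, rfl⟩ := MulOpposite.op_surjective z
    have h4 : e (MulOpposite.op x ⊗ₜ[R] MulOpposite.op (MulOpposite.op y)) =
        y ⊗ₜ[R] MulOpposite.op x := rfl
    rw [LinearMap.comp_apply, LinearMap.comp_apply, LinearEquiv.coe_coe, LinearEquiv.coe_coe, h4,
      LinearEquiv.conj_apply_apply, AlgHom.toLinearMap_apply, AlgHom.toLinearMap_apply,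
      AlgHom.mulLeftRight_apply, AlgHom.mulLeftRight_apply]
    change _ = MulOpposite.op (y * z * x)
    rw [MulOpposite.op_mul, MulOpposite.op_mul, MulOpposite.unop_op, mul_assoc]
  have hb : Function.Bijective (AlgHom.mulLeftRight R Aᵐᵒᵖ).toLinearMap := by
    rw [key]
    exact ((LinearEquiv.conj (MulOpposite.opLinearEquiv R (M := A))).bijective.comp
      (IsAzumaya.bij (R := R) (A := A))).comp e.bijective
  exact hb

private theorem opBase_mem (R S A : Type) [CommRing R] [CommRing S] [Algebra R S] [Ring A]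
    [Algebra R A] (t : A ⊗[R] Aᵐᵒᵖ) :
    (TensorProduct.isBaseChange R A S).endHom (AlgHom.mulLeftRight R A t) ∈
      LinearMap.range (AlgHom.mulLeftRight S (S ⊗[R] A)).toLinearMap := by
  induction t using TensorProduct.induction_on with
  | zero => rw [map_zero, map_zero]; exact zero_mem _
  | tmul a b =>
    refine ⟨((1 : S) ⊗ₜ[R] a) ⊗ₜ[S] MulOpposite.op ((1 : S) ⊗ₜ[R] b.unop), ?_⟩
    apply (TensorProduct.isBaseChange R A S).algHom_ext
    intro x
    rw [IsBaseChange.endHom_comp_apply]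
    change AlgHom.mulLeftRight S (S ⊗[R] A) _ ((1 : S) ⊗ₜ[R] x) =
      (1 : S) ⊗ₜ[R] (AlgHom.mulLeftRight R A (a ⊗ₜ[R] b) x)
    rw [AlgHom.mulLeftRight_apply, AlgHom.mulLeftRight_apply, MulOpposite.unop_op,
      Algebra.TensorProduct.tmul_mul_tmul, Algebra.TensorProduct.tmul_mul_tmul, one_mul, one_mul]
  | add x y hx hy => rw [map_add, map_add]; exact add_mem hx hy

private theorem opBase_surj (R S A : Type) [CommRing R] [CommRing S] [Algebra R S] [Ring A]
    [Algebra R A] [Module.Free R A] [IsAzumaya R A] :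
    Function.Surjective (AlgHom.mulLeftRight S (S ⊗[R] A)) := by
  intro ψ
  have h : ψ ∈ LinearMap.range (AlgHom.mulLeftRight S (S ⊗[R] A)).toLinearMap := by
    induction ψ using (IsBaseChange.end (TensorProduct.isBaseChange R A S)).inductionOn with
    | zero => exact zero_mem _
    | tmul φ =>
      obtain ⟨t, rfl⟩ := (IsAzumaya.bij (R := R) (A := A)).2 φ
      exact opBase_mem R S A t
    | smul s φ hφ => exact Submodule.smul_mem _ s hφ
    | add x y hx hy => exact add_mem hx hy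
  exact h

theorem az_baseChange (R S A : Type) [CommRing R] [CommRing S] [Algebra R S] [Ring A]
    [Algebra R A] [Module.Free R A] [IsAzumaya R A] : IsAzumaya S (S ⊗[R] A) := by
  classical
  let b := Module.Free.chooseBasis R A
  let bS := b.baseChange S
  have hf : FaithfulSMul S (S ⊗[R] A) := by
    rcases subsingleton_or_nontrivial S with hS | hS
    · exact ⟨fun {a b} _ => Subsingleton.elim a b⟩
    · have : Nontrivial R := (algebraMap R S).domain_nontrivial
      have hA : Nontrivial A := by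
        by_contra hcon
        rw [not_nontrivial_iff_subsingleton] at hcon
        have : (0 : R) = 1 := FaithfulSMul.eq_of_smul_eq_smul (α := A)
          (fun a => Subsingleton.elim _ _)
        exact zero_ne_one this
      obtain ⟨i⟩ : Nonempty (Module.Free.ChooseBasisIndex R A) := inferInstance
      have : Nontrivial (S ⊗[R] A) := ⟨bS i, 0, bS.ne_zero i⟩
      infer_instance
  refine ⟨⟨?_, opBase_surj R S A⟩⟩
  let b1 : Module.Basis _ S ((S ⊗[R] A) ⊗[S] (S ⊗[R] A)ᵐᵒᵖ) :=
    bS.tensorProduct (bS.map (MulOpposite.opLinearEquiv S))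
  let b2 : Module.Basis _ S (Module.End S (S ⊗[R] A)) := bS.end
  let e : Module.End S (S ⊗[R] A) ≃ₗ[S] ((S ⊗[R] A) ⊗[S] (S ⊗[R] A)ᵐᵒᵖ) :=
    b2.equiv b1 (Equiv.refl _)
  have hs : Function.Surjective (e.toLinearMap.comp
      (AlgHom.mulLeftRight S (S ⊗[R] A)).toLinearMap) :=
    e.surjective.comp (opBase_surj R S A)
  have : Module.Finite S ((S ⊗[R] A) ⊗[S] (S ⊗[R] A)ᵐᵒᵖ) := Module.Finite.of_basis b1
  have hi := OrzechProperty.injective_of_surjective_endomorphism _ hs
  intro x y hxy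
  exact hi (congrArg e hxy)

theorem az_matrix (R A : Type) [CommRing R] [Ring A] [Algebra R A] [Module.Free R A]
    [IsAzumaya R A] (n : ℕ) (hn : n ≠ 0) : IsAzumaya R (Matrix (Fin n) (Fin n) A) := by
  have : Nonempty (Fin n) := ⟨⟨0, Nat.pos_of_ne_zero hn⟩⟩
  have h1 : IsAzumaya R (Matrix (Fin n) (Fin n) R) := IsAzumaya.matrix R (Fin n)
  have h2 : IsAzumaya R (A ⊗[R] Matrix (Fin n) (Fin n) R) :=
    az_tensor R A (Matrix (Fin n) (Fin n) R)
  exact IsAzumaya.of_AlgEquiv R _ _ (matrixEquivTensor (Fin n) R A).symm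

end Pool.Agent.Helper8.BR
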