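import Pool.Agent.Helper8.BR.Calc

set_option autoImplicit false

/-! BR-5: the Brauer group as a functor -/

open scoped TensorProduct Quaternion

namespace Pool.Agent.Helper8.BR

/-- Brauer equivalence on the bundled Azumaya algebras -/
def azSetoid (R : Type) [CommRing R] : Setoid (Az R) where
  r A B := BrEq R A B
  iseqv := ⟨fun A => BrEq.refl R A, BrEq.symm, BrEq.trans⟩

/-- the Brauer group (of free Azumaya algebras) -/
def Br (R : Type) [CommRing R] : Type 1 := Quotient (azSetoid R)

/-- the class of an algebra -/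
def Br.mk (R A : Type) [CommRing R] [Ring A] [Algebra R A] [Module.Free R A] [IsAzumaya R A] :
    Br R := Quotient.mk (azSetoid R) (Az.mk A)

section aux

/-- The isomorphism `A ⊗[S] (S ⊗[R] B) ≃ₐ[T] A ⊗[R] B`, for noncommutative `A`, `B`. -/
private noncomputable def grpCancel (R S T A B : Type) [CommRing R] [CommRing S] [CommRing T]
    [Algebra R S] [Algebra R T] [Algebra S T] [Ring A] [Algebra R A] [Algebra S A] [Algebra T A]
    [IsScalarTower R S A] [IsScalarTower R T A] [IsScalarTower S T A]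
    [Ring B] [Algebra R B] : A ⊗[S] (S ⊗[R] B) ≃ₐ[T] A ⊗[R] B :=
  AlgEquiv.symm <| AlgEquiv.ofLinearEquiv
    (TensorProduct.AlgebraTensorModule.cancelBaseChange R S T A B).symm
    (by simp [Algebra.TensorProduct.one_def]) <|
      LinearMap.map_mul_of_map_mul_tmul (fun _ _ _ _ ↦ by simp)

/-- The isomorphism `(S ⊗ A) ⊗[S] (S ⊗ B) ≃ₐ[S] S ⊗ (A ⊗ B)`. -/
private noncomputable def grpDistrib (R S A B : Type) [CommRing R] [CommRing S]
    [Algebra R S] [Ring A] [Algebra R A] [Ring B] [Algebra R B] :
    (S ⊗[R] A) ⊗[S] (S ⊗[R] B) ≃ₐ[S] S ⊗[R] (A ⊗[R] B) :=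
  (grpCancel R S S (S ⊗[R] A) B).trans (Algebra.TensorProduct.assoc R R S S A B)

private instance grpAzTensor (R A B : Type) [CommRing R] [Ring A] [Algebra R A] [Ring B]
    [Algebra R B] [Module.Free R A] [Module.Free R B] [IsAzumaya R A] [IsAzumaya R B] :
    IsAzumaya R (A ⊗[R] B) := az_tensor R A B

private instance grpAzOp (R A : Type) [CommRing R] [Ring A] [Algebra R A] [Module.Free R A]
    [IsAzumaya R A] : IsAzumaya R Aᵐᵒᵖ := az_op R A

private instance grpFreeOp (R A : Type) [CommRing R] [Ring A] [Algebra R A] [Module.Free R A] :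
    Module.Free R Aᵐᵒᵖ := Module.Free.of_equiv (MulOpposite.opLinearEquiv R)

private instance grpAzBaseChange (R S A : Type) [CommRing R] [CommRing S] [Algebra R S] [Ring A]
    [Algebra R A] [Module.Free R A] [IsAzumaya R A] : IsAzumaya S (S ⊗[R] A) :=
  az_baseChange R S A

/-- addition of classes: tensor product -/
private noncomputable def grpAdd (R : Type) [CommRing R] : Br R → Br R → Br R :=
  Quotient.map₂ (fun A B : Az R => (Az.mk (A ⊗[R] B) : Az R))
    (fun _ _ h _ _ h' => BrEq.tensor h h')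

/-- the inverse class: the opposite algebra -/
private noncomputable def grpNeg (R : Type) [CommRing R] : Br R → Br R :=
  Quotient.map (fun A : Az R => (Az.mk (A.carrier)ᵐᵒᵖ : Az R)) (fun _ _ h => BrEq.op h)

/-- extension of scalars on classes -/
private noncomputable def grpMapFun (R S : Type) [CommRing R] [CommRing S] [Algebra R S] :
    Br R → Br S :=
  Quotient.map (fun A : Az R => (Az.mk (S ⊗[R] A) : Az S)) (fun _ _ h => BrEq.baseChange S h)

end aux

noncomputable instance (R : Type) [CommRing R] : AddCommGroup (Br R) where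
  add := grpAdd R
  zero := Br.mk R R
  neg := grpNeg R
  nsmul := @nsmulRec _ ⟨Br.mk R R⟩ ⟨grpAdd R⟩
  zsmul := @zsmulRec _ ⟨Br.mk R R⟩ ⟨grpAdd R⟩ ⟨grpNeg R⟩ (@nsmulRec _ ⟨Br.mk R R⟩ ⟨grpAdd R⟩)
  add_assoc := by
    rintro ⟨A⟩ ⟨B⟩ ⟨C⟩
    exact Quotient.sound (s := azSetoid R)
      (BrEq.of_algEquiv (Algebra.TensorProduct.assoc R R R A B C))
  zero_add := by
    rintro ⟨A⟩
    exact Quotient.sound (s := azSetoid R)
      (BrEq.of_algEquiv (Algebra.TensorProduct.lid R A))
  add_zero := by
    rintro ⟨A⟩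
    exact Quotient.sound (s := azSetoid R)
      (BrEq.of_algEquiv (Algebra.TensorProduct.rid R R A))
  neg_add_cancel := by
    rintro ⟨A⟩
    exact Quotient.sound (s := azSetoid R)
      (BrEq.trans (BrEq.of_algEquiv (Algebra.TensorProduct.comm R _ _)) (BrEq.tensor_op R A))
  add_comm := by
    rintro ⟨A⟩ ⟨B⟩
    exact Quotient.sound (s := azSetoid R)
      (BrEq.of_algEquiv (Algebra.TensorProduct.comm R _ _))

private noncomputable def grpMap (R S : Type) [CommRing R] [CommRing S] [Algebra R S] :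
    Br R →+ Br S where
  toFun := grpMapFun R S
  map_zero' := Quotient.sound (s := azSetoid S)
      (BrEq.of_algEquiv (Algebra.TensorProduct.rid R S S))
  map_add' := by
    rintro ⟨A⟩ ⟨B⟩
    exact Quotient.sound (s := azSetoid S)
      (BrEq.of_algEquiv (grpDistrib R S A B).symm)

/-- extension of scalars -/
noncomputable def Br.map {R S : Type} [CommRing R] [CommRing S] (f : R →+* S) : Br R →+ Br S :=
  @grpMap R S _ _ f.toAlgebra

private theorem grp_map_algebraMap (R S : Type) [CommRing R] [CommRing S] [i : Algebra R S] :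
    Br.map (algebraMap R S) = grpMap R S := by
  have h : (algebraMap R S).toAlgebra = i := Algebra.algebra_ext _ _ fun _ => rfl
  unfold Br.map
  rw [h]

theorem Br.exists_mk {R : Type} [CommRing R] (x : Br R) : ∃ A : Az R, x = Br.mk R A := by
  rcases x with ⟨A⟩
  exact ⟨A, rfl⟩

theorem Br.mk_eq_iff (R A B : Type) [CommRing R] [Ring A] [Algebra R A] [Module.Free R A]
    [IsAzumaya R A] [Ring B] [Algebra R B] [Module.Free R B] [IsAzumaya R B] :
    Br.mk R A = Br.mk R B ↔ BrEq R A B :=
  Quotient.eq (r := azSetoid R)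

theorem Br.mk_eq_zero_iff (R A : Type) [CommRing R] [Ring A] [Algebra R A] [Module.Free R A]
    [IsAzumaya R A] : Br.mk R A = 0 ↔ BrEq R A R :=
  Br.mk_eq_iff R A R

theorem Br.mk_add_mk_eq_iff (R A B C : Type) [CommRing R] [Ring A] [Algebra R A]
    [Module.Free R A] [IsAzumaya R A] [Ring B] [Algebra R B] [Module.Free R B] [IsAzumaya R B]
    [Ring C] [Algebra R C] [Module.Free R C] [IsAzumaya R C] :
    Br.mk R A + Br.mk R B = Br.mk R C ↔ BrEq R (A ⊗[R] B) C :=
  Br.mk_eq_iff R (A ⊗[R] B) C

theorem Br.map_mk_eq_iff (R S A B : Type) [CommRing R] [CommRing S] [Algebra R S] [Ring A]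
    [Algebra R A] [Module.Free R A] [IsAzumaya R A] [Ring B] [Algebra S B] [Module.Free S B]
    [IsAzumaya S B] :
    Br.map (algebraMap R S) (Br.mk R A) = Br.mk S B ↔ BrEq S (S ⊗[R] A) B := by
  rw [grp_map_algebraMap]
  exact Br.mk_eq_iff S (S ⊗[R] A) B

private theorem grp_map_id {R : Type} [CommRing R] (x : Br R) :
    grpMap R R x = x := by
  rcases x with ⟨A⟩
  exact Quotient.sound (s := azSetoid R)
      (BrEq.of_algEquiv (Algebra.TensorProduct.lid R A))

theorem Br.map_id {R : Type} [CommRing R] (x : Br R) : Br.map (RingHom.id R) x = x := by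
  have h := grp_map_algebraMap R R
  rw [Algebra.algebraMap_self] at h
  rw [h, grp_map_id]

private theorem grp_map_map (R S T : Type) [CommRing R] [CommRing S] [CommRing T] [Algebra R S]
    [Algebra S T] [Algebra R T] [IsScalarTower R S T] (x : Br R) :
    grpMap S T (grpMap R S x) = grpMap R T x := by
  rcases x with ⟨A⟩
  exact Quotient.sound (s := azSetoid T)
      (BrEq.of_algEquiv (grpCancel R S T T A))

theorem Br.map_map {R S T : Type} [CommRing R] [CommRing S] [CommRing T] (f : R →+* S)
    (g : S →+* T) (x : Br R) : Br.map g (Br.map f x) = Br.map (g.comp f) x := by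
  let _ := f.toAlgebra
  let _ := g.toAlgebra
  let _ := (g.comp f).toAlgebra
  have : IsScalarTower R S T := IsScalarTower.of_algebraMap_eq' rfl
  exact grp_map_map R S T x

end Pool.Agent.Helper8.BR
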