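import Pool.Agent.Helper8.BR.Tensor
import Pool.Agent.Helper8.BR.OpBase

set_option autoImplicit false

/-! BR-4: calculus of Brauer equivalence -/

open scoped TensorProduct Quaternion

namespace Pool.Agent.Helper8.BR

/-- matrices of matrices -/
private noncomputable def calcComp (R A : Type) [CommRing R] [Ring A] [Algebra R A] (n m : ℕ) :
    Matrix (Fin n) (Fin n) (Matrix (Fin m) (Fin m) A) ≃ₐ[R]
      Matrix (Fin (n * m)) (Fin (n * m)) A :=
  (Matrix.compAlgEquiv (Fin n) (Fin m) A R).trans (Matrix.reindexAlgEquiv R A finProdFinEquiv)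

/-- matrices of size one -/
private def calcOne (R A : Type) [CommRing R] [Ring A] [Algebra R A] :
    A ≃ₐ[R] Matrix (Fin 1) (Fin 1) A where
  toFun a := fun _ _ => a
  invFun M := M 0 0
  left_inv _ := rfl
  right_inv M := by
    ext i j
    rw [Subsingleton.elim i 0, Subsingleton.elim j 0]
  map_mul' a b := by
    ext i j
    rw [Matrix.mul_apply]
    simp
  map_add' a b := rfl
  commutes' r := by
    ext i j
    rw [Subsingleton.elim i 0, Subsingleton.elim j 0, Matrix.algebraMap_matrix_apply]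
    simp

/-- tensor products of matrix algebras -/
private noncomputable def calcKron (R A B : Type) [CommRing R] [Ring A] [Algebra R A] [Ring B]
    [Algebra R B] (n m : ℕ) :
    Matrix (Fin n) (Fin n) A ⊗[R] Matrix (Fin m) (Fin m) B ≃ₐ[R]
      Matrix (Fin (n * m)) (Fin (n * m)) (A ⊗[R] B) :=
  (Matrix.kroneckerTMulAlgEquiv (Fin n) (Fin m) R R A B).trans
    (Matrix.reindexAlgEquiv R (A ⊗[R] B) finProdFinEquiv)

/-- base change of a matrix algebra -/
private noncomputable def calcBase (R S A : Type) [CommRing R] [CommRing S] [Algebra R S] [Ring A]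
    [Algebra R A] (n : ℕ) :
    S ⊗[R] Matrix (Fin n) (Fin n) A ≃ₐ[S] Matrix (Fin n) (Fin n) (S ⊗[R] A) :=
  ((Algebra.TensorProduct.congr (calcOne S S) AlgEquiv.refl).trans
    (Matrix.kroneckerTMulAlgEquiv (Fin 1) (Fin n) R S S A)).trans
      (Matrix.reindexAlgEquiv S (S ⊗[R] A) (Equiv.uniqueProd (Fin n) (Fin 1)))

theorem BrEq.refl (R A : Type) [CommRing R] [Ring A] [Algebra R A] : BrEq R A A :=
  ⟨1, 1, one_ne_zero, one_ne_zero, ⟨AlgEquiv.refl⟩⟩

theorem BrEq.symm {R A B : Type} [CommRing R] [Ring A] [Algebra R A] [Ring B] [Algebra R B]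
    (h : BrEq R A B) : BrEq R B A := by
  obtain ⟨n, m, hn, hm, ⟨e⟩⟩ := h
  exact ⟨m, n, hm, hn, ⟨e.symm⟩⟩

theorem BrEq.trans {R A B C : Type} [CommRing R] [Ring A] [Algebra R A] [Ring B] [Algebra R B]
    [Ring C] [Algebra R C] (h : BrEq R A B) (h' : BrEq R B C) : BrEq R A C := by
  obtain ⟨a, b, ha, hb, ⟨e⟩⟩ := h
  obtain ⟨c, d, hc, hd, ⟨f⟩⟩ := h'
  refine ⟨c * a, b * d, mul_ne_zero hc ha, mul_ne_zero hb hd, ⟨?_⟩⟩
  refine (calcComp R A c a).symm.trans ((AlgEquiv.mapMatrix e).trans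
    ((calcComp R B c b).trans ?_))
  exact (Matrix.reindexAlgEquiv R B (finCongr (mul_comm c b))).trans
    ((calcComp R B b c).symm.trans ((AlgEquiv.mapMatrix f).trans (calcComp R C b d)))

theorem BrEq.of_algEquiv {R A B : Type} [CommRing R] [Ring A] [Algebra R A] [Ring B]
    [Algebra R B] (e : A ≃ₐ[R] B) : BrEq R A B :=
  ⟨1, 1, one_ne_zero, one_ne_zero, ⟨e.mapMatrix⟩⟩

theorem BrEq.matrix (R A : Type) [CommRing R] [Ring A] [Algebra R A] (n : ℕ) (hn : n ≠ 0) :
    BrEq R (Matrix (Fin n) (Fin n) A) A :=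
  ⟨1, 1 * n, one_ne_zero, mul_ne_zero one_ne_zero hn, ⟨calcComp R A 1 n⟩⟩

theorem BrEq.tensor {R A B A' B' : Type} [CommRing R] [Ring A] [Algebra R A] [Ring B]
    [Algebra R B] [Ring A'] [Algebra R A'] [Ring B'] [Algebra R B'] (h : BrEq R A A')
    (h' : BrEq R B B') : BrEq R (A ⊗[R] B) (A' ⊗[R] B') := by
  obtain ⟨a, b, ha, hb, ⟨e⟩⟩ := h
  obtain ⟨c, d, hc, hd, ⟨f⟩⟩ := h'
  exact ⟨a * c, b * d, mul_ne_zero ha hc, mul_ne_zero hb hd,
    ⟨(calcKron R A B a c).symm.trans ((Algebra.TensorProduct.congr e f).trans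
      (calcKron R A' B' b d))⟩⟩

theorem BrEq.op {R A B : Type} [CommRing R] [Ring A] [Algebra R A] [Ring B] [Algebra R B]
    (h : BrEq R A B) : BrEq R Aᵐᵒᵖ Bᵐᵒᵖ := by
  obtain ⟨n, m, hn, hm, ⟨e⟩⟩ := h
  exact ⟨n, m, hn, hm, ⟨(AlgEquiv.mopMatrix).trans ((AlgEquiv.op e).trans
    AlgEquiv.mopMatrix.symm)⟩⟩

theorem BrEq.baseChange {R A B : Type} (S : Type) [CommRing R] [CommRing S] [Algebra R S]
    [Ring A] [Algebra R A] [Ring B] [Algebra R B] (h : BrEq R A B) :
    BrEq S (S ⊗[R] A) (S ⊗[R] B) := by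
  obtain ⟨n, m, hn, hm, ⟨e⟩⟩ := h
  exact ⟨n, m, hn, hm, ⟨(calcBase R S A n).symm.trans
    ((Algebra.TensorProduct.congr AlgEquiv.refl e).trans (calcBase R S B m))⟩⟩

theorem BrEq.tensor_op (R A : Type) [CommRing R] [Ring A] [Algebra R A]
    [Module.Free R A] [IsAzumaya R A] : BrEq R (A ⊗[R] Aᵐᵒᵖ) R := by
  rcases subsingleton_or_nontrivial R with hR | hR
  · have h1 : Subsingleton (A ⊗[R] Aᵐᵒᵖ) := Module.subsingleton R _
    let e : (A ⊗[R] Aᵐᵒᵖ) ≃ₐ[R] R :=
      { toFun := fun _ => 0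
        invFun := fun _ => 0
        left_inv := fun _ => Subsingleton.elim _ _
        right_inv := fun _ => Subsingleton.elim _ _
        map_mul' := fun _ _ => Subsingleton.elim _ _
        map_add' := fun _ _ => Subsingleton.elim _ _
        commutes' := fun _ => Subsingleton.elim _ _ }
    exact BrEq.of_algEquiv e
  · have hA : Nontrivial A := by
      by_contra hA
      rw [not_nontrivial_iff_subsingleton] at hA
      have h1 := (faithfulSMul_iff_algebraMap_injective R A).mp inferInstance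
      exact zero_ne_one (h1 (Subsingleton.elim (algebraMap R A 0) (algebraMap R A 1)))
    let b := Module.finBasis R A
    have h2 : Module.finrank R A ≠ 0 := by
      intro h0
      have : IsEmpty (Fin (Module.finrank R A)) := by
        rw [h0]
        infer_instance
      have h3 := b.repr.toEquiv.subsingleton
      exact not_subsingleton A h3
    exact (BrEq.of_algEquiv ((AlgEquiv.ofBijective _ (IsAzumaya.bij (R := R) (A := A))).trans
      (algEquivMatrix b))).trans (BrEq.matrix R R _ h2)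

theorem BrEq.of_tensor_op {R A B : Type} [CommRing R] [Ring A] [Algebra R A]
    [Ring B] [Algebra R B] [Module.Free R A] [Module.Free R B] [IsAzumaya R A] [IsAzumaya R B]
    (h : BrEq R (A ⊗[R] Bᵐᵒᵖ) R) : BrEq R A B := by
  have h1 : BrEq R A (A ⊗[R] R) := BrEq.of_algEquiv (Algebra.TensorProduct.rid R R A).symm
  have h2 : BrEq R R (Bᵐᵒᵖ ⊗[R] B) :=
    (BrEq.tensor_op R B).symm.trans (BrEq.of_algEquiv (Algebra.TensorProduct.comm R B Bᵐᵒᵖ))
  have h3 : BrEq R (A ⊗[R] R) (A ⊗[R] (Bᵐᵒᵖ ⊗[R] B)) := (BrEq.refl R A).tensor h2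
  have h4 : BrEq R (A ⊗[R] (Bᵐᵒᵖ ⊗[R] B)) ((A ⊗[R] Bᵐᵒᵖ) ⊗[R] B) :=
    BrEq.of_algEquiv (Algebra.TensorProduct.assoc R R R A Bᵐᵒᵖ B).symm
  have h5 : BrEq R ((A ⊗[R] Bᵐᵒᵖ) ⊗[R] B) (R ⊗[R] B) := h.tensor (BrEq.refl R B)
  exact h1.trans (h3.trans (h4.trans (h5.trans
    (BrEq.of_algEquiv (Algebra.TensorProduct.lid R B)))))

/-- over a field, equivalence of finite-dimensional algebras of the same dimension is an
isomorphism of matrix algebras of the same size -/
theorem BrEq.same_size {K A B : Type} [Field K] [Ring A] [Algebra K A] [Ring B] [Algebra K B]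
    [FiniteDimensional K A] [FiniteDimensional K B] (hAB : Module.finrank K A = Module.finrank K B)
    (h0 : Module.finrank K A ≠ 0) (h : BrEq K A B) :
    ∃ n : ℕ, n ≠ 0 ∧ Nonempty (Matrix (Fin n) (Fin n) A ≃ₐ[K] Matrix (Fin n) (Fin n) B) := by
  obtain ⟨n, m, hn, hm, ⟨e⟩⟩ := h
  have h1 := e.toLinearEquiv.finrank_eq
  rw [Module.finrank_matrix, Module.finrank_matrix, Fintype.card_fin, Fintype.card_fin,
    ← hAB] at h1
  have h2 : n * n = m * m := Nat.eq_of_mul_eq_mul_right (Nat.pos_of_ne_zero h0) h1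
  have h3 : n = m := Nat.mul_self_inj.mp h2
  subst h3
  exact ⟨n, hn, ⟨e⟩⟩

end Pool.Agent.Helper8.BR
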