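import Mathlib

set_option autoImplicit false

/-!
# Azumaya algebras and Brauer equivalence (MP_55a891_nt)
-/

open scoped TensorProduct

namespace Pool.Agent.Helper8.BR

/-- Brauer equivalence of two algebras over a commutative ring `R`: some matrix algebra over `A`
is isomorphic to some matrix algebra over `B`. -/
def BrEq (R A B : Type) [CommRing R] [Ring A] [Algebra R A] [Ring B] [Algebra R B] : Prop :=
  ∃ n m : ℕ, n ≠ 0 ∧ m ≠ 0 ∧
    Nonempty (Matrix (Fin n) (Fin n) A ≃ₐ[R] Matrix (Fin m) (Fin m) B)

/-- An Azumaya algebra over `R` that is free as a module (over a semilocal domain, the only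
rings used below, every finitely generated projective module is free). -/
structure Az (R : Type) [CommRing R] where
  /-- the underlying algebra -/
  carrier : Type
  [ring : Ring carrier]
  [algebra : Algebra R carrier]
  [free : Module.Free R carrier]
  [azumaya : IsAzumaya R carrier]

attribute [instance] Az.ring Az.algebra Az.free Az.azumaya

instance (R : Type) [CommRing R] : CoeSort (Az R) Type := ⟨Az.carrier⟩

end Pool.Agent.Helper8.BR
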