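import Pool.Agent.Helper8.BR.Calc
import Pool.Agent.Helper8.BR.Skolem

set_option autoImplicit false

/-! BR-13 -/

open scoped TensorProduct Quaternion

namespace Pool.Agent.Helper8.BR

/-- `L = K(δ)` is a quadratic extension with involution `σ` -/
structure QuadExt (K L : Type) [Field K] [Field L] [Algebra K L] (δ : L) (σ : L ≃+* L) :
    Prop where
  sq : ∃ d : K, δ ^ 2 = algebraMap K L d
  notin : ∀ x : K, algebraMap K L x ≠ δ
  gen : ∀ x : L, ∃ a b : K, x = algebraMap K L a + algebraMap K L b * δ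
  conj : σ δ = -δ
  fix : ∀ x : K, σ (algebraMap K L x) = algebraMap K L x

/-- a semilinear involution of a central simple algebra -/
private lemma DescentAlg_desc (K L C : Type) [Field K] [Field L] [Algebra K L] [CharZero K]
    (δ : L) (σ : L ≃+* L) (hL : QuadExt K L δ σ) [Ring C] [Algebra L C] [Algebra K C]
    [IsScalarTower K L C] [FiniteDimensional L C] [IsSimpleRing C] [Algebra.IsCentral L C]
    (Φ : C →+* C) (hΦ : ∀ (l : L) (c : C), Φ (l • c) = σ l • Φ c) (hinv : ∀ c, Φ (Φ c) = c) :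
    ∃ B : Az K, Nonempty (L ⊗[K] B ≃ₐ[L] C) := by
  have hCL : CharZero L := charZero_of_injective_algebraMap (algebraMap K L).injective
  have hδ : δ ≠ 0 := by
    intro h
    exact hL.notin 0 (by rw [map_zero, h])
  have h2 : (2 : L) ≠ 0 := two_ne_zero
  obtain ⟨dd, hdd⟩ := hL.sq
  have hKs : ∀ (k : K) (c : C), Φ (k • c) = k • Φ c := by
    intro k c
    rw [← algebraMap_smul L k c, hΦ, hL.fix, algebraMap_smul]
  let E : Subalgebra K C :=
    { carrier := {c | Φ c = c}
      mul_mem' := fun {a b} ha hb => by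
        change Φ (a * b) = a * b
        rw [map_mul, show Φ a = a from ha, show Φ b = b from hb]
      add_mem' := fun {a b} ha hb => by
        change Φ (a + b) = a + b
        rw [map_add, show Φ a = a from ha, show Φ b = b from hb]
      algebraMap_mem' := fun k => by
        change Φ (algebraMap K C k) = algebraMap K C k
        rw [Algebra.algebraMap_eq_smul_one, hKs, map_one] }
  have hE : ∀ c, c ∈ E ↔ Φ c = c := fun c => Iff.rfl
  have hσh : σ (2⁻¹ : L) = 2⁻¹ := by
    rw [map_inv₀, map_ofNat]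
  have hdec : ∀ c : C, ∃ x ∈ E, ∃ y ∈ E, c = x + δ • y := by
    intro c
    refine ⟨(2⁻¹ : L) • (c + Φ c), ?_, (δ⁻¹ * 2⁻¹ : L) • (c - Φ c), ?_, ?_⟩
    · rw [hE, hΦ, hσh, map_add, hinv, add_comm]
    · rw [hE, hΦ, map_mul, hσh, map_inv₀, hL.conj, map_sub, hinv, inv_neg, neg_mul, neg_smul,
        ← smul_neg, neg_sub]
    · rw [smul_smul, ← mul_assoc, mul_inv_cancel₀ hδ, one_mul, ← smul_add, add_add_sub_cancel,
        ← two_smul L c, smul_smul, inv_mul_cancel₀ h2, one_smul]
  have huniq : ∀ x ∈ E, ∀ y ∈ E, x + δ • y = 0 → x = 0 ∧ y = 0 := by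
    intro x hx y hy h
    have h1 := congrArg Φ h
    rw [map_add, hΦ, hL.conj, map_zero, (hE x).mp hx, (hE y).mp hy, neg_smul,
      ← sub_eq_add_neg] at h1
    have h3 : (2 : L) • x = 0 := by
      rw [two_smul]
      calc x + x = (x + δ • y) + (x - δ • y) := by abel
        _ = 0 := by rw [h, h1, add_zero]
    have hx0 : x = 0 := (smul_eq_zero.mp h3).resolve_left h2
    refine ⟨hx0, ?_⟩
    rw [hx0, zero_add] at h
    exact (smul_eq_zero.mp h).resolve_left hδ
  -- the tensor product
  let f : L ⊗[K] E →ₐ[L] C := Algebra.TensorProduct.lift (Algebra.ofId L C) E.val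
    (fun x y => Algebra.commutes x (y : C))
  have hf : ∀ (l : L) (x : E), f (l ⊗ₜ x) = l • (x : C) := by
    intro l x
    rw [Algebra.smul_def]
    exact Algebra.TensorProduct.lift_tmul _ _ _ _ _
  have hform : ∀ t : L ⊗[K] E, ∃ x y : E, t = (1 : L) ⊗ₜ x + δ ⊗ₜ y := by
    intro t
    induction t using TensorProduct.induction_on with
    | zero => exact ⟨0, 0, by rw [TensorProduct.tmul_zero, TensorProduct.tmul_zero, add_zero]⟩
    | tmul l x =>
      obtain ⟨a, b, hab⟩ := hL.gen l
      refine ⟨a • x, b • x, ?_⟩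
      rw [hab, TensorProduct.add_tmul, ← TensorProduct.smul_tmul, ← TensorProduct.smul_tmul,
        Algebra.smul_def, Algebra.smul_def, mul_one]
    | add s t hs ht =>
      obtain ⟨x, y, rfl⟩ := hs
      obtain ⟨x', y', rfl⟩ := ht
      refine ⟨x + x', y + y', ?_⟩
      rw [TensorProduct.tmul_add, TensorProduct.tmul_add]
      abel
  have hbij : Function.Bijective f := by
    constructor
    · rw [injective_iff_map_eq_zero]
      intro t ht
      obtain ⟨x, y, rfl⟩ := hform t
      rw [map_add, hf, hf, one_smul] at ht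
      obtain ⟨h1, h3⟩ := huniq x x.2 y y.2 ht
      have h4 : x = 0 := Subtype.ext h1
      have h5 : y = 0 := Subtype.ext h3
      rw [h4, h5, TensorProduct.tmul_zero, TensorProduct.tmul_zero, add_zero]
    · intro c
      obtain ⟨x, hx, y, hy, rfl⟩ := hdec c
      refine ⟨(1 : L) ⊗ₜ ⟨x, hx⟩ + δ ⊗ₜ ⟨y, hy⟩, ?_⟩
      rw [map_add, hf, hf, one_smul]
  -- finite-dimensional
  have hKL : FiniteDimensional K L := by
    let g : (K × K) →ₗ[K] L :=
      (Algebra.linearMap K L).coprod ((LinearMap.mulRight K δ) ∘ₗ Algebra.linearMap K L)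
    apply Module.Finite.of_surjective g
    intro x
    obtain ⟨a, b, hab⟩ := hL.gen x
    exact ⟨(a, b), by rw [hab]; simp [g]⟩
  have hKC : FiniteDimensional K C := Module.Finite.trans L C
  have hKE : FiniteDimensional K E :=
    Module.Finite.of_injective E.val.toLinearMap Subtype.val_injective
  have hEnt : Nontrivial E := ⟨⟨0, 1, fun h => zero_ne_one (congrArg Subtype.val h)⟩⟩
  -- simple
  have hdsmul : ∀ (x y : C), δ • x * (δ • y) = dd • (x * y) := by
    intro x y
    rw [smul_mul_smul_comm, ← pow_two, hdd, algebraMap_smul]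
  have hsimple : IsSimpleRing E := by
    refine ⟨⟨fun I => ?_⟩⟩
    by_contra hcon
    push Not at hcon
    obtain ⟨hbot, htop⟩ := hcon
    apply htop
    let J : TwoSidedIdeal C := TwoSidedIdeal.mk' {c | ∃ x y : E, x ∈ I ∧ y ∈ I ∧
        c = (x : C) + δ • (y : C)}
      ⟨0, 0, I.zero_mem, I.zero_mem, by simp⟩
      (by
        rintro _ _ ⟨x, y, hx, hy, rfl⟩ ⟨x', y', hx', hy', rfl⟩
        refine ⟨x + x', y + y', I.add_mem hx hx', I.add_mem hy hy', ?_⟩
        push_cast
        rw [smul_add]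
        abel)
      (by
        rintro _ ⟨x, y, hx, hy, rfl⟩
        refine ⟨-x, -y, I.neg_mem hx, I.neg_mem hy, ?_⟩
        push_cast
        rw [smul_neg]
        abel)
      (by
        rintro c _ ⟨x, y, hx, hy, rfl⟩
        obtain ⟨c1, hc1, c2, hc2, rfl⟩ := hdec c
        refine ⟨⟨c1, hc1⟩ * x + dd • (⟨c2, hc2⟩ * y), ⟨c2, hc2⟩ * x + ⟨c1, hc1⟩ * y, ?_, ?_, ?_⟩
        · refine I.add_mem (I.mul_mem_left _ _ hx) ?_
          rw [Algebra.smul_def]
          exact I.mul_mem_left _ _ (I.mul_mem_left _ _ hy)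
        · exact I.add_mem (I.mul_mem_left _ _ hx) (I.mul_mem_left _ _ hy)
        · simp only [Subalgebra.coe_add, Subalgebra.coe_mul, Subalgebra.coe_smul]
          rw [← hdsmul, smul_add, add_mul, mul_add, mul_add, smul_mul_assoc, mul_smul_comm,
            smul_mul_assoc]
          abel)
      (by
        rintro _ c ⟨x, y, hx, hy, rfl⟩
        obtain ⟨c1, hc1, c2, hc2, rfl⟩ := hdec c
        refine ⟨x * ⟨c1, hc1⟩ + dd • (y * ⟨c2, hc2⟩), x * ⟨c2, hc2⟩ + y * ⟨c1, hc1⟩, ?_, ?_, ?_⟩
        · refine I.add_mem (I.mul_mem_right _ _ hx) ?_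
          rw [Algebra.smul_def]
          exact I.mul_mem_left _ _ (I.mul_mem_right _ _ hy)
        · exact I.add_mem (I.mul_mem_right _ _ hx) (I.mul_mem_right _ _ hy)
        · simp only [Subalgebra.coe_add, Subalgebra.coe_mul, Subalgebra.coe_smul]
          rw [← hdsmul, smul_add, add_mul, mul_add, mul_add, smul_mul_assoc, mul_smul_comm,
            smul_mul_assoc]
          abel)
    obtain ⟨z, hz, hz0⟩ : ∃ z ∈ I, z ≠ 0 := by
      by_contra hall
      push Not at hall
      apply hbot
      rw [eq_bot_iff]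
      intro z hz
      rw [TwoSidedIdeal.mem_bot]
      exact hall z hz
    have hzJ : (z : C) ∈ J := by
      rw [TwoSidedIdeal.mem_mk']
      exact ⟨z, 0, hz, I.zero_mem, by simp⟩
    have h1 : (1 : C) ∈ J := IsSimpleRing.one_mem_of_ne_zero_mem J
      (fun h => hz0 (Subtype.ext h)) hzJ
    rw [TwoSidedIdeal.mem_mk'] at h1
    obtain ⟨x, y, hx, hy, hxy⟩ := h1
    have h3 := huniq (1 - x) (E.sub_mem E.one_mem x.2) (-y) (E.neg_mem y.2) (by
      rw [hxy, smul_neg]; abel)
    have h4 : x = 1 := by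
      apply Subtype.ext
      exact (sub_eq_zero.mp h3.1).symm
    rw [h4] at hx
    rw [eq_top_iff]
    intro w _
    have := I.mul_mem_left w 1 hx
    rwa [mul_one] at this
  -- central
  have hcentral : Algebra.IsCentral K E := by
    refine ⟨fun x hx => ?_⟩
    rw [Subalgebra.mem_center_iff] at hx
    have h1 : (x : C) ∈ Subalgebra.center L C := by
      rw [Subalgebra.mem_center_iff]
      intro c
      obtain ⟨c1, hc1, c2, hc2, rfl⟩ := hdec c
      have e1 : c1 * (x : C) = x * c1 := congrArg Subtype.val (hx ⟨c1, hc1⟩)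
      have e2 : c2 * (x : C) = x * c2 := congrArg Subtype.val (hx ⟨c2, hc2⟩)
      rw [add_mul, mul_add, e1, smul_mul_assoc, e2, mul_smul_comm]
    have h3 := Algebra.IsCentral.out h1
    rw [Algebra.mem_bot] at h3
    obtain ⟨l, hl⟩ := h3
    have hnt : Nontrivial C := inferInstance
    have h4 : σ l = l := by
      have h5 := (hE x).mp x.2
      rw [← hl, Algebra.algebraMap_eq_smul_one, hΦ, map_one, ← Algebra.algebraMap_eq_smul_one,
        ← Algebra.algebraMap_eq_smul_one] at h5
      exact (algebraMap L C).injective h5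
    obtain ⟨a, b, hab⟩ := hL.gen l
    have h5 : algebraMap K L b * δ = 0 := by
      rw [hab, map_add, map_mul, hL.fix, hL.fix, hL.conj] at h4
      have h6 : (2 : L) * (algebraMap K L b * δ) = 0 := by linear_combination -h4
      exact (mul_eq_zero.mp h6).resolve_left h2
    rw [h5, add_zero] at hab
    rw [Algebra.mem_bot]
    refine ⟨a, Subtype.ext ?_⟩
    change algebraMap K C a = x
    rw [← hl, hab, ← IsScalarTower.algebraMap_apply]
  have haz : IsAzumaya K E := az_of_central_simple K E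
  exact ⟨⟨E⟩, ⟨AlgEquiv.ofBijective f hbij⟩⟩

/-- Galois descent of algebras for a quadratic extension, up to Brauer equivalence -/
theorem descent_alg (K L A : Type) [Field K] [Field L] [Algebra K L] [CharZero K] (δ : L)
    (σ : L ≃+* L) (hL : QuadExt K L δ σ) [Ring A] [Algebra L A] [IsAzumaya L A]
    (φ : A ≃+* A) (hφ : ∀ (c : L) (a : A), φ (c • a) = σ c • φ a) :
    ∃ B : Az K, BrEq L (L ⊗[K] B) A := by
  have hδ : δ ≠ 0 := by
    intro h
    exact hL.notin 0 (by rw [map_zero, h])
  have hσσ : ∀ l, σ (σ l) = l := by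
    intro l
    obtain ⟨a, b, rfl⟩ := hL.gen l
    simp only [map_add, map_mul, hL.fix, hL.conj, map_neg, neg_neg]
  have hfree : Module.Free L A := inferInstance
  have hfin : Module.Finite L A := IsAzumaya.toFinite
  have hsim : IsSimpleRing A := az_simple L A
  have hcen : Algebra.IsCentral L A := inferInstance
  have hnt : Nontrivial A := inferInstance
  -- the square is inner
  have hφa : ∀ l : L, φ (algebraMap L A l) = algebraMap L A (σ l) := by
    intro l
    rw [Algebra.algebraMap_eq_smul_one, hφ, map_one, Algebra.algebraMap_eq_smul_one]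
  let φ2 : A ≃ₐ[L] A := AlgEquiv.ofRingEquiv (f := φ.trans φ) (fun l => by
    rw [RingEquiv.trans_apply, hφa, hφa, hσσ])
  obtain ⟨u, hu⟩ := skolem_noether L A φ2
  have hu' : ∀ a, φ (φ a) = u * a * (u⁻¹ : Aˣ) := hu
  have hz : ∀ x, ((u⁻¹ : Aˣ) : A) * φ u * x = x * (((u⁻¹ : Aˣ) : A) * φ u) := by
    intro x
    obtain ⟨a, rfl⟩ := φ.surjective x
    have h1 : φ (φ (φ a)) = φ u * φ a * φ ((u⁻¹ : Aˣ) : A) := by
      rw [hu' a, map_mul, map_mul]
    have h2 : φ (φ (φ a)) = u * φ a * (u⁻¹ : Aˣ) := hu' (φ a)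
    have h3 : φ ((u⁻¹ : Aˣ) : A) * φ u = 1 := by
      rw [← map_mul, Units.inv_mul, map_one]
    have h4 : φ u * φ a = u * φ a * (u⁻¹ : Aˣ) * φ u := by
      calc φ u * φ a = φ u * φ a * (φ ((u⁻¹ : Aˣ) : A) * φ u) := by rw [h3, mul_one]
        _ = (φ u * φ a * φ ((u⁻¹ : Aˣ) : A)) * φ u := by simp only [mul_assoc]
        _ = u * φ a * (u⁻¹ : Aˣ) * φ u := by rw [← h1, h2]
    rw [mul_assoc, h4]
    simp only [← mul_assoc, Units.inv_mul, one_mul]
  obtain ⟨c, hc⟩ : ∃ c : L, algebraMap L A c = ((u⁻¹ : Aˣ) : A) * φ u := by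
    have h1 : ((u⁻¹ : Aˣ) : A) * φ u ∈ Subalgebra.center L A := by
      rw [Subalgebra.mem_center_iff]
      intro x
      exact (hz x).symm
    have h2 := Algebra.IsCentral.out h1
    rw [Algebra.mem_bot] at h2
    exact h2
  have hφu : φ u = c • (u : A) := by
    rw [Algebra.smul_def, Algebra.commutes, hc, ← mul_assoc, Units.mul_inv, one_mul]
  have hcc : σ c * c = 1 := by
    have h1 : φ (φ u) = u := by
      rw [hu' u, mul_assoc, Units.mul_inv, mul_one]
    rw [hφu, hφ, hφu, smul_smul] at h1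
    have h2 : (σ c * c - 1) • (u : A) = 0 := by rw [sub_smul, one_smul, h1, sub_self]
    rcases smul_eq_zero.mp h2 with h | h
    · exact sub_eq_zero.mp h
    · exact absurd h u.ne_zero
  obtain ⟨l, hl0, hl⟩ : ∃ l : L, l ≠ 0 ∧ σ l * c = l := by
    by_cases h1 : 1 + c = 0
    · have hc1 : c = -1 := by linear_combination h1
      exact ⟨δ, hδ, by rw [hL.conj, hc1]; ring⟩
    · refine ⟨1 + c, h1, ?_⟩
      rw [map_add, map_one]
      linear_combination hcc
  set v : A := l • (u : A) with hv
  set v' : A := l⁻¹ • ((u⁻¹ : Aˣ) : A) with hv'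
  have hvv' : v * v' = 1 := by
    rw [hv, hv', smul_mul_smul_comm, mul_inv_cancel₀ hl0, Units.mul_inv, one_smul]
  have hv'v : v' * v = 1 := by
    rw [hv, hv', smul_mul_smul_comm, inv_mul_cancel₀ hl0, Units.inv_mul, one_smul]
  have hφv : φ v = v := by
    rw [hv, hφ, hφu, smul_smul, hl]
  have hφv' : φ v' = v' := by
    have h1 : φ v' * v = 1 := by
      conv_lhs => rw [← hφv]
      rw [← map_mul, hv'v, map_one]
    calc φ v' = φ v' * (v * v') := by rw [hvv', mul_one]
      _ = (φ v' * v) * v' := by rw [mul_assoc]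
      _ = v' := by rw [h1, one_mul]
  have hφφ : ∀ a, φ (φ a) = v * a * v' := by
    intro a
    rw [hu' a, hv, hv', smul_mul_assoc, smul_mul_smul_comm, mul_inv_cancel₀ hl0, one_smul]
  -- the involution of the 2 x 2 matrices
  let _ : Algebra K A := Algebra.compHom A (algebraMap K L)
  have _ : IsScalarTower K L A := IsScalarTower.of_algebraMap_eq fun _ => rfl
  let W : Matrix (Fin 2) (Fin 2) A := !![0, v'; 1, 0]
  let W' : Matrix (Fin 2) (Fin 2) A := !![0, 1; v, 0]
  have hW'W : W' * W = 1 := by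
    ext i j
    fin_cases i <;> fin_cases j <;> simp [W, W', Matrix.mul_apply, Fin.sum_univ_two, hvv']
  have hWW' : W * W' = 1 := by
    ext i j
    fin_cases i <;> fin_cases j <;> simp [W, W', Matrix.mul_apply, Fin.sum_univ_two, hv'v]
  have hWW : W * W = Matrix.diagonal fun _ => v' := by
    ext i j
    fin_cases i <;> fin_cases j <;> simp [W, Matrix.mul_apply, Fin.sum_univ_two]
  have hW'W' : W' * W' = Matrix.diagonal fun _ => v := by
    ext i j
    fin_cases i <;> fin_cases j <;> simp [W', Matrix.mul_apply, Fin.sum_univ_two]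
  let m : Matrix (Fin 2) (Fin 2) A →+* Matrix (Fin 2) (Fin 2) A :=
    (φ : A →+* A).mapMatrix
  have hm : ∀ (M : Matrix (Fin 2) (Fin 2) A) i j, m M i j = φ (M i j) := fun M i j => rfl
  have hmW : m W = W := by
    ext i j
    rw [hm]
    fin_cases i <;> fin_cases j <;> simp [W, hφv']
  have hmW' : m W' = W' := by
    ext i j
    rw [hm]
    fin_cases i <;> fin_cases j <;> simp [W', hφv]
  let Φ : Matrix (Fin 2) (Fin 2) A →+* Matrix (Fin 2) (Fin 2) A :=
    { toFun := fun M => W * m M * W'
      map_one' := by rw [map_one, mul_one, hWW']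
      map_mul' := by
        intro X Y
        rw [map_mul]
        calc W * (m X * m Y) * W' = W * m X * (1 * (m Y * W')) := by
              rw [one_mul]; simp only [mul_assoc]
          _ = W * m X * W' * (W * m Y * W') := by
              rw [← hW'W]; simp only [mul_assoc]
      map_zero' := by rw [map_zero, mul_zero, zero_mul]
      map_add' := by
        intro X Y
        rw [map_add, mul_add, add_mul] }
  have hΦdef : ∀ M, Φ M = W * m M * W' := fun M => rfl
  have hΦs : ∀ (l : L) (M : Matrix (Fin 2) (Fin 2) A), Φ (l • M) = σ l • Φ M := by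
    intro l M
    have h1 : m (l • M) = σ l • m M := by
      ext i j
      rw [hm, Matrix.smul_apply, Matrix.smul_apply, hm, hφ]
    rw [hΦdef, hΦdef, h1, Matrix.mul_smul, Matrix.smul_mul]
  have hΦΦ : ∀ M, Φ (Φ M) = M := by
    intro M
    rw [hΦdef, hΦdef, map_mul, map_mul, hmW, hmW']
    have h1 : m (m M) = (Matrix.diagonal fun _ => v) * M * (Matrix.diagonal fun _ => v') := by
      ext i j
      rw [hm, hm, hφφ, Matrix.mul_diagonal, Matrix.diagonal_mul]
    rw [h1]
    calc W * (W * ((Matrix.diagonal fun _ => v) * M * (Matrix.diagonal fun _ => v')) * W') * W'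
        = (W * W) * (Matrix.diagonal fun _ => v) * M *
          ((Matrix.diagonal fun _ => v') * (W' * W')) := by simp only [mul_assoc]
      _ = M := by
          rw [hWW, hW'W', Matrix.diagonal_mul_diagonal, hv'v, Matrix.diagonal_one, one_mul,
            mul_one]
  obtain ⟨B, ⟨e⟩⟩ := DescentAlg_desc K L (Matrix (Fin 2) (Fin 2) A) δ σ hL Φ hΦs hΦΦ
  exact ⟨B, (BrEq.of_algEquiv e).trans (BrEq.matrix L A 2 two_ne_zero)⟩

end Pool.Agent.Helper8.BR
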