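import Pool.Agent.Helper8.BR.Group
import Pool.Agent.Helper8.BR.DescentAlg

set_option autoImplicit false

/-! BR-13b -/

open scoped TensorProduct Quaternion

namespace Pool.Agent.Helper8.BR

private theorem descent_includeRight_bijective (R S A : Type) [CommRing R] [CommRing S]
    [Algebra R S] [Ring A] [Algebra R A] (hb : Function.Bijective (algebraMap R S)) :
    Function.Bijective (Algebra.TensorProduct.includeRight : A →ₐ[R] S ⊗[R] A) := by
  let e : R ≃ₐ[R] S := AlgEquiv.ofBijective (Algebra.ofId R S) hb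
  let E : A ≃ₐ[R] S ⊗[R] A :=
    (Algebra.TensorProduct.lid R A).symm.trans (Algebra.TensorProduct.congr e AlgEquiv.refl)
  have : (Algebra.TensorProduct.includeRight : A →ₐ[R] S ⊗[R] A) = (E : A →ₐ[R] S ⊗[R] A) := by
    ext a
    simp [E]
  rw [this]
  exact E.bijective

private theorem descent_semilinear (R S A B : Type) [Field R] [Field S] [Algebra R S]
    [Ring A] [Algebra R A] [Ring B] [Algebra S B] [FiniteDimensional R A]
    [FiniteDimensional S B] (hb : Function.Bijective (algebraMap R S))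
    (hd : Module.finrank R A = Module.finrank S B) (h0 : Module.finrank S B ≠ 0)
    (h : BrEq S (S ⊗[R] A) B) :
    ∃ n : ℕ, n ≠ 0 ∧ ∃ ψ : Matrix (Fin n) (Fin n) A ≃+* Matrix (Fin n) (Fin n) B,
      ∀ (c : R) (a : Matrix (Fin n) (Fin n) A), ψ (c • a) = algebraMap R S c • ψ a := by
  have hd' : Module.finrank S (S ⊗[R] A) = Module.finrank S B := by
    rw [Module.finrank_baseChange, hd]
  obtain ⟨n, hn, ⟨e⟩⟩ := BrEq.same_size hd' (by rw [hd']; exact h0) h
  refine ⟨n, hn, ?_⟩
  let j : A ≃ₐ[R] S ⊗[R] A :=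
    AlgEquiv.ofBijective _ (descent_includeRight_bijective R S A hb)
  have hj : ∀ (c : R) (a : A), j (c • a) = algebraMap R S c • j a := by
    intro c a
    rw [map_smul]
    exact (algebraMap_smul S c (j a)).symm
  refine ⟨(RingEquiv.mapMatrix (j : A ≃+* S ⊗[R] A)).trans (e : _ ≃+* _), ?_⟩
  intro c a
  have h1 : (RingEquiv.mapMatrix (m := Fin n) (j : A ≃+* S ⊗[R] A)) (c • a)
      = algebraMap R S c • (RingEquiv.mapMatrix (m := Fin n) (j : A ≃+* S ⊗[R] A)) a := by
    ext i k
    simp only [RingEquiv.mapMatrix_apply, Matrix.map_apply, Matrix.smul_apply]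
    exact hj c (a i k)
  rw [RingEquiv.trans_apply, RingEquiv.trans_apply, h1]
  exact map_smul e _ _

theorem Br.descent (K L : Type) [Field K] [Field L] [Algebra K L] [CharZero K] (δ : L)
    (σ : L ≃+* L) (hL : QuadExt K L δ σ) (x : Br L) (hx : Br.map (σ : L →+* L) x = x) :
    ∃ y : Br K, Br.map (algebraMap K L) y = x := by
  obtain ⟨A, rfl⟩ := Br.exists_mk x
  have hfin : Module.Finite L A := inferInstance
  have h0 : Module.finrank L A ≠ 0 := by
    have hA : Nontrivial A := (FaithfulSMul.algebraMap_injective L A).nontrivial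
    exact Module.finrank_pos.ne'
  have hx' := (@Br.map_mk_eq_iff L L A A _ _ (σ : L →+* L).toAlgebra _ _ _ _ _ _ _ _).1 hx
  obtain ⟨n, hn, ψ, hψ⟩ := @descent_semilinear L L A A _ _ (σ : L →+* L).toAlgebra _ _ _ _ _ _
    σ.bijective rfl h0 hx'
  haveI := az_matrix L A n hn
  obtain ⟨B, hB⟩ := descent_alg K L (Matrix (Fin n) (Fin n) A) δ σ hL ψ hψ
  refine ⟨Br.mk K B, ?_⟩
  exact (Br.map_mk_eq_iff K L _ _).2 (hB.trans (BrEq.matrix L A n hn))

end Pool.Agent.Helper8.BR
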