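import Pool.Agent.Helper8.BR.P1Defs

set_option autoImplicit false

/-! BR-16 -/

open Module
open scoped TensorProduct Polynomial

namespace Pool.Agent.Helper8.BR

theorem algebraMap_mem_locAt (E : Type) [Field E] (h p : E[X]) :
    algebraMap E[X] (RatFunc E) p ∈ locAt E h :=
  ⟨p, 1, isCoprime_one_left, one_ne_zero, by rw [map_one, mul_one]⟩

/-- polynomials inside the local ring -/
noncomputable def iotaAt (E : Type) [Field E] (h : E[X]) : E[X] →ₐ[E] locAt E h where
  toFun p := ⟨algebraMap E[X] (RatFunc E) p, algebraMap_mem_locAt E h p⟩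
  map_one' := Subtype.ext (map_one _)
  map_mul' p q := Subtype.ext (map_mul _ p q)
  map_zero' := Subtype.ext (map_zero _)
  map_add' p q := Subtype.ext (map_add _ p q)
  commutes' _ := Subtype.ext rfl

theorem coe_iotaAt (E : Type) [Field E] (h p : E[X]) :
    ((iotaAt E h p : locAt E h) : RatFunc E) = algebraMap E[X] (RatFunc E) p := rfl

theorem iotaAt_injective (E : Type) [Field E] (h : E[X]) :
    Function.Injective (iotaAt E h) := by
  intro p q hpq
  have := congrArg (fun x : locAt E h => (x : RatFunc E)) hpq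
  exact IsFractionRing.injective E[X] (RatFunc E) this

theorem isUnit_iotaAt (E : Type) [Field E] (h q : E[X]) (hq : IsCoprime q h) (hq0 : q ≠ 0) :
    IsUnit (iotaAt E h q) := by
  have hq0' : algebraMap E[X] (RatFunc E) q ≠ 0 := by
    intro h0
    exact hq0 (IsFractionRing.injective E[X] (RatFunc E) (by rw [h0, map_zero]))
  have hmem : (algebraMap E[X] (RatFunc E) q)⁻¹ ∈ locAt E h :=
    ⟨1, q, hq, hq0, by rw [inv_mul_cancel₀ hq0', map_one]⟩
  refine IsUnit.of_mul_eq_one ⟨_, hmem⟩ ?_
  apply Subtype.ext
  show algebraMap E[X] (RatFunc E) q * (algebraMap E[X] (RatFunc E) q)⁻¹ = 1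
  exact mul_inv_cancel₀ hq0'

theorem exists_iotaAt (E : Type) [Field E] (h : E[X]) (f : locAt E h) :
    ∃ p q : E[X], IsCoprime q h ∧ q ≠ 0 ∧ f * iotaAt E h q = iotaAt E h p := by
  obtain ⟨f, p, q, hq, hq0, hf⟩ := f
  exact ⟨p, q, hq, hq0, Subtype.ext hf⟩

theorem locAt_ideal (E : Type) [Field E] (h : E[X]) (I : Ideal (locAt E h)) (g : E[X])
    (hg : I.comap (iotaAt E h) = Ideal.span {g}) : I = Ideal.span {iotaAt E h g} := by
  apply le_antisymm
  · intro f hf
    obtain ⟨p, q, hq, hq0, hpq⟩ := exists_iotaAt E h f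
    have hp : p ∈ I.comap (iotaAt E h) := by
      rw [Ideal.mem_comap, ← hpq]
      exact Ideal.mul_mem_right _ _ hf
    rw [hg, Ideal.mem_span_singleton] at hp
    rw [Ideal.mem_span_singleton]
    have h1 : iotaAt E h g ∣ f * iotaAt E h q := by
      rw [hpq]; exact map_dvd _ hp
    exact (isUnit_iotaAt E h q hq hq0).dvd_mul_right.mp h1
  · rw [Ideal.span_singleton_le_iff_mem]
    have : g ∈ I.comap (iotaAt E h) := by rw [hg]; exact Ideal.mem_span_singleton_self g
    exact this

theorem locAt_pid (E : Type) [Field E] (h : E[X]) (h0 : h ≠ 0) :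
    IsPrincipalIdealRing (locAt E h) ∧ IsFractionRing (locAt E h) (RatFunc E) ∧
      Finite (MaximalSpectrum (locAt E h)) := by
  refine ⟨⟨fun I => ?_⟩, ?_, ?_⟩
  · obtain ⟨g, hg⟩ := (IsPrincipalIdealRing.principal (I.comap (iotaAt E h))).principal
    rw [Ideal.submodule_span_eq] at hg
    refine ⟨iotaAt E h g, ?_⟩
    rw [Ideal.submodule_span_eq]
    exact locAt_ideal E h I g hg
  · refine IsFractionRing.of_field _ _ ?_
    intro z
    obtain ⟨p, q, hq⟩ := IsFractionRing.div_surjective (A := E[X]) z
    refine ⟨iotaAt E h p, iotaAt E h q, ?_⟩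
    rw [← hq.2]
    rfl
  · have hne : Ideal.span {h} ≠ (⊥ : Ideal E[X]) := by
      rw [Ne, Ideal.span_singleton_eq_bot]; exact h0
    have hfin : Finite {J : Ideal E[X] // J ∣ Ideal.span {h}} := by
      have := UniqueFactorizationMonoid.fintypeSubtypeDvd (Ideal.span {h}) hne
      exact Finite.of_fintype _
    have hcase : ∀ P : MaximalSpectrum (locAt E h),
        P.asIdeal.comap (iotaAt E h) = ⊥ ∨ P.asIdeal.comap (iotaAt E h) ∣ Ideal.span {h} := by
      intro P
      obtain ⟨g, hg⟩ := (IsPrincipalIdealRing.principal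
        (P.asIdeal.comap (iotaAt E h))).principal
      rw [Ideal.submodule_span_eq] at hg
      have hP : P.asIdeal.IsPrime := P.isMaximal.isPrime
      have hprime : (P.asIdeal.comap (iotaAt E h)).IsPrime := Ideal.comap_isPrime _ _
      by_cases g0 : g = 0
      · left; rw [hg, g0, Ideal.span_singleton_eq_bot]
      · right
        rw [hg] at hprime
        have hgp : Prime g := (Ideal.span_singleton_prime g0).mp hprime
        rw [Ideal.dvd_iff_le, hg, Ideal.span_singleton_le_span_singleton]
        by_contra hnd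
        have hco : IsCoprime g h := (hgp.irreducible.coprime_iff_not_dvd).mpr hnd
        have hu := isUnit_iotaAt E h g hco g0
        have hmem : iotaAt E h g ∈ P.asIdeal := by
          have : g ∈ P.asIdeal.comap (iotaAt E h) := by
            rw [hg]; exact Ideal.mem_span_singleton_self g
          exact this
        exact hP.ne_top (Ideal.eq_top_of_isUnit_mem _ hmem hu)
    classical
    let F : MaximalSpectrum (locAt E h) → Option {J : Ideal E[X] // J ∣ Ideal.span {h}} :=
      fun P => if hd : P.asIdeal.comap (iotaAt E h) ∣ Ideal.span {h} then some ⟨_, hd⟩ else none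
    apply Finite.of_injective F
    intro P Q hPQ
    have hcomap : P.asIdeal.comap (iotaAt E h) = Q.asIdeal.comap (iotaAt E h) := by
      simp only [F] at hPQ
      split_ifs at hPQ with h1 h2 h2
      · simpa using hPQ
      · rcases hcase P with h3 | h3
        · rcases hcase Q with h4 | h4
          · rw [h3, h4]
          · exact absurd h4 h2
        · exact absurd h3 h1
    obtain ⟨g, hg⟩ := (IsPrincipalIdealRing.principal (P.asIdeal.comap (iotaAt E h))).principal
    rw [Ideal.submodule_span_eq] at hg
    have e1 := locAt_ideal E h P.asIdeal g hg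
    have e2 := locAt_ideal E h Q.asIdeal g (hcomap ▸ hg)
    exact MaximalSpectrum.ext (e1.trans e2.symm)

theorem finrank_locAt (E : Type) [Field E] (h a : E[X]) (h0 : h ≠ 0) (k : ℕ)
    (ha : a ∣ h ^ k) :
    Module.Finite E (locAt E h ⧸ Ideal.span
      {(⟨algebraMap E[X] (RatFunc E) a, algebraMap_mem_locAt E h a⟩ : locAt E h)}) ∧
    finrank E (locAt E h ⧸ Ideal.span
      {(⟨algebraMap E[X] (RatFunc E) a, algebraMap_mem_locAt E h a⟩ : locAt E h)}) =
        a.natDegree := by
  have ha0 : a ≠ 0 := by
    rintro rfl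
    exact pow_ne_zero k h0 (zero_dvd_iff.mp ha)
  change Module.Finite E (locAt E h ⧸ Ideal.span {iotaAt E h a}) ∧
    finrank E (locAt E h ⧸ Ideal.span {iotaAt E h a}) = a.natDegree
  let π : E[X] →ₐ[E] (locAt E h ⧸ Ideal.span {iotaAt E h a}) :=
    (Ideal.Quotient.mkₐ E (Ideal.span {iotaAt E h a})).comp (iotaAt E h)
  have hcop : ∀ q : E[X], IsCoprime q h → IsCoprime q a := by
    intro q hq
    obtain ⟨b, hb⟩ := ha
    have : IsCoprime q (h ^ k) := hq.pow_right
    rw [hb] at this
    exact this.of_mul_right_left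
  have hsurj : Function.Surjective π := by
    intro y
    obtain ⟨f, rfl⟩ := Ideal.Quotient.mk_surjective y
    obtain ⟨p, q, hq, hq0, hpq⟩ := exists_iotaAt E h f
    obtain ⟨u, v, huv⟩ := hcop q hq
    refine ⟨u * p, ?_⟩
    show Ideal.Quotient.mk _ (iotaAt E h (u * p)) = Ideal.Quotient.mk _ f
    rw [Ideal.Quotient.eq, Ideal.mem_span_singleton]
    have hone : iotaAt E h u * iotaAt E h q + iotaAt E h v * iotaAt E h a = 1 := by
      rw [← map_mul, ← map_mul, ← map_add, huv, map_one]
    refine ⟨-(iotaAt E h v * f), ?_⟩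
    rw [map_mul, ← hpq]
    linear_combination f * hone
  have hker : RingHom.ker π = Ideal.span {a} := by
    ext p
    rw [RingHom.mem_ker, Ideal.mem_span_singleton]
    show Ideal.Quotient.mk _ (iotaAt E h p) = 0 ↔ _
    rw [Ideal.Quotient.eq_zero_iff_mem, Ideal.mem_span_singleton]
    constructor
    · rintro ⟨f, hf⟩
      obtain ⟨p', q, hq, hq0, hpq⟩ := exists_iotaAt E h f
      have : p * q = a * p' := by
        apply iotaAt_injective E h
        rw [map_mul, map_mul, ← hpq, hf]; ring
      exact (hcop q hq).symm.dvd_of_dvd_mul_right ⟨p', this⟩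
    · intro hp
      exact map_dvd _ hp
  let e := (Ideal.quotientKerAlgEquivOfSurjective hsurj).toLinearEquiv
  let e' : (E[X] ⧸ Ideal.span {a}) ≃ₗ[E] (E[X] ⧸ RingHom.ker π) :=
    (Ideal.quotientEquivAlgOfEq E hker.symm).toLinearEquiv
  have hfin : Module.Finite E (E[X] ⧸ Ideal.span {a}) :=
    (AdjoinRoot.powerBasis ha0).finite
  refine ⟨Module.Finite.equiv (e'.trans e), ?_⟩
  rw [← (e'.trans e).finrank_eq]
  exact finrank_quotient_span_eq_natDegree

/-- evaluation at a point which is not a zero of the denominators -/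
theorem exists_evalAt (E : Type) [Field E] (h : E[X]) (h0 : h ≠ 0) (a : E)
    (ha : h.eval a = 0) :
    ∃ φ : locAt E h →ₐ[E] E, ∀ p : E[X],
      φ ⟨algebraMap E[X] (RatFunc E) p, algebraMap_mem_locAt E h p⟩ = p.eval a := by
  have hev : ∀ q : E[X], IsCoprime q h → q.eval a ≠ 0 := by
    rintro q ⟨u, v, huv⟩ hq
    have := congrArg (Polynomial.eval a) huv
    rw [Polynomial.eval_add, Polynomial.eval_mul, Polynomial.eval_mul, hq, ha, mul_zero, mul_zero,
      add_zero, Polynomial.eval_one] at this
    exact zero_ne_one this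
  choose p q hq hq0 hpq using exists_iotaAt E h
  have hwd : ∀ (f : locAt E h) (p' q' : E[X]), IsCoprime q' h →
      f * iotaAt E h q' = iotaAt E h p' → (p f).eval a / (q f).eval a = p'.eval a / q'.eval a := by
    intro f p' q' hq' hf
    rw [div_eq_div_iff (hev _ (hq f)) (hev _ hq'), ← Polynomial.eval_mul, ← Polynomial.eval_mul]
    congr 1
    apply iotaAt_injective E h
    rw [map_mul, map_mul, ← hf, ← hpq f]; ring
  let φ : locAt E h →ₐ[E] E :=
    { toFun := fun f => (p f).eval a / (q f).eval a
      map_one' := by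
        rw [hwd 1 1 1 isCoprime_one_left (by rw [one_mul])]
        rw [Polynomial.eval_one, div_one]
      map_zero' := by
        rw [hwd 0 0 1 isCoprime_one_left (by rw [zero_mul, map_zero])]
        rw [Polynomial.eval_zero, zero_div]
      map_mul' := by
        intro f g
        rw [hwd (f * g) (p f * p g) (q f * q g) ((hq f).mul_left (hq g))
          (by rw [map_mul, map_mul, ← hpq f, ← hpq g]; ring)]
        rw [Polynomial.eval_mul, Polynomial.eval_mul, mul_div_mul_comm]
      map_add' := by
        intro f g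
        rw [hwd (f + g) (p f * q g + p g * q f) (q f * q g) ((hq f).mul_left (hq g))
          (by rw [map_add, map_mul, map_mul, map_mul, ← hpq f, ← hpq g]; ring)]
        rw [Polynomial.eval_mul, Polynomial.eval_add, Polynomial.eval_mul, Polynomial.eval_mul]
        have h1 := hev _ (hq f)
        have h2 := hev _ (hq g)
        field_simp
      commutes' := by
        intro r
        rw [hwd (algebraMap E (locAt E h) r) (Polynomial.C r) 1 isCoprime_one_left (by
          rw [map_one, mul_one]
          exact ((iotaAt E h).commutes r).symm)]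
        rw [Polynomial.eval_C, Polynomial.eval_one, div_one]
        rfl }
  refine ⟨φ, fun p' => ?_⟩
  show (p (iotaAt E h p')).eval a / (q (iotaAt E h p')).eval a = _
  rw [hwd (iotaAt E h p') p' 1 isCoprime_one_left (by rw [map_one, mul_one])]
  rw [Polynomial.eval_one, div_one]

section infinity

variable {E : Type} [Field E]

theorem mem_locInf {f : RatFunc E} : f ∈ locInf E ↔ (f = 0 ∨ f.intDegree ≤ 0) := Iff.rfl

/-- the function vanishes at infinity -/
def VanInf (f : RatFunc E) : Prop := f = 0 ∨ f.intDegree < 0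

theorem VanInf.add {f g : RatFunc E} (hf : VanInf f) (hg : VanInf g) : VanInf (f + g) := by
  by_cases hf0 : f = 0
  · rw [hf0, zero_add]; exact hg
  by_cases hg0 : g = 0
  · rw [hg0, add_zero]; exact hf
  by_cases hfg : f + g = 0
  · exact Or.inl hfg
  exact Or.inr ((RatFunc.intDegree_add_le hg0 hfg).trans_lt
    (max_lt (hf.resolve_left hf0) (hg.resolve_left hg0)))

theorem VanInf.neg {f : RatFunc E} (hf : VanInf f) : VanInf (-f) := by
  rcases hf with hf | hf
  · left; rw [hf, neg_zero]
  · right; rw [RatFunc.intDegree_neg]; exact hf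

theorem VanInf.sub {f g : RatFunc E} (hf : VanInf f) (hg : VanInf g) : VanInf (f - g) := by
  rw [sub_eq_add_neg]; exact hf.add hg.neg

theorem VanInf.mul {f g : RatFunc E} (hf : VanInf f) (hg : g ∈ locInf E) : VanInf (f * g) := by
  by_cases hf0 : f = 0
  · left; rw [hf0, zero_mul]
  by_cases hg0 : g = 0
  · left; rw [hg0, mul_zero]
  right
  rw [RatFunc.intDegree_mul hf0 hg0]
  have h1 := hf.resolve_left hf0
  have h2 : g.intDegree ≤ 0 := hg.resolve_left hg0
  omega

theorem VanInf.mem {f : RatFunc E} (hf : VanInf f) : f ∈ locInf E := by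
  rcases hf with hf | hf
  · left; exact hf
  · right; exact hf.le

theorem not_vanInf_C {c : E} (hc : c ≠ 0) : ¬ VanInf (RatFunc.C c : RatFunc E) := by
  rintro (h | h)
  · apply hc
    exact RatFunc.C_injective (by rw [h, map_zero])
  · rw [RatFunc.intDegree_C] at h
    exact lt_irrefl _ h

theorem C_mem_locInf (c : E) : (RatFunc.C c : RatFunc E) ∈ locInf E := by
  right; rw [RatFunc.intDegree_C]

/-- the value at infinity -/
theorem exists_value (f : RatFunc E) (hf : f ∈ locInf E) :
    ∃ c : E, VanInf (f - RatFunc.C c) := by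
  by_cases h0 : VanInf f
  · exact ⟨0, by rw [map_zero, sub_zero]; exact h0⟩
  have hf0 : f ≠ 0 := fun h => h0 (Or.inl h)
  have hdeg : f.intDegree = 0 := by
    have h1 : f.intDegree ≤ 0 := hf.resolve_left hf0
    have h2 : ¬ f.intDegree < 0 := fun h => h0 (Or.inr h)
    omega
  have hn : f.num.natDegree = f.denom.natDegree := by
    unfold RatFunc.intDegree at hdeg
    omega
  have hnum : f.num ≠ 0 := RatFunc.num_ne_zero hf0
  refine ⟨f.num.leadingCoeff, ?_⟩
  set c := f.num.leadingCoeff with hc
  have hc0 : c ≠ 0 := Polynomial.leadingCoeff_ne_zero.mpr hnum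
  have hden0 : algebraMap E[X] (RatFunc E) f.denom ≠ 0 := by
    intro h
    exact f.denom_ne_zero (IsFractionRing.injective E[X] (RatFunc E) (by rw [h, map_zero]))
  have hrep : f - RatFunc.C c =
      algebraMap E[X] (RatFunc E) (f.num - Polynomial.C c * f.denom) /
        algebraMap E[X] (RatFunc E) f.denom := by
    rw [map_sub, map_mul, sub_div, mul_div_assoc, div_self hden0, mul_one,
      RatFunc.num_div_denom]
    rfl
  by_cases hz : f.num - Polynomial.C c * f.denom = 0
  · left
    rw [hrep, hz, map_zero, zero_div]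
  · right
    rw [hrep]
    have hz' : algebraMap E[X] (RatFunc E) (f.num - Polynomial.C c * f.denom) ≠ 0 := by
      intro h
      exact hz (IsFractionRing.injective E[X] (RatFunc E) (by rw [h, map_zero]))
    rw [RatFunc.intDegree_div hz' hden0, RatFunc.intDegree_polynomial,
      RatFunc.intDegree_polynomial]
    have hlt : (f.num - Polynomial.C c * f.denom).degree < f.num.degree := by
      apply Polynomial.degree_sub_lt_left
      · rw [Polynomial.degree_C_mul hc0]
        rw [Polynomial.degree_eq_natDegree hnum, Polynomial.degree_eq_natDegree f.denom_ne_zero, hn]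
      · exact hnum
      · rw [Polynomial.leadingCoeff_mul, Polynomial.leadingCoeff_C, f.monic_denom.leadingCoeff,
          mul_one]
    have := Polynomial.natDegree_lt_natDegree hz hlt
    rw [hn] at this
    omega

theorem locInf_dvd {f g : locInf E} (hf : f ≠ 0)
    (h : g = 0 ∨ (g : RatFunc E).intDegree ≤ (f : RatFunc E).intDegree) : f ∣ g := by
  by_cases hg : g = 0
  · rw [hg]; exact dvd_zero f
  have hf' : (f : RatFunc E) ≠ 0 := fun h0 => hf (Subtype.ext h0)
  have hg' : (g : RatFunc E) ≠ 0 := fun h0 => hg (Subtype.ext h0)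
  have hmem : (g : RatFunc E) / (f : RatFunc E) ∈ locInf E := by
    right
    rw [RatFunc.intDegree_div hg' hf']
    have := h.resolve_left hg
    omega
  refine ⟨⟨_, hmem⟩, ?_⟩
  apply Subtype.ext
  show (g : RatFunc E) = (f : RatFunc E) * ((g : RatFunc E) / (f : RatFunc E))
  rw [mul_div_cancel₀ _ hf']

theorem locInf_isUnit {f : locInf E} (hf : ¬ VanInf (f : RatFunc E)) : IsUnit f := by
  have hf0 : f ≠ 0 := by
    rintro rfl
    exact hf (Or.inl rfl)
  have h1 : f ∣ 1 := by
    apply locInf_dvd hf0
    right
    have h2 : ¬ (f : RatFunc E).intDegree < 0 := fun h => hf (Or.inr h)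
    have h3 : ((1 : locInf E) : RatFunc E) = 1 := rfl
    rw [h3, RatFunc.intDegree_one]
    omega
  exact isUnit_of_dvd_one h1

theorem not_isUnit_of_vanInf {f : locInf E} (hf : VanInf (f : RatFunc E)) : ¬ IsUnit f := by
  rintro ⟨u, rfl⟩
  have h1 : VanInf (((u : locInf E) : RatFunc E) * (((u⁻¹ : (locInf E)ˣ) : locInf E) : RatFunc E)) :=
    hf.mul ((u⁻¹ : (locInf E)ˣ) : locInf E).2
  have h2 : ((u : locInf E) : RatFunc E) * (((u⁻¹ : (locInf E)ˣ) : locInf E) : RatFunc E) = 1 := by
    have := congrArg (fun x : locInf E => (x : RatFunc E)) u.mul_inv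
    exact this
  rw [h2] at h1
  have := not_vanInf_C (E := E) (c := 1) one_ne_zero
  rw [map_one] at this
  exact this h1

end infinity

theorem locInf_pid (E : Type) [Field E] :
    IsPrincipalIdealRing (locInf E) ∧ IsFractionRing (locInf E) (RatFunc E) ∧
      IsLocalRing (locInf E) ∧ Finite (MaximalSpectrum (locInf E)) := by
  have hlocal : IsLocalRing (locInf E) := by
    refine IsLocalRing.of_nonunits_add ?_
    intro a b ha hb
    rw [mem_nonunits_iff] at ha hb ⊢
    apply not_isUnit_of_vanInf
    have ha' : VanInf (a : RatFunc E) := by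
      by_contra h; exact ha (locInf_isUnit h)
    have hb' : VanInf (b : RatFunc E) := by
      by_contra h; exact hb (locInf_isUnit h)
    exact ha'.add hb'
  refine ⟨⟨fun I => ?_⟩, ?_, hlocal, ?_⟩
  · by_cases hI : I = ⊥
    · rw [hI]; exact bot_isPrincipal
    · obtain ⟨f0, hf0, hf0'⟩ := Submodule.exists_mem_ne_zero_of_ne_bot hI
      have hex : ∃ n : ℕ, ∃ f ∈ I, f ≠ 0 ∧ (f : RatFunc E).intDegree = -(n : ℤ) := by
        refine ⟨((f0 : RatFunc E).intDegree).natAbs, f0, hf0, hf0', ?_⟩
        have h1 : (f0 : RatFunc E).intDegree ≤ 0 :=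
          f0.2.resolve_left (fun h => hf0' (Subtype.ext h))
        omega
      classical
      obtain ⟨f, hf, hf', hdeg⟩ := Nat.find_spec hex
      refine ⟨f, ?_⟩
      rw [Ideal.submodule_span_eq]
      apply le_antisymm
      · intro g hg
        rw [Ideal.mem_span_singleton]
        apply locInf_dvd hf'
        by_cases hg0 : g = 0
        · left; exact hg0
        · right
          have h1 : (g : RatFunc E).intDegree ≤ 0 :=
            g.2.resolve_left (fun h => hg0 (Subtype.ext h))
          have h2 : Nat.find hex ≤ ((g : RatFunc E).intDegree).natAbs := by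
            apply Nat.find_min' hex
            refine ⟨g, hg, hg0, ?_⟩
            omega
          rw [hdeg]
          omega
      · rw [Ideal.span_singleton_le_iff_mem]; exact hf
  · refine IsFractionRing.of_field _ _ ?_
    intro z
    by_cases hz : z ∈ locInf E
    · refine ⟨⟨z, hz⟩, 1, ?_⟩
      rw [map_one, div_one]; rfl
    · have hz0 : z ≠ 0 := fun h => hz (Or.inl h)
      have hzi : z⁻¹ ∈ locInf E := by
        right
        rw [RatFunc.intDegree_inv]
        have : ¬ z.intDegree ≤ 0 := fun h => hz (Or.inr h)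
        omega
      refine ⟨1, ⟨z⁻¹, hzi⟩, ?_⟩
      rw [map_one]
      show z = 1 / z⁻¹
      rw [one_div, inv_inv]
  · have : Subsingleton (MaximalSpectrum (locInf E)) := by
      constructor
      intro P Q
      apply MaximalSpectrum.ext
      rw [IsLocalRing.eq_maximalIdeal P.isMaximal, IsLocalRing.eq_maximalIdeal Q.isMaximal]
    exact Finite.of_subsingleton

theorem finrank_locInf (E : Type) [Field E] (f : locInf E) (hf : f ≠ 0) :
    Module.Finite E (locInf E ⧸ Ideal.span {f}) ∧
    (finrank E (locInf E ⧸ Ideal.span {f}) : ℤ) = -(f : RatFunc E).intDegree := by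
  have hf' : (f : RatFunc E) ≠ 0 := fun h0 => hf (Subtype.ext h0)
  have hle : (f : RatFunc E).intDegree ≤ 0 := f.2.resolve_left hf'
  obtain ⟨n, hn⟩ : ∃ n : ℕ, (f : RatFunc E).intDegree = -(n : ℤ) :=
    ⟨((f : RatFunc E).intDegree).natAbs, by omega⟩
  have hX0 : (RatFunc.X : RatFunc E) ≠ 0 := RatFunc.X_ne_zero
  have htdeg : ((RatFunc.X : RatFunc E)⁻¹).intDegree = -1 := by
    rw [RatFunc.intDegree_inv, RatFunc.intDegree_X]
  have htmem : (RatFunc.X : RatFunc E)⁻¹ ∈ locInf E := by
    right; rw [htdeg]; norm_num
  set t : locInf E := ⟨(RatFunc.X : RatFunc E)⁻¹, htmem⟩ with ht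
  have ht0 : t ≠ 0 := by
    intro h
    have : (RatFunc.X : RatFunc E)⁻¹ = 0 := congrArg (fun x : locInf E => (x : RatFunc E)) h
    exact inv_ne_zero hX0 this
  have htv : VanInf (t : RatFunc E) := by
    right; show ((RatFunc.X : RatFunc E)⁻¹).intDegree < 0; rw [htdeg]; norm_num
  have htpow : ∀ k : ℕ, ((t ^ k : locInf E) : RatFunc E) ≠ 0 ∧
      ((t ^ k : locInf E) : RatFunc E).intDegree = -(k : ℤ) := by
    intro k
    induction k with
    | zero =>
      refine ⟨?_, ?_⟩
      · rw [pow_zero]; exact one_ne_zero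
      · rw [pow_zero]
        show (1 : RatFunc E).intDegree = _
        rw [RatFunc.intDegree_one]; norm_num
    | succ k ih =>
      have h1 : ((t ^ (k + 1) : locInf E) : RatFunc E) =
          ((t ^ k : locInf E) : RatFunc E) * (RatFunc.X : RatFunc E)⁻¹ := by
        rw [pow_succ]; rfl
      refine ⟨?_, ?_⟩
      · rw [h1]; exact mul_ne_zero ih.1 (inv_ne_zero hX0)
      · rw [h1, RatFunc.intDegree_mul ih.1 (inv_ne_zero hX0), ih.2, htdeg]
        push_cast; ring
  -- the vanishing part of a polynomial in `t`
  have hunit : ∀ q : E[X], q.coeff 0 ≠ 0 → ¬ VanInf ((Polynomial.aeval t q : locInf E) : RatFunc E) := by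
    intro q hq hv
    have h1 : q = Polynomial.X * q.divX + Polynomial.C (q.coeff 0) :=
      (Polynomial.X_mul_divX_add q).symm
    have h2 : ((Polynomial.aeval t q : locInf E) : RatFunc E) =
        (t : RatFunc E) * ((Polynomial.aeval t q.divX : locInf E) : RatFunc E) +
          RatFunc.C (q.coeff 0) := by
      conv_lhs => rw [h1]
      rw [map_add, map_mul, Polynomial.aeval_X, Polynomial.aeval_C]
      rfl
    have h3 : VanInf ((t : RatFunc E) * ((Polynomial.aeval t q.divX : locInf E) : RatFunc E)) :=
      htv.mul (Polynomial.aeval t q.divX : locInf E).2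
    have h4 := hv.sub h3
    rw [h2, add_sub_cancel_left] at h4
    exact not_vanInf_C hq h4
  have happrox : ∀ (g : locInf E) (k : ℕ), ∃ p : E[X],
      ((g - Polynomial.aeval t p : locInf E) : RatFunc E) = 0 ∨
      ((g - Polynomial.aeval t p : locInf E) : RatFunc E).intDegree ≤ -(k : ℤ) := by
    intro g k
    induction k with
    | zero =>
      refine ⟨0, ?_⟩
      rw [map_zero, sub_zero]
      rcases g.2 with h5 | h5
      · left; exact h5
      · right
        rw [Nat.cast_zero, neg_zero]; exact h5
    | succ k ih =>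
      obtain ⟨p, hp⟩ := ih
      rcases hp with hp | hp
      · exact ⟨p, Or.inl hp⟩
      · have hdvd : t ^ k ∣ (g - Polynomial.aeval t p) := by
          apply locInf_dvd
          · intro h
            exact (htpow k).1 (by rw [h]; rfl)
          · right
            rw [(htpow k).2]; exact hp
        obtain ⟨s, hs⟩ := hdvd
        obtain ⟨c, hc⟩ := exists_value (s : RatFunc E) s.2
        refine ⟨p + Polynomial.C c * Polynomial.X ^ k, ?_⟩
        have h1 : ((g - Polynomial.aeval t (p + Polynomial.C c * Polynomial.X ^ k) : locInf E) :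
            RatFunc E) = ((t ^ k : locInf E) : RatFunc E) * ((s : RatFunc E) - RatFunc.C c) := by
          have h2 : g - Polynomial.aeval t (p + Polynomial.C c * Polynomial.X ^ k) =
              t ^ k * (s - algebraMap E (locInf E) c) := by
            rw [map_add, map_mul, Polynomial.aeval_C, map_pow, Polynomial.aeval_X,
              ← sub_sub, hs]
            ring
          rw [h2]; rfl
        rw [h1]
        rcases hc with hc | hc
        · left; rw [hc, mul_zero]
        · by_cases hz : (s : RatFunc E) - RatFunc.C c = 0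
          · left; rw [hz, mul_zero]
          · right
            rw [RatFunc.intDegree_mul (htpow k).1 hz, (htpow k).2]
            push_cast
            omega
  let π : E[X] →ₐ[E] (locInf E ⧸ Ideal.span {f}) :=
    (Ideal.Quotient.mkₐ E (Ideal.span {f})).comp (Polynomial.aeval t)
  have hsurj : Function.Surjective π := by
    intro y
    obtain ⟨g, rfl⟩ := Ideal.Quotient.mk_surjective y
    obtain ⟨p, hp⟩ := happrox g n
    refine ⟨p, ?_⟩
    show Ideal.Quotient.mk _ (Polynomial.aeval t p) = Ideal.Quotient.mk _ g
    symm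
    rw [Ideal.Quotient.eq, Ideal.mem_span_singleton]
    apply locInf_dvd hf
    rcases hp with hp | hp
    · left; exact Subtype.ext hp
    · right; rw [hn]; exact hp
  have hker : RingHom.ker π = Ideal.span {(Polynomial.X : E[X]) ^ n} := by
    ext p
    rw [RingHom.mem_ker, Ideal.mem_span_singleton]
    show Ideal.Quotient.mk _ (Polynomial.aeval t p) = 0 ↔ _
    rw [Ideal.Quotient.eq_zero_iff_mem, Ideal.mem_span_singleton]
    constructor
    · rintro ⟨s, hs⟩
      by_cases hp : p = 0
      · rw [hp]; exact dvd_zero _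
      obtain ⟨m, q, hq, hpq⟩ : ∃ (m : ℕ) (q : E[X]), ¬ (Polynomial.X : E[X]) ∣ q ∧
          p = Polynomial.X ^ m * q := by
        obtain ⟨q, hq⟩ := Polynomial.exists_eq_pow_rootMultiplicity_mul_and_not_dvd p hp 0
        refine ⟨p.rootMultiplicity 0, q, ?_, ?_⟩
        · have := hq.2
          rw [map_zero, sub_zero] at this
          exact this
        · have := hq.1
          rw [map_zero, sub_zero] at this
          exact this
      have hq0 : q.coeff 0 ≠ 0 := by
        intro h
        exact hq (Polynomial.X_dvd_iff.mpr h)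
      have hnv := hunit q hq0
      have hu0 : ((Polynomial.aeval t q : locInf E) : RatFunc E) ≠ 0 := fun h => hnv (Or.inl h)
      have hudeg : ((Polynomial.aeval t q : locInf E) : RatFunc E).intDegree = 0 := by
        have h1 : ¬ ((Polynomial.aeval t q : locInf E) : RatFunc E).intDegree < 0 :=
          fun h => hnv (Or.inr h)
        have h2 : ((Polynomial.aeval t q : locInf E) : RatFunc E).intDegree ≤ 0 :=
          (Polynomial.aeval t q : locInf E).2.resolve_left hu0
        omega
      have hval : ((Polynomial.aeval t p : locInf E) : RatFunc E) =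
          ((t ^ m : locInf E) : RatFunc E) * ((Polynomial.aeval t q : locInf E) : RatFunc E) := by
        rw [hpq, map_mul, map_pow, Polynomial.aeval_X]; rfl
      have hval2 : ((Polynomial.aeval t p : locInf E) : RatFunc E) =
          (f : RatFunc E) * (s : RatFunc E) := by
        rw [hs]; rfl
      have hne : ((Polynomial.aeval t p : locInf E) : RatFunc E) ≠ 0 := by
        rw [hval]; exact mul_ne_zero (htpow m).1 hu0
      have hs0 : (s : RatFunc E) ≠ 0 := by
        intro h
        rw [hval2, h, mul_zero] at hne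
        exact hne rfl
      have hd1 : ((Polynomial.aeval t p : locInf E) : RatFunc E).intDegree = -(m : ℤ) := by
        rw [hval, RatFunc.intDegree_mul (htpow m).1 hu0, (htpow m).2, hudeg, add_zero]
      have hd2 : ((Polynomial.aeval t p : locInf E) : RatFunc E).intDegree ≤ -(n : ℤ) := by
        rw [hval2, RatFunc.intDegree_mul hf' hs0, hn]
        have : (s : RatFunc E).intDegree ≤ 0 := s.2.resolve_left hs0
        omega
      have hmn : n ≤ m := by omega
      rw [hpq]
      exact Dvd.dvd.mul_right (pow_dvd_pow _ hmn) _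
    · rintro ⟨q, rfl⟩
      rw [map_mul, map_pow, Polynomial.aeval_X]
      apply Dvd.dvd.mul_right
      apply locInf_dvd hf
      right
      rw [(htpow n).2, hn]
  let e := (Ideal.quotientKerAlgEquivOfSurjective hsurj).toLinearEquiv
  let e' : (E[X] ⧸ Ideal.span {(Polynomial.X : E[X]) ^ n}) ≃ₗ[E] (E[X] ⧸ RingHom.ker π) :=
    (Ideal.quotientEquivAlgOfEq E hker.symm).toLinearEquiv
  have hXn : (Polynomial.X : E[X]) ^ n ≠ 0 := pow_ne_zero n Polynomial.X_ne_zero
  have hfin : Module.Finite E (E[X] ⧸ Ideal.span {(Polynomial.X : E[X]) ^ n}) :=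
    (AdjoinRoot.powerBasis hXn).finite
  refine ⟨Module.Finite.equiv (e'.trans e), ?_⟩
  rw [← (e'.trans e).finrank_eq, finrank_quotient_span_eq_natDegree,
    Polynomial.natDegree_X_pow, hn]
  ring

theorem exists_evalInf (E : Type) [Field E] :
    ∃ ψ : locInf E →ₐ[E] E, ∀ f : locInf E, (f : RatFunc E).intDegree < 0 → ψ f = 0 := by
  have huniq : ∀ (f : RatFunc E) (c c' : E), VanInf (f - RatFunc.C c) →
      VanInf (f - RatFunc.C c') → c = c' := by
    intro f c c' h h'
    by_contra hne
    have h1 := h'.sub h
    have h2 : f - RatFunc.C c' - (f - RatFunc.C c) = RatFunc.C (c - c') := by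
      rw [map_sub]; ring
    rw [h2] at h1
    exact not_vanInf_C (sub_ne_zero.mpr hne) h1
  choose v hv using fun f : locInf E => exists_value (f : RatFunc E) f.2
  let ψ : locInf E →ₐ[E] E :=
    { toFun := v
      map_one' := huniq _ _ _ (hv 1) (by
        left
        show (1 : RatFunc E) - RatFunc.C 1 = 0
        rw [map_one, sub_self])
      map_zero' := huniq _ _ _ (hv 0) (by
        left
        show (0 : RatFunc E) - RatFunc.C 0 = 0
        rw [map_zero, sub_self])
      map_mul' := by
        intro f g
        apply huniq _ _ _ (hv (f * g))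
        have h1 : ((f * g : locInf E) : RatFunc E) - RatFunc.C (v f * v g) =
            ((f : RatFunc E) - RatFunc.C (v f)) * (g : RatFunc E) +
              ((g : RatFunc E) - RatFunc.C (v g)) * RatFunc.C (v f) := by
          show (f : RatFunc E) * (g : RatFunc E) - _ = _
          rw [map_mul]; ring
        rw [h1]
        exact ((hv f).mul g.2).add ((hv g).mul (C_mem_locInf _))
      map_add' := by
        intro f g
        apply huniq _ _ _ (hv (f + g))
        have h1 : ((f + g : locInf E) : RatFunc E) - RatFunc.C (v f + v g) =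
            ((f : RatFunc E) - RatFunc.C (v f)) + ((g : RatFunc E) - RatFunc.C (v g)) := by
          show (f : RatFunc E) + (g : RatFunc E) - _ = _
          rw [map_add]; ring
        rw [h1]
        exact (hv f).add (hv g)
      commutes' := by
        intro r
        apply huniq _ _ _ (hv (algebraMap E (locInf E) r))
        left
        show (RatFunc.C r : RatFunc E) - RatFunc.C r = 0
        rw [sub_self] }
  refine ⟨ψ, fun f hf => ?_⟩
  show v f = 0
  apply huniq _ _ _ (hv f)
  right
  rw [map_zero, sub_zero]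
  exact hf

end Pool.Agent.Helper8.BR
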