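import Pool.Agent.Helper8.BR.Group
import Pool.Agent.Helper8.BR.Centralizer
import Pool.Agent.Helper8.BR.Fields

set_option autoImplicit false

/-! BR-8 -/

open scoped TensorProduct Quaternion

namespace Pool.Agent.Helper8.BR

section morita_aux

variable {R K A D : Type} [CommRing R] [IsDomain R] [IsPrincipalIdealRing R]
    [Field K] [Algebra R K] [IsFractionRing R K] [Ring A] [Algebra R A] [Module.Free R A]
    [IsAzumaya R A] [DivisionRing D] [Algebra K D] [Algebra R D] [IsScalarTower R K D]
    [FiniteDimensional K D]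

/-- the action of `A` on `D ^ m` -/
private noncomputable def mact {m : ℕ} (e : K ⊗[R] A ≃ₐ[K] Matrix (Fin m) (Fin m) D) :
    A →ₗ[R] (Fin m → D) →ₗ[R] (Fin m → D) where
  toFun a :=
    { toFun := fun v => Matrix.mulVec (e (1 ⊗ₜ a)) v
      map_add' := fun v w => Matrix.mulVec_add _ v w
      map_smul' := fun r v => by
        rw [RingHom.id_apply, ← algebraMap_smul K r v, ← algebraMap_smul K r (Matrix.mulVec _ v),
          Matrix.mulVec_smul] }
  map_add' a b := by
    refine LinearMap.ext fun v => ?_
    change Matrix.mulVec (e (1 ⊗ₜ (a + b))) v = _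
    rw [TensorProduct.tmul_add, map_add, Matrix.add_mulVec]
    rfl
  map_smul' r a := by
    refine LinearMap.ext fun v => ?_
    change Matrix.mulVec (e (1 ⊗ₜ (r • a))) v = r • Matrix.mulVec (e (1 ⊗ₜ a)) v
    rw [← algebraMap_smul K r (Matrix.mulVec _ v), TensorProduct.tmul_smul, ← algebraMap_smul K r,
      map_smul, Matrix.smul_mulVec]

private theorem mact_apply {m : ℕ} (e : K ⊗[R] A ≃ₐ[K] Matrix (Fin m) (Fin m) D) (a : A)
    (v : Fin m → D) : mact e a v = Matrix.mulVec (e (1 ⊗ₜ a)) v := rfl

private theorem mact_mul {m : ℕ} (e : K ⊗[R] A ≃ₐ[K] Matrix (Fin m) (Fin m) D) (a b : A)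
    (v : Fin m → D) : mact e (a * b) v = mact e a (mact e b v) := by
  rw [mact_apply, mact_apply, mact_apply, Matrix.mulVec_mulVec, ← map_mul,
    Algebra.TensorProduct.tmul_mul_tmul, one_mul]

private theorem mact_one {m : ℕ} (e : K ⊗[R] A ≃ₐ[K] Matrix (Fin m) (Fin m) D)
    (v : Fin m → D) : mact e 1 v = v := by
  rw [mact_apply, ← Algebra.TensorProduct.one_def, map_one, Matrix.one_mulVec]

/-- a stable lattice -/
private theorem exists_lattice {m : ℕ} (e : K ⊗[R] A ≃ₐ[K] Matrix (Fin m) (Fin m) D) :
    ∃ M : Submodule R (Fin m → D), Submodule.IsLattice K M ∧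
      ∀ (a : A) (v : Fin m → D), v ∈ M → mact e a v ∈ M := by
  let b := Module.finBasis K (Fin m → D)
  let N : Submodule R (Fin m → D) := Submodule.span R (Set.range b)
  let M : Submodule R (Fin m → D) := Submodule.map₂ (mact e) ⊤ N
  have hfin : Module.Finite R A := inferInstance
  refine ⟨M, ⟨?_, ?_⟩, ?_⟩
  · exact Submodule.FG.map₂ _ hfin.fg_top (Submodule.fg_span (Set.finite_range b))
  · rw [eq_top_iff, ← b.span_eq]
    refine Submodule.span_mono ?_
    rintro _ ⟨i, rfl⟩
    have := Submodule.apply_mem_map₂ (mact e) (Submodule.mem_top (x := (1 : A)))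
      (Submodule.subset_span (Set.mem_range_self i) : b i ∈ N)
    rw [mact_one] at this
    exact this
  · intro a v hv
    have : M ≤ M.comap (mact e a) := by
      refine Submodule.map₂_le.2 fun x _ y hy => ?_
      rw [Submodule.mem_comap, ← mact_mul]
      exact Submodule.apply_mem_map₂ _ Submodule.mem_top hy
    exact this hv

/-- the extension of an endomorphism of a lattice -/
private theorem exists_ext {V : Type} [AddCommGroup V] [Module R V] [Module K V]
    [IsScalarTower R K V] (M : Submodule R V) [Submodule.IsLattice K M] (c : Module.End R M) :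
    ∃ F : Module.End K V, ∀ x : M, F x = c x := by
  let b := Module.Free.chooseBasis R M
  refine ⟨(b.extendOfIsLattice K).constr K (fun i => (c (b i) : V)), ?_⟩
  have h : ((b.extendOfIsLattice K).constr K (fun i => (c (b i) : V))).restrictScalars R ∘ₗ
      M.subtype = M.subtype ∘ₗ c := by
    refine b.ext fun i => ?_
    simp only [LinearMap.comp_apply, Submodule.subtype_apply, LinearMap.coe_restrictScalars]
    rw [← b.extendOfIsLattice_apply K, Module.Basis.constr_basis]
  intro x
  exact LinearMap.congr_fun h x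

private theorem ext_unique {V : Type} [AddCommGroup V] [Module R V] [Module K V]
    [IsScalarTower R K V] (M : Submodule R V) [hM : Submodule.IsLattice K M]
    (F G : Module.End K V) (h : ∀ x : M, F x = G x) : F = G := by
  refine LinearMap.ext_on hM.span_eq_top ?_
  intro x hx
  exact h ⟨x, hx⟩

private theorem faithful_end {V : Type} [AddCommGroup V] [Module R V] [Module K V]
    [IsScalarTower R K V] [Nontrivial V] (M : Submodule R V) [hM : Submodule.IsLattice K M] :
    FaithfulSMul R M := by
  have hn : ∃ x ∈ M, x ≠ 0 := by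
    by_contra hcon
    push Not at hcon
    have h1 : (M : Set V) ⊆ {0} := fun x hx => hcon x hx
    have h2 := hM.span_eq_top
    have h3 : Submodule.span K (M : Set V) ≤ ⊥ := by
      rw [Submodule.span_le]
      exact h1
    rw [h2] at h3
    exact bot_ne_top (le_antisymm bot_le h3)
  obtain ⟨x, hx, hx0⟩ := hn
  refine ⟨fun {r s} h => ?_⟩
  have h1 : r • (⟨x, hx⟩ : M) = s • (⟨x, hx⟩ : M) := h _
  have h2 : r • x = s • x := congrArg Subtype.val h1
  rw [← algebraMap_smul K r x, ← algebraMap_smul K s x] at h2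
  exact IsFractionRing.injective R K (smul_left_injective K hx0 h2)

/-- the action of a matrix, as a `K`-linear map -/
private noncomputable def mvK (K : Type) {D : Type} [Field K] [DivisionRing D] [Algebra K D] {m : ℕ}
    (X : Matrix (Fin m) (Fin m) D) : Module.End K (Fin m → D) where
  toFun v := Matrix.mulVec X v
  map_add' v w := Matrix.mulVec_add _ v w
  map_smul' r v := by rw [RingHom.id_apply, Matrix.mulVec_smul]

private theorem mvK_apply {m : ℕ} (X : Matrix (Fin m) (Fin m) D) (v : Fin m → D) :
    mvK K X v = Matrix.mulVec X v := rfl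

private theorem ext_comm {m : ℕ} (e : K ⊗[R] A ≃ₐ[K] Matrix (Fin m) (Fin m) D)
    (M : Submodule R (Fin m → D)) [hM : Submodule.IsLattice K M]
    (hstab : ∀ (a : A) (v : Fin m → D), v ∈ M → mact e a v ∈ M) (c : Module.End R M)
    (hc : ∀ (a : A) (x : M), (c ⟨mact e a x, hstab a x x.2⟩ : Fin m → D) = mact e a (c x))
    (F : Module.End K (Fin m → D)) (hF : ∀ x : M, F x = c x) (X : Matrix (Fin m) (Fin m) D)
    (v : Fin m → D) : F (Matrix.mulVec X v) = Matrix.mulVec X (F v) := by
  have h1 : ∀ t : K ⊗[R] A, F * mvK K (e t) = mvK K (e t) * F := by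
    intro t
    induction t using TensorProduct.induction_on with
    | zero =>
      refine LinearMap.ext fun v => ?_
      rw [Module.End.mul_apply, Module.End.mul_apply, mvK_apply, mvK_apply, map_zero,
        Matrix.zero_mulVec, Matrix.zero_mulVec, map_zero]
    | add s t hs ht =>
      refine LinearMap.ext fun v => ?_
      have h2 := LinearMap.congr_fun hs v
      have h3 := LinearMap.congr_fun ht v
      rw [Module.End.mul_apply, Module.End.mul_apply, mvK_apply, mvK_apply] at h2 h3 ⊢
      rw [map_add, Matrix.add_mulVec, Matrix.add_mulVec, map_add, h2, h3]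
    | tmul k a =>
      have h2 : F * mvK K (e (1 ⊗ₜ a)) = mvK K (e (1 ⊗ₜ a)) * F := by
        refine ext_unique M _ _ fun x => ?_
        rw [Module.End.mul_apply, Module.End.mul_apply, mvK_apply, mvK_apply, ← mact_apply,
          ← mact_apply, hF x, ← hc a x]
        exact hF ⟨mact e a x, hstab a x x.2⟩
      have h3 : e (k ⊗ₜ a) = k • e (1 ⊗ₜ a) := by
        rw [← map_smul, TensorProduct.smul_tmul', smul_eq_mul, mul_one]
      refine LinearMap.ext fun v => ?_
      have h4 := LinearMap.congr_fun h2 v
      rw [Module.End.mul_apply, Module.End.mul_apply, mvK_apply, mvK_apply] at h4 ⊢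
      rw [h3, Matrix.smul_mulVec, Matrix.smul_mulVec, map_smul, h4]
  obtain ⟨t, rfl⟩ := e.surjective X
  exact LinearMap.congr_fun (h1 t) v

private theorem ext_right {m : ℕ} [NeZero m] (F : Module.End K (Fin m → D))
    (h : ∀ (X : Matrix (Fin m) (Fin m) D) (v : Fin m → D),
      F (Matrix.mulVec X v) = Matrix.mulVec X (F v)) (v : Fin m → D) (i : Fin m) :
    F v i = v i * F (Pi.single 0 1) 0 := by
  classical
  let X : Matrix (Fin m) (Fin m) D := Matrix.of fun i j => if j = 0 then v i else 0
  have hX : ∀ w : Fin m → D, Matrix.mulVec X w = fun i => v i * w 0 := by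
    intro w
    funext i
    simp only [Matrix.mulVec, dotProduct, X, Matrix.of_apply]
    rw [Finset.sum_eq_single 0]
    · rw [if_pos rfl]
    · intro b _ hb
      rw [if_neg hb, zero_mul]
    · intro h
      exact absurd (Finset.mem_univ _) h
  have h1 := h X (Pi.single 0 1)
  rw [hX, hX] at h1
  have h2 : (fun i => v i * (Pi.single 0 1 : Fin m → D) 0) = v := by
    funext i
    rw [Pi.single_eq_same, mul_one]
  rw [h2] at h1
  exact congrFun h1 i

private theorem exists_cent (R A E : Type) [CommRing R] [IsDomain R] [IsPrincipalIdealRing R]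
    [Ring A] [Algebra R A] [Module.Free R A] [IsAzumaya R A] [Ring E] [Algebra R E]
    [Module.Free R E] [Module.Finite R E] [FaithfulSMul R E] (hE : IsAzumaya R E)
    (f : A →ₐ[R] E) :
    ∃ (C : Type) (_ : Ring C) (_ : Algebra R C) (_ : Module.Free R C) (_ : Module.Finite R C)
      (_ : IsAzumaya R C)
      (j : C →ₐ[R] E), (∀ c a, f a * j c = j c * f a) ∧ Nonempty (A ⊗[R] C ≃ₐ[R] E) := by
  let C := Subalgebra.centralizer R (Set.range f)
  obtain ⟨e', -⟩ := centralizer_equiv R A E f
  have hAC : IsAzumaya R (A ⊗[R] C) := IsAzumaya.of_AlgEquiv R E (A ⊗[R] C) e'.symm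
  have hCfin : Module.Finite R C :=
    Module.Finite.of_injective C.val.toLinearMap Subtype.val_injective
  have hEtf : Module.IsTorsionFree R E := inferInstance
  have hCtf : Module.IsTorsionFree R C :=
    Function.Injective.moduleIsTorsionFree C.val.toLinearMap Subtype.val_injective
      (fun r x => rfl)
  have hCfree : Module.Free R C := inferInstance
  have hCfaith : FaithfulSMul R C := by
    refine ⟨fun {r s} h => ?_⟩
    have h1 : r • (1 : C) = s • (1 : C) := h 1
    have h2 : r • (1 : E) = s • (1 : E) := congrArg Subtype.val h1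
    apply FaithfulSMul.eq_of_smul_eq_smul (α := E)
    intro x
    rw [← one_mul x, ← smul_mul_assoc, ← smul_mul_assoc, h2]
  have hCaz : IsAzumaya R C := az_factor R A C hAC
  refine ⟨C, inferInstance, inferInstance, hCfree, hCfin, hCaz, C.val, ?_, ⟨e'⟩⟩
  intro c a
  exact (Subalgebra.mem_centralizer_iff R).mp c.2 (f a) ⟨a, rfl⟩

private theorem morita_core {m : ℕ} (hm : m ≠ 0)
    (e : K ⊗[R] A ≃ₐ[K] Matrix (Fin m) (Fin m) D) :
    ∃ B : Az R, BrEq R A B ∧ Nonempty (K ⊗[R] B ≃ₐ[K] D) := by
  classical
  obtain ⟨M, hM, hstab⟩ := exists_lattice e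
  have hm' : NeZero m := ⟨hm⟩
  have hMfree : Module.Free R M := Submodule.IsLattice.free K M
  have hMfin : Module.Finite R M := Submodule.IsLattice.finite K M
  have hMfaith : FaithfulSMul R M := faithful_end (K := K) M
  let f : A →ₐ[R] Module.End R M :=
    { toFun := fun a => (mact e a).restrict (hstab a)
      map_one' := by
        refine LinearMap.ext fun x => Subtype.ext ?_
        exact mact_one e x
      map_mul' := fun a b => by
        refine LinearMap.ext fun x => Subtype.ext ?_
        exact mact_mul e a b x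
      map_zero' := by
        refine LinearMap.ext fun x => Subtype.ext ?_
        change mact e 0 x = 0
        rw [map_zero, LinearMap.zero_apply]
      map_add' := fun a b => by
        refine LinearMap.ext fun x => Subtype.ext ?_
        change mact e (a + b) x = mact e a x + mact e b x
        rw [map_add, LinearMap.add_apply]
      commutes' := fun r => by
        refine LinearMap.ext fun x => Subtype.ext ?_
        change mact e (algebraMap R A r) x = r • (x : Fin m → D)
        rw [Algebra.algebraMap_eq_smul_one, map_smul, LinearMap.smul_apply, mact_one] }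
  have hf : ∀ a (x : M), f a x = ⟨mact e a x, hstab a x x.2⟩ := fun a x => rfl
  -- `End M` is Azumaya
  obtain ⟨k, hk⟩ : ∃ k, k = Module.finrank R M := ⟨_, rfl⟩
  have hMn : Nontrivial M := by
    by_contra hcon
    rw [not_nontrivial_iff_subsingleton] at hcon
    have : Subsingleton (Module.End R M) := inferInstance
    have h01 : (0 : R) = 1 := by
      apply FaithfulSMul.eq_of_smul_eq_smul (α := M)
      intro x
      exact Subsingleton.elim _ _
    exact zero_ne_one h01
  have hk0 : k ≠ 0 := by
    rw [hk]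
    exact (Module.finrank_pos (R := R) (M := M)).ne'
  have hkz : NeZero k := ⟨hk0⟩
  let bM : Module.Basis (Fin k) R M := (Module.finBasis R M).reindex (finCongr hk.symm)
  let eM : Module.End R M ≃ₐ[R] Matrix (Fin k) (Fin k) R := algEquivMatrix bM
  have hAE : IsAzumaya R (Module.End R M) := by
    have := IsAzumaya.matrix R (Fin k)
    exact IsAzumaya.of_AlgEquiv R (Matrix (Fin k) (Fin k) R) (Module.End R M) eM.symm
  have hEfaith : FaithfulSMul R (Module.End R M) := hAE.toFaithfulSMul
  obtain ⟨C, _, _, hCfree, hCfin, hCaz, j, hj, ⟨e'⟩⟩ :=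
    exists_cent R A (Module.End R M) hAE f
  have hCoaz : IsAzumaya R Cᵐᵒᵖ := az_op R C
  have hCofree : Module.Free R Cᵐᵒᵖ := inferInstance
  refine ⟨Az.mk Cᵐᵒᵖ, ?_, ?_⟩
  · change BrEq R A Cᵐᵒᵖ
    apply BrEq.of_tensor_op
    have e1 : A ⊗[R] Cᵐᵒᵖᵐᵒᵖ ≃ₐ[R] A ⊗[R] C :=
      Algebra.TensorProduct.congr AlgEquiv.refl (AlgEquiv.opOp R C).symm
    have e2 : A ⊗[R] Cᵐᵒᵖᵐᵒᵖ ≃ₐ[R] Matrix (Fin k) (Fin k) R := (e1.trans e').trans eM
    exact (BrEq.of_algEquiv e2).trans (BrEq.matrix R R k hk0)
  · -- the isomorphism over the field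
    choose F hF using fun c : C => exists_ext (K := K) M (j c)
    have hcomm : ∀ (c : C) (X : Matrix (Fin m) (Fin m) D) (v : Fin m → D),
        F c (Matrix.mulVec X v) = Matrix.mulVec X (F c v) := by
      intro c
      refine ext_comm e M hstab (j c) ?_ (F c) (hF c)
      intro a x
      have h2 := LinearMap.congr_fun (hj c a) x
      rw [Module.End.mul_apply, Module.End.mul_apply, hf, hf] at h2
      exact (congrArg Subtype.val h2).symm
    have hright : ∀ (c : C) (v : Fin m → D) (i : Fin m),
        F c v i = v i * F c (Pi.single 0 1) 0 := fun c => ext_right (F c) (hcomm c)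
    have hFmul : ∀ c c' : C, F (c * c') = F c * F c' := by
      intro c c'
      refine ext_unique M _ _ fun x => ?_
      rw [Module.End.mul_apply, hF (c * c'), hF c', hF c, map_mul]
      rfl
    have hFadd : ∀ c c' : C, F (c + c') = F c + F c' := by
      intro c c'
      refine ext_unique M _ _ fun x => ?_
      rw [LinearMap.add_apply, hF (c + c'), hF c', hF c, map_add]
      rfl
    have hFalg : ∀ (r : R) (v : Fin m → D), F (algebraMap R C r) v = r • v := by
      intro r v
      have h1 : F (algebraMap R C r) = (algebraMap R K r) • (1 : Module.End K (Fin m → D)) := by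
        refine ext_unique M _ _ fun x => ?_
        rw [hF, LinearMap.smul_apply, Module.End.one_apply, algebraMap_smul, AlgHom.commutes]
        rfl
      rw [h1, LinearMap.smul_apply, Module.End.one_apply, algebraMap_smul]
    let δ : Cᵐᵒᵖ →ₐ[R] D :=
      { toFun := fun c => F c.unop (Pi.single 0 1) 0
        map_one' := by
          have h1 := hFalg 1 (Pi.single 0 1)
          rw [map_one, one_smul] at h1
          change F 1 (Pi.single 0 1) 0 = 1
          rw [h1, Pi.single_eq_same]
        map_mul' := fun c c' => by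
          change F (c'.unop * c.unop) (Pi.single 0 1) 0 = _
          rw [hFmul, Module.End.mul_apply, hright]
        map_zero' := by
          have h1 := hFalg 0 (Pi.single 0 1)
          rw [map_zero, zero_smul] at h1
          change F 0 (Pi.single 0 1) 0 = 0
          rw [h1, Pi.zero_apply]
        map_add' := fun c c' => by
          change F (c.unop + c'.unop) (Pi.single 0 1) 0 = _
          rw [hFadd, LinearMap.add_apply, Pi.add_apply]
        commutes' := fun r => by
          change F (algebraMap R C r) (Pi.single 0 1) 0 = _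
          rw [hFalg, Pi.smul_apply, Pi.single_eq_same, Algebra.algebraMap_eq_smul_one] }
    let Ψ : K ⊗[R] Cᵐᵒᵖ →ₐ[K] D :=
      Algebra.TensorProduct.lift (Algebra.ofId K D) δ (fun x y => Algebra.commutes x (δ y))
    have hKaz : IsAzumaya K (K ⊗[R] Cᵐᵒᵖ) := az_baseChange R K Cᵐᵒᵖ
    have hsimple : IsSimpleRing (K ⊗[R] Cᵐᵒᵖ) := az_simple K _
    have hinj : Function.Injective Ψ := RingHom.injective Ψ.toRingHom
    have hdim : Module.finrank K (K ⊗[R] Cᵐᵒᵖ) = Module.finrank K D := by
      have h0 : Module.finrank K (K ⊗[R] Cᵐᵒᵖ) = Module.finrank R C := by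
        rw [Module.finrank_baseChange]
        exact (MulOpposite.opLinearEquiv R (M := C)).finrank_eq.symm
      have h1 : Module.finrank R A * Module.finrank R C = k * k := by
        rw [← Module.finrank_tensorProduct, e'.toLinearEquiv.finrank_eq,
          eM.toLinearEquiv.finrank_eq, Module.finrank_matrix, Module.finrank_self,
          Fintype.card_fin, mul_one]
      have h2 : Module.finrank R A = m * m * Module.finrank K D := by
        rw [← Module.finrank_baseChange (R := K) (S := R) (M' := A), e.toLinearEquiv.finrank_eq,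
          Module.finrank_matrix, Fintype.card_fin]
      have h3 : k = m * Module.finrank K D := by
        have h4 : Module.finrank R M = Module.finrank K (Fin m → D) := by
          rw [Module.finrank, Module.finrank, Submodule.IsLattice.rank' K M]
        rw [hk, h4, Module.finrank_pi_fintype, Finset.sum_const, Finset.card_univ,
          Fintype.card_fin, smul_eq_mul]
      have h5 : 0 < Module.finrank K D := Module.finrank_pos
      rw [h0]
      rw [h2, h3] at h1
      have h6 : (m * m * Module.finrank K D) * Module.finrank R C =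
          (m * m * Module.finrank K D) * Module.finrank K D := by
        rw [h1]; ring
      exact Nat.eq_of_mul_eq_mul_left (by positivity) h6
    have hbij : Function.Bijective Ψ := by
      refine ⟨hinj, ?_⟩
      exact (LinearMap.injective_iff_surjective_of_finrank_eq_finrank (f := Ψ.toLinearMap)
        hdim).1 hinj
    exact ⟨AlgEquiv.ofBijective Ψ hbij⟩

end morita_aux

/-- reduction to the division algebra over a principal ideal domain -/
theorem morita_reduction (R K A D : Type) [CommRing R] [IsDomain R] [IsPrincipalIdealRing R]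
    [Field K] [Algebra R K] [IsFractionRing R K] [Ring A] [Algebra R A] [Module.Free R A]
    [IsAzumaya R A] [DivisionRing D] [Algebra K D] [FiniteDimensional K D]
    (h : BrEq K (K ⊗[R] A) D) :
    ∃ B : Az R, BrEq R A B ∧ Nonempty (K ⊗[R] B ≃ₐ[K] D) := by
  obtain ⟨n, m, hn, hm, ⟨e⟩⟩ := h
  let _ : Algebra R D := Algebra.compHom D (algebraMap R K)
  have : IsScalarTower R K D := IsScalarTower.of_algebraMap_eq (fun _ => rfl)
  have := az_matrix R A n hn
  have e1 : K ⊗[R] (Matrix (Fin n) (Fin n) A) ≃ₐ[K] Matrix (Fin n) (Fin n) (K ⊗[R] A) := by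
    have f1 : K ≃ₐ[K] Matrix Unit Unit K := (Matrix.uniqueAlgEquiv).symm
    have f2 := Algebra.TensorProduct.congr f1
      (AlgEquiv.refl (R := R) (A₁ := Matrix (Fin n) (Fin n) A))
    have f3 := Matrix.kroneckerTMulAlgEquiv Unit (Fin n) R K K A
    have f4 := Matrix.reindexAlgEquiv K (K ⊗[R] A) (Equiv.uniqueProd (Fin n) Unit)
    exact (f2.trans f3).trans f4
  obtain ⟨B, hB, he⟩ := morita_core (A := Matrix (Fin n) (Fin n) A) hm (e1.trans e)
  exact ⟨B, (BrEq.matrix R A n hn).symm.trans hB, he⟩

theorem BrEq.of_fractionRing (R K A B : Type) [CommRing R] [IsDomain R] [IsPrincipalIdealRing R]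
    [Field K] [Algebra R K] [IsFractionRing R K] [Ring A] [Algebra R A] [Module.Free R A]
    [IsAzumaya R A] [Ring B] [Algebra R B] [Module.Free R B] [IsAzumaya R B]
    (h : BrEq K (K ⊗[R] A) (K ⊗[R] B)) : BrEq R A B := by
  have := az_op R B
  have := az_tensor R A Bᵐᵒᵖ
  have := az_baseChange R K A
  have := az_baseChange R K B
  have := az_baseChange R K (A ⊗[R] Bᵐᵒᵖ)
  have := az_baseChange R K Bᵐᵒᵖ
  have h1 : BrEq K (K ⊗[R] (A ⊗[R] Bᵐᵒᵖ)) K := by
    rw [← Br.mk_eq_zero_iff]
    rw [← (Br.map_mk_eq_iff R K (A ⊗[R] Bᵐᵒᵖ) (K ⊗[R] (A ⊗[R] Bᵐᵒᵖ))).2 (BrEq.refl _ _)]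
    rw [← (Br.mk_add_mk_eq_iff R A Bᵐᵒᵖ (A ⊗[R] Bᵐᵒᵖ)).2 (BrEq.refl _ _), map_add]
    have h2 : Br.map (algebraMap R K) (Br.mk R A) = Br.map (algebraMap R K) (Br.mk R B) := by
      rw [(Br.map_mk_eq_iff R K A (K ⊗[R] A)).2 (BrEq.refl _ _),
        (Br.map_mk_eq_iff R K B (K ⊗[R] B)).2 (BrEq.refl _ _), Br.mk_eq_iff]
      exact h
    rw [h2, ← map_add, (Br.mk_add_mk_eq_iff R B Bᵐᵒᵖ R).2 (BrEq.tensor_op R B)]
    rw [(Br.mk_eq_zero_iff R R).2 (BrEq.refl _ _), map_zero]
  obtain ⟨C, hC, ⟨eC⟩⟩ := morita_reduction R K (A ⊗[R] Bᵐᵒᵖ) K h1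
  have hfr : Module.finrank R C = 1 := by
    rw [← Module.finrank_baseChange (R := K) (S := R) (M' := C), eC.toLinearEquiv.finrank_eq,
      Module.finrank_self]
  have hbij : Function.Bijective (algebraMap R C) := by
    refine ⟨FaithfulSMul.algebraMap_injective R C, ?_⟩
    let b : Module.Basis (Fin 1) R C := (Module.finBasis R C).reindex (finCongr hfr)
    have hb : ∀ x : C, x = b.repr x 0 • b 0 := by
      intro x
      have := b.sum_repr x
      rw [Fin.sum_univ_one] at this
      exact this.symm
    obtain ⟨r, hr⟩ : ∃ r, r = b.repr (1 : C) 0 := ⟨_, rfl⟩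
    obtain ⟨s, hs⟩ : ∃ s, s = b.repr (b 0 * b 0) 0 := ⟨_, rfl⟩
    have h1' : (1 : C) = r • b 0 := hr ▸ hb 1
    have h2' : b 0 * b 0 = s • b 0 := hs ▸ hb _
    have h3' : b 0 = s • (1 : C) := by
      have : b 0 = b 0 * (r • b 0) := by rw [← h1', mul_one]
      rw [mul_smul_comm, h2', smul_comm, ← h1'] at this
      exact this
    intro x
    refine ⟨b.repr x 0 * s, ?_⟩
    rw [Algebra.algebraMap_eq_smul_one, mul_smul, ← h3']
    exact (hb x).symm
  have e3 : R ≃ₐ[R] C := AlgEquiv.ofBijective (Algebra.ofId R C) hbij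
  exact BrEq.of_tensor_op (hC.trans (BrEq.of_algEquiv e3).symm)

theorem Br.map_injective (R K : Type) [CommRing R] [IsDomain R] [IsPrincipalIdealRing R]
    [Field K] [Algebra R K] [IsFractionRing R K] :
    Function.Injective (Br.map (algebraMap R K)) := by
  intro x y hxy
  obtain ⟨A, rfl⟩ := Br.exists_mk x
  obtain ⟨B, rfl⟩ := Br.exists_mk y
  have := az_baseChange R K A
  have := az_baseChange R K B
  rw [Br.mk_eq_iff]
  apply BrEq.of_fractionRing R K
  rw [(Br.map_mk_eq_iff R K A (K ⊗[R] A)).2 (BrEq.refl _ _),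
    (Br.map_mk_eq_iff R K B (K ⊗[R] B)).2 (BrEq.refl _ _), Br.mk_eq_iff] at hxy
  exact hxy

end Pool.Agent.Helper8.BR
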