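import Pool.Agent.Helper8.BR.P1Division
import Pool.Agent.Helper8.BR.Morita

set_option autoImplicit false

/-! BR-20 -/

open Module
open scoped TensorProduct Polynomial

namespace Pool.Agent.Helper8.BR

/-- a family of Brauer classes on the projective line over `E` -/
structure P1Fam (E : Type) [Field E] where
  /-- the class attached to a point `(s : t)` with values in a semilocal domain -/
  val : ∀ (R : Type) [CommRing R] [IsDomain R] [Finite (MaximalSpectrum R)] [Algebra E R]
    (s t : R), IsCoprime s t → Br R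
  nat : ∀ (R S : Type) [CommRing R] [IsDomain R] [Finite (MaximalSpectrum R)] [Algebra E R]
    [CommRing S] [IsDomain S] [Finite (MaximalSpectrum S)] [Algebra E S] (f : R →ₐ[E] S)
    (s t : R) (h : IsCoprime s t) (h' : IsCoprime (f s) (f t)),
    Br.map (f : R →+* S) (val R s t h) = val S (f s) (f t) h'
  scale : ∀ (R : Type) [CommRing R] [IsDomain R] [Finite (MaximalSpectrum R)] [Algebra E R]
    (s t u : R) (_ : IsUnit u) (h : IsCoprime s t) (h' : IsCoprime (u * s) (u * t)),
    val R (u * s) (u * t) h' = val R s t h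

private theorem p1_val_congr {E : Type} [Field E] (F : P1Fam E) (R : Type) [CommRing R] [IsDomain R]
    [Finite (MaximalSpectrum R)] [Algebra E R] {s t s' t' : R} (hs : s = s') (ht : t = t')
    (h : IsCoprime s t) (h' : IsCoprime s' t') : F.val R s t h = F.val R s' t' h' := by
  subst hs
  subst ht
  rfl

/-- a class over a principal ideal domain whose restriction to the fraction field is the class of the
division algebra `D` is represented by an algebra with generic fibre `D` -/
private theorem p1_exists_model (R K D : Type) [CommRing R] [IsDomain R] [IsPrincipalIdealRing R]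
    [Field K] [Algebra R K] [IsFractionRing R K] [DivisionRing D] [Algebra K D]
    [FiniteDimensional K D] [IsAzumaya K D] (x : Br R)
    (hx : Br.map (algebraMap R K) x = Br.mk K D) :
    ∃ B : Az R, x = Br.mk R B ∧ Nonempty (K ⊗[R] B ≃ₐ[K] D) := by
  obtain ⟨A, rfl⟩ := Br.exists_mk x
  have h1 : BrEq K (K ⊗[R] A) D := (Br.map_mk_eq_iff R K A D).1 hx
  obtain ⟨B, hAB, hB⟩ := morita_reduction R K A D h1
  exact ⟨B, (Br.mk_eq_iff R A B).2 hAB, hB⟩

private theorem p1_finite_of_field (K : Type) [Field K] : Finite (MaximalSpectrum K) := by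
  have : Subsingleton (MaximalSpectrum K) := by
    refine ⟨fun a b => MaximalSpectrum.ext ?_⟩
    have ha := (Ideal.eq_bot_or_top a.asIdeal).resolve_right a.isMaximal.ne_top
    have hb := (Ideal.eq_bot_or_top b.asIdeal).resolve_right b.isMaximal.ne_top
    rw [ha, hb]
  infer_instance

theorem p1_constant (E : Type) [Field E] [CharZero E] (F : P1Fam E) (a b a' b' : E)
    (h : IsCoprime a b) (h' : IsCoprime a' b') : F.val E a b h = F.val E a' b' h' := by
  classical
  have hKfin : Finite (MaximalSpectrum (RatFunc E)) := p1_finite_of_field _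
  have hX0 : (RatFunc.X : RatFunc E) ≠ 0 := RatFunc.X_ne_zero
  set β : Br (RatFunc E) := F.val (RatFunc E) RatFunc.X 1 isCoprime_one_right with hβ
  -- the division algebra of the generic class
  obtain ⟨A, hA⟩ := Br.exists_mk β
  obtain ⟨D, _, _, n, hn, _, _, _, ⟨e⟩⟩ := exists_division (RatFunc E) A
  have hD : β = Br.mk (RatFunc E) D := by
    rw [hA]
    exact (Br.mk_eq_iff (RatFunc E) A D).2
      ((BrEq.of_algEquiv e).trans (BrEq.matrix (RatFunc E) D n hn))
  obtain ⟨h0, hh0, hdiv⟩ := p1_division E D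
  -- the point at infinity
  obtain ⟨hpi, hfri, -, hfini⟩ := locInf_pid E
  have hinvmem : (RatFunc.X : RatFunc E)⁻¹ ∈ locInf E := by
    right
    rw [RatFunc.intDegree_inv, RatFunc.intDegree_X]
    norm_num
  obtain ⟨B', hB', hB'D⟩ := p1_exists_model (locInf E) (RatFunc E) D
    (F.val (locInf E) 1 ⟨RatFunc.X⁻¹, hinvmem⟩ isCoprime_one_left) (by
      have h1 := F.nat (locInf E) (RatFunc E) (locInf E).val 1 ⟨RatFunc.X⁻¹, hinvmem⟩
        isCoprime_one_left (by rw [map_one]; exact isCoprime_one_left)
      have h2 := F.scale (RatFunc E) 1 RatFunc.X⁻¹ RatFunc.X (isUnit_iff_ne_zero.2 hX0)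
        isCoprime_one_left (by rw [mul_inv_cancel₀ hX0]; exact isCoprime_one_right)
      have h3 : F.val (RatFunc E) ((locInf E).val 1) ((locInf E).val ⟨RatFunc.X⁻¹, hinvmem⟩)
          (by rw [map_one]; exact isCoprime_one_left) =
          F.val (RatFunc E) 1 RatFunc.X⁻¹ isCoprime_one_left :=
        p1_val_congr F _ (map_one _) rfl _ _
      have h4 : F.val (RatFunc E) (RatFunc.X * 1) (RatFunc.X * RatFunc.X⁻¹)
          (by rw [mul_inv_cancel₀ hX0]; exact isCoprime_one_right) = β :=
        p1_val_congr F _ (mul_one _) (mul_inv_cancel₀ hX0) _ _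
      rw [← hD, ← h4, h2, ← h3]
      exact h1)
  obtain ⟨ψ, hψ⟩ := exists_evalInf E
  have hψX : ψ ⟨RatFunc.X⁻¹, hinvmem⟩ = 0 := by
    apply hψ
    change (RatFunc.X⁻¹ : RatFunc E).intDegree < 0
    rw [RatFunc.intDegree_inv, RatFunc.intDegree_X]
    norm_num
  have hinf : Br.map (ψ : locInf E →+* E) (Br.mk _ B') =
      F.val E 1 0 isCoprime_one_left := by
    rw [← hB']
    rw [F.nat (locInf E) E ψ 1 ⟨RatFunc.X⁻¹, hinvmem⟩ isCoprime_one_left
      (by rw [map_one]; exact isCoprime_one_left)]
    exact p1_val_congr F _ (map_one _) hψX _ _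
  -- the finite points
  have hfinite : ∀ a : E, F.val E a 1 isCoprime_one_right = F.val E 1 0 isCoprime_one_left := by
    intro a
    set g : E[X] := h0 * (Polynomial.X - Polynomial.C a) with hg
    have hg0 : g ≠ 0 := mul_ne_zero hh0 (Polynomial.X_sub_C_ne_zero a)
    have hga : g.eval a = 0 := by simp [hg]
    obtain ⟨hp, hfr, hfin⟩ := locAt_pid E g hg0
    have hXmem : algebraMap E[X] (RatFunc E) Polynomial.X ∈ locAt E g := algebraMap_mem_locAt E g _
    obtain ⟨B, hB, hBD⟩ := p1_exists_model (locAt E g) (RatFunc E) D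
      (F.val (locAt E g) ⟨_, hXmem⟩ 1 isCoprime_one_right) (by
        have h1 := F.nat (locAt E g) (RatFunc E) (locAt E g).val ⟨_, hXmem⟩ 1
          isCoprime_one_right (by rw [map_one]; exact isCoprime_one_right)
        have h3 : F.val (RatFunc E) ((locAt E g).val ⟨_, hXmem⟩) ((locAt E g).val 1)
            (by rw [map_one]; exact isCoprime_one_right) = β :=
          p1_val_congr F _ (RatFunc.algebraMap_X) (map_one _) _ _
        rw [← hD, ← h3]
        exact h1)
    obtain ⟨φ, hφ⟩ := exists_evalAt E g hg0 a hga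
    have h5 := hdiv g (Dvd.intro _ rfl) hg0 B B' hBD hB'D φ ψ
    rw [hinf, ← hB, F.nat (locAt E g) E φ ⟨_, hXmem⟩ 1 isCoprime_one_right
      (by rw [map_one]; exact isCoprime_one_right)] at h5
    rw [← h5]
    apply p1_val_congr F
    · rw [hφ, Polynomial.eval_X]
    · rw [map_one]
  -- all points
  have hall : ∀ (a b : E) (h : IsCoprime a b), F.val E a b h = F.val E 1 0 isCoprime_one_left := by
    intro a b h
    by_cases hb : b = 0
    · subst hb
      have ha : a ≠ 0 := by
        rintro rfl
        obtain ⟨x, y, hxy⟩ := h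
        simp at hxy
      have hc : IsCoprime (a⁻¹ * a) (a⁻¹ * 0) := by
        rw [inv_mul_cancel₀ ha]; exact isCoprime_one_left
      rw [← F.scale E a 0 a⁻¹ (isUnit_iff_ne_zero.2 (inv_ne_zero ha)) h hc]
      exact p1_val_congr F _ (inv_mul_cancel₀ ha) (mul_zero _) _ _
    · have hc : IsCoprime (b⁻¹ * a) (b⁻¹ * b) := by
        rw [inv_mul_cancel₀ hb]; exact isCoprime_one_right
      rw [← F.scale E a b b⁻¹ (isUnit_iff_ne_zero.2 (inv_ne_zero hb)) h hc, ← hfinite (b⁻¹ * a)]
      exact p1_val_congr F _ rfl (inv_mul_cancel₀ hb) _ _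
  rw [hall a b h, hall a' b' h']

end Pool.Agent.Helper8.BR
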