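import Pool.Agent.Helper8.BR.Defs

set_option autoImplicit false

/-! Local rings of the projective line over a field `E`, inside `E(X)`. -/

open Polynomial

namespace Pool.Agent.Helper8.BR

/-- rational functions whose denominator is prime to `h` -/
def locAt (E : Type) [Field E] (h : E[X]) : Subalgebra E (RatFunc E) where
  carrier := {f | ∃ p q : E[X], IsCoprime q h ∧ q ≠ 0 ∧
    f * algebraMap E[X] (RatFunc E) q = algebraMap E[X] (RatFunc E) p}
  mul_mem' := by
    rintro f g ⟨p, q, hq, hq0, hf⟩ ⟨p', q', hq', hq0', hg⟩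
    refine ⟨p * p', q * q', hq.mul_left hq', mul_ne_zero hq0 hq0', ?_⟩
    rw [map_mul, map_mul, ← hf, ← hg]; ring
  add_mem' := by
    rintro f g ⟨p, q, hq, hq0, hf⟩ ⟨p', q', hq', hq0', hg⟩
    refine ⟨p * q' + p' * q, q * q', hq.mul_left hq', mul_ne_zero hq0 hq0', ?_⟩
    rw [map_mul, map_add, map_mul, map_mul, ← hf, ← hg]; ring
  algebraMap_mem' := by
    intro r
    refine ⟨C r, 1, isCoprime_one_left, one_ne_zero, ?_⟩
    rw [map_one, mul_one]
    rfl

/-- rational functions whose denominator divides a power of `h` -/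
def intAway (E : Type) [Field E] (h : E[X]) : Subalgebra E (RatFunc E) where
  carrier := {f | ∃ (p : E[X]) (k : ℕ),
    f * algebraMap E[X] (RatFunc E) h ^ k = algebraMap E[X] (RatFunc E) p}
  mul_mem' := by
    rintro f g ⟨p, k, hf⟩ ⟨p', k', hg⟩
    refine ⟨p * p', k + k', ?_⟩
    rw [map_mul, ← hf, ← hg, pow_add]; ring
  add_mem' := by
    rintro f g ⟨p, k, hf⟩ ⟨p', k', hg⟩
    refine ⟨p * h ^ k' + p' * h ^ k, k + k', ?_⟩
    rw [map_add, map_mul, map_mul, map_pow, map_pow, ← hf, ← hg, pow_add]; ring
  algebraMap_mem' := by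
    intro r
    refine ⟨C r, 0, ?_⟩
    rw [pow_zero, mul_one]
    rfl

/-- rational functions regular at infinity -/
noncomputable def locInf (E : Type) [Field E] : Subalgebra E (RatFunc E) where
  carrier := {f | f = 0 ∨ f.intDegree ≤ 0}
  mul_mem' := by
    rintro f g (hf | hf) (hg | hg)
    · left; rw [hf, zero_mul]
    · left; rw [hf, zero_mul]
    · left; rw [hg, mul_zero]
    · by_cases hf0 : f = 0
      · left; rw [hf0, zero_mul]
      by_cases hg0 : g = 0
      · left; rw [hg0, mul_zero]
      right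
      rw [RatFunc.intDegree_mul hf0 hg0]
      omega
  add_mem' := by
    rintro f g hf hg
    by_cases hf0 : f = 0
    · rw [hf0, zero_add]; exact hg
    by_cases hg0 : g = 0
    · rw [hg0, add_zero]; exact hf
    by_cases hfg : f + g = 0
    · left; exact hfg
    right
    have hf' : f.intDegree ≤ 0 := hf.resolve_left hf0
    have hg' : g.intDegree ≤ 0 := hg.resolve_left hg0
    exact (RatFunc.intDegree_add_le hg0 hfg).trans (max_le hf' hg')
  algebraMap_mem' := by
    intro r
    right
    have : algebraMap E (RatFunc E) r = RatFunc.C r := rfl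
    rw [this, RatFunc.intDegree_C]

end Pool.Agent.Helper8.BR
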