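import Pool.Agent.Helper8.BR.P1Sections
import Pool.Agent.Helper8.BR.Group

set_option autoImplicit false

/-! BR-19 -/

open Module
open scoped TensorProduct Polynomial

namespace Pool.Agent.Helper8.BR

/-- a ring of sections in which the nonzero elements are units maps isomorphically to the fibre -/
private theorem p1div_equiv (E R H B : Type) [Field E] [CommRing R] [Algebra E R] [Algebra R E]
    (hφ : ∀ r : E, algebraMap R E (algebraMap E R r) = r) [Ring B] [Algebra R B] [Algebra E B]
    [IsScalarTower E R B] [Module.Free R B] [Module.Finite R B] [Ring H] [Algebra E H]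
    (f : H →ₐ[E] B) {N : ℕ} (hN : finrank R B = N) (hN0 : N ≠ 0) (v : Fin N → H)
    (hv : LinearIndependent E v) (hu : ∀ x : H, x ≠ 0 → IsUnit x) :
    Nonempty (H ≃ₐ[E] E ⊗[R] B) := by
  have hR : Nontrivial R := by
    by_contra h
    rw [not_nontrivial_iff_subsingleton] at h
    have h1 : algebraMap R E (algebraMap E R 1) = algebraMap R E (algebraMap E R 0) :=
      congrArg _ (Subsingleton.elim _ _)
    rw [hφ, hφ] at h1
    exact one_ne_zero h1
  have hfin : finrank E (E ⊗[R] B) = N := by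
    rw [Module.finrank_baseChange, hN]
  have hfd : Module.Finite E (E ⊗[R] B) := inferInstance
  have hnt : Nontrivial (E ⊗[R] B) := by
    apply Module.nontrivial_of_finrank_pos (R := E)
    omega
  let g : H →ₐ[E] E ⊗[R] B :=
    { toRingHom := (Algebra.TensorProduct.includeRight : B →ₐ[R] E ⊗[R] B).toRingHom.comp
        f.toRingHom
      commutes' := by
        intro r
        change (1 : E) ⊗ₜ[R] (f (algebraMap E H r)) = _
        rw [f.commutes, IsScalarTower.algebraMap_apply E R B, Algebra.algebraMap_eq_smul_one,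
          TensorProduct.tmul_smul, TensorProduct.smul_tmul', Algebra.smul_def, hφ, mul_one]
        rfl }
  have hginj : Function.Injective g := by
    rw [injective_iff_map_eq_zero]
    intro x hx
    by_contra hne
    have h1 := (hu x hne).map g
    rw [hx] at h1
    exact not_isUnit_zero h1
  have hli : LinearIndependent E (g ∘ v) :=
    hv.map' g.toLinearMap (LinearMap.ker_eq_bot.2 hginj)
  have hspan : Submodule.span E (Set.range (g ∘ v)) = ⊤ := by
    have : Nonempty (Fin N) := ⟨⟨0, by omega⟩⟩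
    apply hli.span_eq_top_of_card_eq_finrank
    rw [Fintype.card_fin, hfin]
  have hgsurj : Function.Surjective g := by
    intro y
    have hy : y ∈ Submodule.span E (Set.range (g ∘ v)) := by rw [hspan]; trivial
    have hle : Submodule.span E (Set.range (g ∘ v)) ≤ LinearMap.range g.toLinearMap := by
      rw [Submodule.span_le]
      rintro _ ⟨i, rfl⟩
      exact ⟨v i, rfl⟩
    exact hle hy
  exact ⟨AlgEquiv.ofBijective g ⟨hginj, hgsurj⟩⟩

theorem p1_division (E D : Type) [Field E] [CharZero E] [DivisionRing D]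
    [Algebra (RatFunc E) D] [FiniteDimensional (RatFunc E) D] :
    ∃ h0 : E[X], h0 ≠ 0 ∧ ∀ h : E[X], h0 ∣ h → h ≠ 0 → ∀ (B : Az (locAt E h))
      (B' : Az (locInf E)), Nonempty (RatFunc E ⊗[locAt E h] B ≃ₐ[RatFunc E] D) →
      Nonempty (RatFunc E ⊗[locInf E] B' ≃ₐ[RatFunc E] D) →
      ∀ (φ : locAt E h →ₐ[E] E) (ψ : locInf E →ₐ[E] E),
        Br.map (φ : locAt E h →+* E) (Br.mk _ B) = Br.map (ψ : locInf E →+* E) (Br.mk _ B') := by
  obtain ⟨h0, hh0, hmain⟩ := p1_sections E D
  refine ⟨h0, hh0, fun h hdvd hne B B' hB hB' φ ψ => ?_⟩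
  obtain ⟨H, iH, iEH, iEB, iEB', iT, iT', f, f', v, hv, hu⟩ := hmain h hdvd hne B B' hB hB'
  have hN0 : finrank (RatFunc E) D ≠ 0 := (finrank_pos (R := RatFunc E) (M := D)).ne'
  have hNB : finrank (locAt E h) B = finrank (RatFunc E) D := by
    obtain ⟨e⟩ := hB
    rw [← e.toLinearEquiv.finrank_eq, Module.finrank_baseChange]
  have hNB' : finrank (locInf E) B' = finrank (RatFunc E) D := by
    obtain ⟨e⟩ := hB'
    rw [← e.toLinearEquiv.finrank_eq, Module.finrank_baseChange]
  letI : Algebra (locAt E h) E := (φ : locAt E h →+* E).toAlgebra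
  letI : Algebra (locInf E) E := (ψ : locInf E →+* E).toAlgebra
  obtain ⟨e1⟩ := p1div_equiv E (locAt E h) H B (fun r => φ.commutes r) f hNB hN0 v hv hu
  obtain ⟨e2⟩ := p1div_equiv E (locInf E) H B' (fun r => ψ.commutes r) f' hNB' hN0 v hv hu
  obtain ⟨A, hA⟩ := Br.exists_mk (Br.map (ψ : locInf E →+* E) (Br.mk _ B'))
  rw [hA]
  have hA' : Br.map (algebraMap (locInf E) E) (Br.mk _ B') = Br.mk E A := hA
  rw [Br.map_mk_eq_iff] at hA'
  have key : Br.map (algebraMap (locAt E h) E) (Br.mk _ B) = Br.mk E A := by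
    rw [Br.map_mk_eq_iff]
    obtain ⟨n, m, hn, hm, ⟨e⟩⟩ := hA'
    exact ⟨n, m, hn, hm, ⟨((e1.symm.trans e2).mapMatrix).trans e⟩⟩
  exact key

end Pool.Agent.Helper8.BR
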