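import Pool.Agent.Helper8.BR.Fields
import Pool.Agent.Helper8.BR.OpBase

set_option autoImplicit false

/-! BR-14 -/

open scoped TensorProduct Quaternion

namespace Pool.Agent.Helper8.BR

private theorem trace_mulLeft_comm (k B : Type) [Field k] [Ring B] [Algebra k B]
    (x y : B) :
    LinearMap.trace k B (LinearMap.mulLeft k (x * y)) =
      LinearMap.trace k B (LinearMap.mulLeft k (y * x)) := by
  rw [LinearMap.mulLeft_mul, LinearMap.mulLeft_mul]
  exact LinearMap.trace_mul_comm k (LinearMap.mulLeft k x) (LinearMap.mulLeft k y)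

/-- nondegeneracy over a field -/
private theorem trace_nondeg (k B : Type) [Field k] [CharZero k] [Ring B] [Algebra k B]
    [FiniteDimensional k B] [IsSimpleRing B] (x : B)
    (hx : ∀ y : B, LinearMap.trace k B (LinearMap.mulLeft k (y * x)) = 0) : x = 0 := by
  classical
  let I : TwoSidedIdeal B := TwoSidedIdeal.mk'
    {x : B | ∀ y : B, LinearMap.trace k B (LinearMap.mulLeft k (y * x)) = 0}
    (by intro y; simp)
    (by
      intro a c ha hc y
      have : LinearMap.mulLeft k (y * (a + c)) =
          LinearMap.mulLeft k (y * a) + LinearMap.mulLeft k (y * c) := by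
        ext z; simp [mul_add, add_mul, mul_assoc]
      rw [this, map_add, ha y, hc y, add_zero])
    (by
      intro a ha y
      have : LinearMap.mulLeft k (y * (-a)) = - LinearMap.mulLeft k (y * a) := by
        ext z; simp [mul_assoc]
      rw [this, map_neg, ha y, neg_zero])
    (by
      intro r a ha y
      rw [← mul_assoc]
      exact ha (y * r))
    (by
      intro a r ha y
      rw [← mul_assoc, trace_mulLeft_comm, ← mul_assoc]
      exact ha (r * y))
  have hmem : ∀ z : B, z ∈ I ↔
      ∀ y : B, LinearMap.trace k B (LinearMap.mulLeft k (y * z)) = 0 := by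
    intro z
    exact TwoSidedIdeal.mem_mk' _ _ _ _ _ _ z
  have hne : I ≠ ⊤ := by
    intro h
    have h1 : (1 : B) ∈ I := by rw [h]; trivial
    have h2 := (hmem 1).1 h1 1
    rw [mul_one, LinearMap.mulLeft_one] at h2
    have h3 : LinearMap.trace k B LinearMap.id = (Module.finrank k B : k) :=
      LinearMap.trace_id k B
    rw [h3] at h2
    have h4 : Module.finrank k B ≠ 0 := Module.finrank_pos.ne'
    exact h4 (by exact_mod_cast h2)
  have hbot : I = ⊥ := (eq_bot_or_eq_top I).resolve_right hne
  have : x ∈ I := (hmem x).2 hx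
  rw [hbot] at this
  exact (TwoSidedIdeal.mem_bot B).1 this

theorem trace_unit (R A : Type) [CommRing R] [Algebra ℚ R] [Ring A] [Algebra R A]
    [IsAzumaya R A] {N : ℕ} (b : Module.Basis (Fin N) R A) :
    IsUnit (Matrix.det (Matrix.of fun i j =>
      LinearMap.trace R A (LinearMap.mulLeft R (b i * b j)))) := by
  classical
  haveI : Module.Free R A := Module.Free.of_basis b
  haveI : Module.Finite R A := Module.Finite.of_basis b
  by_contra hnu
  obtain ⟨m, hm, hmem⟩ := exists_max_ideal_of_mem_nonunits hnu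
  letI : Field (R ⧸ m) := Ideal.Quotient.field m
  letI : Algebra ℚ (R ⧸ m) := ((algebraMap R (R ⧸ m)).comp (algebraMap ℚ R)).toAlgebra
  haveI : CharZero (R ⧸ m) := algebraRat.charZero _
  haveI := az_baseChange R (R ⧸ m) A
  haveI := az_simple (R ⧸ m) ((R ⧸ m) ⊗[R] A)
  set M : Matrix (Fin N) (Fin N) R := Matrix.of fun i j =>
      LinearMap.trace R A (LinearMap.mulLeft R (b i * b j)) with hM
  have hdet : (M.map (algebraMap R (R ⧸ m))).det = 0 := by
    rw [← RingHom.mapMatrix_apply, ← RingHom.map_det]
    exact Ideal.Quotient.eq_zero_iff_mem.2 hmem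
  obtain ⟨v, hv, hMv⟩ := Matrix.exists_mulVec_eq_zero_iff.mpr hdet
  have hent : ∀ i j, (algebraMap R (R ⧸ m)) (M i j) =
      LinearMap.trace (R ⧸ m) ((R ⧸ m) ⊗[R] A)
        (LinearMap.mulLeft (R ⧸ m) ((1 ⊗ₜ[R] b i) * (1 ⊗ₜ[R] b j))) := by
    intro i j
    have h1 : LinearMap.mulLeft (R ⧸ m) (((1 : R ⧸ m) ⊗ₜ[R] b i) * (1 ⊗ₜ[R] b j)) =
        (LinearMap.mulLeft R (b i * b j)).baseChange (R ⧸ m) := by
      rw [Algebra.TensorProduct.tmul_mul_tmul, mul_one]
      apply TensorProduct.AlgebraTensorModule.ext
      intro c a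
      simp [mul_assoc]
    rw [h1, LinearMap.trace_baseChange]
    rfl
  set x : (R ⧸ m) ⊗[R] A := ∑ j, v j • (1 ⊗ₜ[R] b j) with hx
  have hx0 : x = 0 := by
    apply trace_nondeg (R ⧸ m)
    intro y
    induction y using TensorProduct.induction_on with
    | zero => simp
    | add y z hy hz =>
      have : LinearMap.mulLeft (R ⧸ m) ((y + z) * x) =
          LinearMap.mulLeft (R ⧸ m) (y * x) + LinearMap.mulLeft (R ⧸ m) (z * x) := by
        apply LinearMap.ext
        intro w
        simp only [LinearMap.mulLeft_apply, LinearMap.add_apply, add_mul]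
      rw [this, map_add, hy, hz, add_zero]
    | tmul c a =>
      -- write a in the basis
      have ha : c ⊗ₜ[R] a = ∑ i, (c * algebraMap R (R ⧸ m) (b.repr a i)) •
          ((1 : R ⧸ m) ⊗ₜ[R] b i) := by
        conv_lhs => rw [← b.sum_repr a]
        rw [TensorProduct.tmul_sum]
        refine Finset.sum_congr rfl fun i _ => ?_
        rw [TensorProduct.smul_tmul', smul_eq_mul, mul_one, TensorProduct.tmul_smul,
          TensorProduct.smul_tmul', Algebra.smul_def, mul_comm]
      have key : ∀ i, LinearMap.trace (R ⧸ m) ((R ⧸ m) ⊗[R] A)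
          (LinearMap.mulLeft (R ⧸ m) (((1 : R ⧸ m) ⊗ₜ[R] b i) * x)) = 0 := by
        intro i
        have h1 : LinearMap.mulLeft (R ⧸ m) (((1 : R ⧸ m) ⊗ₜ[R] b i) * x) =
            ∑ j, v j • LinearMap.mulLeft (R ⧸ m)
              (((1 : R ⧸ m) ⊗ₜ[R] b i) * ((1 : R ⧸ m) ⊗ₜ[R] b j)) := by
          apply LinearMap.ext
          intro z
          rw [LinearMap.sum_apply]
          simp only [LinearMap.mulLeft_apply, LinearMap.smul_apply]
          rw [hx, Finset.mul_sum, Finset.sum_mul]
          refine Finset.sum_congr rfl fun j _ => ?_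
          rw [mul_smul_comm, smul_mul_assoc]
        rw [h1, map_sum]
        have h2 := congrFun hMv i
        simp only [Matrix.mulVec, dotProduct, Matrix.map_apply, Pi.zero_apply] at h2
        rw [← h2]
        refine Finset.sum_congr rfl fun j _ => ?_
        rw [map_smul, smul_eq_mul, hent i j, mul_comm]
      have h3 : LinearMap.mulLeft (R ⧸ m) (c ⊗ₜ[R] a * x) =
          ∑ i, (c * algebraMap R (R ⧸ m) (b.repr a i)) •
            LinearMap.mulLeft (R ⧸ m) (((1 : R ⧸ m) ⊗ₜ[R] b i) * x) := by
        apply LinearMap.ext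
        intro z
        rw [LinearMap.sum_apply]
        simp only [LinearMap.mulLeft_apply, LinearMap.smul_apply]
        rw [ha, Finset.sum_mul, Finset.sum_mul]
        refine Finset.sum_congr rfl fun i _ => ?_
        rw [smul_mul_assoc, smul_mul_assoc]
      rw [h3, map_sum]
      refine Finset.sum_eq_zero fun i _ => ?_
      rw [map_smul, key i, smul_zero]
  -- linear independence
  apply hv
  have hli := (b.baseChange (R ⧸ m)).linearIndependent
  rw [Fintype.linearIndependent_iff] at hli
  funext i
  refine hli v ?_ i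
  rw [← hx0, hx]
  refine Finset.sum_congr rfl fun j _ => ?_
  rw [Module.Basis.baseChange_apply]

end Pool.Agent.Helper8.BR
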