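import Pool.Agent.Helper8.BR.RR
import Pool.Agent.Helper8.BR.TraceForm

set_option autoImplicit false

/-! BR-18 -/

open Module
open scoped TensorProduct Polynomial

namespace Pool.Agent.Helper8.BR

/-- the determinant of the trace form in a basis -/
private noncomputable def secDisc {K D : Type} [Field K] [Ring D] [Algebra K D] {N : ℕ}
    (b : Basis (Fin N) K D) : K :=
  Matrix.det (Matrix.of fun i j => LinearMap.trace K D (LinearMap.mulLeft K (b i * b j)))

private theorem secTrace_add {K D : Type} [Field K] [Ring D] [Algebra K D] :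
    ∃ t : D →ₗ[K] K, ∀ x, t x = LinearMap.trace K D (LinearMap.mulLeft K x) := by
  refine ⟨(LinearMap.trace K D).comp (LinearMap.mul K D), fun x => rfl⟩

private theorem secDisc_change {K D : Type} [Field K] [Ring D] [Algebra K D] {N : ℕ}
    (b c : Basis (Fin N) K D) : secDisc c = (b.toMatrix c).det ^ 2 * secDisc b := by
  obtain ⟨t, ht⟩ := secTrace_add (K := K) (D := D)
  have h1 : (Matrix.of fun i j => LinearMap.trace K D (LinearMap.mulLeft K (c i * c j))) =
      (b.toMatrix c).transpose * (Matrix.of fun i j =>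
        LinearMap.trace K D (LinearMap.mulLeft K (b i * b j))) * b.toMatrix c := by
    ext i j
    rw [Matrix.mul_apply]
    simp only [Matrix.of_apply, Matrix.mul_apply, Matrix.transpose_apply, ← ht]
    conv_lhs => rw [← b.sum_toMatrix_smul_self c i, ← b.sum_toMatrix_smul_self c j]
    rw [Finset.sum_mul_sum, map_sum]
    simp only [map_sum, Finset.sum_mul]
    rw [Finset.sum_comm]
    refine Finset.sum_congr rfl fun k _ => Finset.sum_congr rfl fun l _ => ?_
    rw [smul_mul_smul_comm, map_smul, smul_eq_mul]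
    ring
  rw [secDisc, h1, Matrix.det_mul, Matrix.det_mul, Matrix.det_transpose, secDisc]
  ring

private theorem secDisc_ne {K D : Type} [Field K] [CharZero K] [DivisionRing D] [Algebra K D]
    [FiniteDimensional K D] {N : ℕ} (b : Basis (Fin N) K D) : secDisc b ≠ 0 := by
  obtain ⟨t, ht⟩ := secTrace_add (K := K) (D := D)
  intro h
  rw [secDisc, ← Matrix.exists_mulVec_eq_zero_iff] at h
  obtain ⟨v, hv, hv0⟩ := h
  set x : D := ∑ j, v j • b j with hx
  have hx0 : x ≠ 0 := by
    intro h1
    apply hv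
    have := (Fintype.linearIndependent_iff.mp b.linearIndependent) v h1
    funext i
    exact this i
  have h2 : ∀ y : D, t (y * x) = 0 := by
    intro y
    have h3 : ∀ i, t (b i * x) = 0 := by
      intro i
      have h4 := congrFun hv0 i
      rw [Matrix.mulVec, dotProduct] at h4
      simp only [Matrix.of_apply, ← ht] at h4
      rw [hx, Finset.mul_sum, map_sum]
      refine Eq.trans ?_ h4
      refine Finset.sum_congr rfl fun j _ => ?_
      rw [mul_smul_comm, map_smul, smul_eq_mul, mul_comm]
    rw [← b.sum_repr y, Finset.sum_mul, map_sum]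
    refine Finset.sum_eq_zero fun i _ => ?_
    rw [smul_mul_assoc, map_smul, h3, smul_zero]
  have h5 := h2 x⁻¹
  rw [inv_mul_cancel₀ hx0, ht] at h5
  have h6 : LinearMap.mulLeft K (1 : D) = LinearMap.id := by
    ext y
    simp
  rw [h6, LinearMap.trace_id] at h5
  have h7 : finrank K D ≠ 0 := (Module.finrank_pos).ne'
  exact h7 (by exact_mod_cast h5)

/-- the subalgebra of the elements whose coordinates lie in `A` -/
private def secCoord {E K D : Type} [Field E] [Field K] [Algebra E K] [Ring D] [Algebra K D]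
    [Algebra E D] [IsScalarTower E K D] {N : ℕ} (b : Basis (Fin N) K D) (A : Subalgebra E K)
    (h1 : ∀ i, b.repr 1 i ∈ A) (hm : ∀ i j k, b.repr (b i * b j) k ∈ A) : Subalgebra E D where
  carrier := {d | ∀ i, b.repr d i ∈ A}
  mul_mem' := by
    intro x y hx hy k
    rw [← b.sum_repr x, ← b.sum_repr y, Finset.sum_mul_sum, map_sum, Finsupp.finsetSum_apply]
    refine A.sum_mem fun i _ => ?_
    rw [map_sum, Finsupp.finsetSum_apply]
    refine A.sum_mem fun j _ => ?_
    rw [smul_mul_smul_comm, map_smul, Finsupp.smul_apply, smul_eq_mul]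
    exact A.mul_mem (A.mul_mem (hx i) (hy j)) (hm i j k)
  add_mem' := by
    intro x y hx hy k
    rw [map_add, Finsupp.add_apply]
    exact A.add_mem (hx k) (hy k)
  algebraMap_mem' := by
    intro r k
    rw [Algebra.algebraMap_eq_smul_one, ← algebraMap_smul K r (1 : D), map_smul,
      Finsupp.smul_apply, smul_eq_mul]
    exact A.mul_mem (A.algebraMap_mem r) (h1 k)

private theorem secCoord_charpoly {E K D : Type} [Field E] [Field K] [Algebra E K] [Ring D]
    [Algebra K D] [Algebra E D] [IsScalarTower E K D] [FiniteDimensional K D] {N : ℕ}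
    (b : Basis (Fin N) K D) (A : Subalgebra E K)
    (hm : ∀ i j k, b.repr (b i * b j) k ∈ A) (x : D)
    (hx : ∀ i, b.repr x i ∈ A) (k : ℕ) : (LinearMap.mulLeft K x).charpoly.coeff k ∈ A := by
  have h1 : ∀ i j, LinearMap.toMatrix b b (LinearMap.mulLeft K x) i j ∈ A := by
    intro i j
    rw [LinearMap.toMatrix_apply, LinearMap.mulLeft_apply, ← b.sum_repr x, Finset.sum_mul,
      map_sum, Finsupp.finsetSum_apply]
    refine A.sum_mem fun l _ => ?_
    rw [smul_mul_assoc, map_smul, Finsupp.smul_apply, smul_eq_mul]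
    exact A.mul_mem (hx l) (hm l j i)
  set M : Matrix (Fin N) (Fin N) A := Matrix.of fun i j => ⟨_, h1 i j⟩ with hM
  have h2 : M.map (algebraMap A K) = LinearMap.toMatrix b b (LinearMap.mulLeft K x) := by
    ext i j
    rfl
  rw [← LinearMap.charpoly_toMatrix _ b, ← h2, Matrix.charpoly_map, Polynomial.coeff_map]
  exact (M.charpoly.coeff k).2

/-- what an Azumaya algebra over a local ring of the curve gives -/
private theorem secLocal {E K D : Type} [Field E] [CharZero E] [Field K] [Algebra E K]
    [DivisionRing D] [Algebra K D] [FiniteDimensional K D] {N : ℕ} (b : Basis (Fin N) K D)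
    (R : Subalgebra E K) (B : Az R) (e : K ⊗[R] B ≃ₐ[K] D) :
    ∃ g : Matrix (Fin N) (Fin N) K, g.det ≠ 0 ∧ g.det ^ 2 * secDisc b ∈ R ∧
      (g.det ^ 2 * secDisc b)⁻¹ ∈ R ∧
      (∀ x : Fin N → K, (∀ j, x j ∈ R) → ∃ y : B, ∀ i, b.repr (e (1 ⊗ₜ y)) i = g.mulVec x i) ∧
      (∀ y : B, ∀ k, (LinearMap.mulLeft K (e ((1 : K) ⊗ₜ[R] y))).charpoly.coeff k ∈ R) ∧
      (Function.Injective fun y : B => e ((1 : K) ⊗ₜ[R] y)) := by
  have hN : finrank R B = N := by
    have h1 : finrank K (K ⊗[R] B) = finrank R B := Module.finrank_baseChange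
    rw [← h1, e.toLinearEquiv.finrank_eq, finrank_eq_card_basis b, Fintype.card_fin]
  set c : Basis (Fin N) R B := Module.finBasisOfFinrankEq R B hN with hc
  set c' : Basis (Fin N) K D := (c.baseChange K).map e.toLinearEquiv with hc'
  have hc'i : ∀ i, c' i = e (1 ⊗ₜ c i) := by
    intro i
    rw [hc', Basis.map_apply, Basis.baseChange_apply]
    rfl
  have hconj : ∀ y : B, LinearMap.mulLeft K (e ((1 : K) ⊗ₜ[R] y)) =
      e.toLinearEquiv.conj ((LinearMap.mulLeft R y).baseChange K) := by
    intro y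
    refine LinearMap.ext fun z => ?_
    rw [LinearEquiv.conj_apply_apply]
    have h2 : ∀ w : K ⊗[R] B, (LinearMap.mulLeft R y).baseChange K w = (1 : K) ⊗ₜ[R] y * w := by
      intro w
      induction w with
      | zero => simp
      | tmul a w => simp
      | add w1 w2 h3 h4 => rw [map_add, h3, h4, mul_add]
    rw [h2]
    show e (1 ⊗ₜ y) * z = e (1 ⊗ₜ y * e.symm z)
    rw [map_mul, AlgEquiv.apply_symm_apply]
  let _ : Algebra ℚ R := ((algebraMap E R).comp (algebraMap ℚ E)).toAlgebra
  obtain ⟨u, hu⟩ := trace_unit R B c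
  have hdisc : secDisc c' = algebraMap R K (Matrix.det (Matrix.of fun i j =>
      LinearMap.trace R B (LinearMap.mulLeft R (c i * c j)))) := by
    rw [secDisc, RingHom.map_det]
    congr 1
    ext i j
    rw [RingHom.mapMatrix_apply, Matrix.map_apply, Matrix.of_apply, Matrix.of_apply,
      ← LinearMap.trace_baseChange, ← LinearMap.trace_conj' _ e.toLinearEquiv, ← hconj]
    congr 2
    rw [hc'i, hc'i, ← map_mul, Algebra.TensorProduct.tmul_mul_tmul, mul_one]
  refine ⟨b.toMatrix c', ?_, ?_, ?_, ?_, ?_, ?_⟩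
  · have := b.toMatrix_mul_toMatrix_flip c'
    intro h0
    have h1 := congrArg Matrix.det this
    rw [Matrix.det_mul, h0, zero_mul, Matrix.det_one] at h1
    exact zero_ne_one h1
  · rw [← secDisc_change, hdisc]
    exact (Subtype.prop _)
  · rw [← secDisc_change, hdisc, ← hu, ← map_units_inv]
    exact (Subtype.prop _)
  · intro x hx
    refine ⟨∑ j, (⟨x j, hx j⟩ : R) • c j, fun i => ?_⟩
    have h1 : e ((1 : K) ⊗ₜ[R] (∑ j, (⟨x j, hx j⟩ : R) • c j)) = ∑ j, x j • c' j := by
      rw [TensorProduct.tmul_sum, map_sum]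
      refine Finset.sum_congr rfl fun j _ => ?_
      rw [hc'i, TensorProduct.tmul_smul, TensorProduct.smul_tmul', ← map_smul e (x j),
        TensorProduct.smul_tmul']
      rfl
    rw [h1, map_sum, Finsupp.finsetSum_apply, Matrix.mulVec, dotProduct]
    refine Finset.sum_congr rfl fun j _ => ?_
    rw [map_smul, Finsupp.smul_apply, smul_eq_mul, mul_comm, Basis.toMatrix_apply]
  · intro y k
    rw [hconj, LinearEquiv.charpoly_conj, LinearMap.charpoly_baseChange, Polynomial.coeff_map]
    exact (Subtype.prop _)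
  · have h1 : Function.Injective
        (Algebra.TensorProduct.includeRight : B →ₐ[R] K ⊗[R] B) :=
      Algebra.TensorProduct.includeRight_injective Subtype.val_injective
    exact e.injective.comp h1

private theorem secDenom {E ι : Type} [Field E] [Fintype ι] (f : ι → RatFunc E) :
    ∃ h0 : E[X], h0 ≠ 0 ∧ ∀ h : E[X], h0 ∣ h → ∀ i, f i ∈ intAway E h := by
  classical
  refine ⟨∏ i, (f i).denom, Finset.prod_ne_zero_iff.mpr fun i _ => (f i).denom_ne_zero, ?_⟩
  intro h hh i
  obtain ⟨q, hq⟩ := (Finset.dvd_prod_of_mem (fun i => (f i).denom) (Finset.mem_univ i)).trans hh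
  refine ⟨(f i).num * q, 1, ?_⟩
  rw [pow_one, hq, map_mul, map_mul, ← mul_assoc]
  congr 1
  have h1 : algebraMap E[X] (RatFunc E) (f i).denom ≠ 0 := by
    intro h2
    exact (f i).denom_ne_zero ((map_eq_zero_iff _ (RatFunc.algebraMap_injective E)).mp h2)
  have h2 := RatFunc.num_div_denom (f i)
  rw [div_eq_iff h1] at h2
  exact h2.symm

private theorem secConst {E : Type} [Field E] (h : E[X]) (f : RatFunc E)
    (h1 : f ∈ locAt E h) (h2 : f ∈ intAway E h) (h3 : f ∈ locInf E) :
    ∃ c : E, algebraMap E (RatFunc E) c = f := by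
  obtain ⟨p, q, hq, hq0, hf⟩ := h1
  obtain ⟨p', k, hf'⟩ := h2
  have hinj := RatFunc.algebraMap_injective E
  have h4 : p * h ^ k = p' * q := by
    apply hinj
    rw [map_mul, map_mul, map_pow, ← hf, ← hf']
    ring
  have h5 : q ∣ p := by
    refine (hq.pow_right (n := k)).dvd_of_dvd_mul_right ?_
    rw [h4]
    exact dvd_mul_left _ _
  obtain ⟨r, rfl⟩ := h5
  have h6 : f = algebraMap E[X] (RatFunc E) r := by
    have h7 : algebraMap E[X] (RatFunc E) q ≠ 0 := by
      intro h8
      exact hq0 ((map_eq_zero_iff _ (RatFunc.algebraMap_injective E)).mp h8)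
    apply mul_right_cancel₀ h7
    rw [hf, map_mul, mul_comm]
  rcases h3 with h3 | h3
  · exact ⟨0, by rw [map_zero, h3]⟩
  · rw [h6, RatFunc.intDegree_polynomial] at h3
    have h7 : r.natDegree = 0 := by exact_mod_cast le_antisymm h3 (by positivity)
    rw [Polynomial.eq_C_of_natDegree_eq_zero h7] at h6
    exact ⟨r.coeff 0, h6.symm⟩

private theorem secUnit {E D : Type} [Field E] [DivisionRing D] [Algebra E D]
    (H : Subalgebra E D) (x : H) (hx : x ≠ 0) (p : E[X]) (hp : p ≠ 0)
    (hpx : Polynomial.aeval (x : D) p = 0) : IsUnit x := by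
  have h1 : Polynomial.aeval x p = 0 := by
    apply Subtype.val_injective
    rw [← Subalgebra.coe_val, ← Polynomial.aeval_algHom_apply]
    simpa using hpx
  have h2 : IsIntegral E x := (isAlgebraic_iff_isIntegral).mp ⟨p, hp, h1⟩
  have h3 := minpoly.coeff_zero_ne_zero h2 hx
  set m := minpoly E x with hm
  have h4 : Polynomial.aeval x m = 0 := minpoly.aeval E x
  rw [← Polynomial.divX_mul_X_add m, map_add, map_mul, Polynomial.aeval_X,
    Polynomial.aeval_C] at h4
  have hc : Commute (Polynomial.aeval x m.divX) x := by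
    have : Commute (Polynomial.aeval x m.divX) (Polynomial.aeval x (Polynomial.X : E[X])) := by
      rw [Commute, SemiconjBy, ← map_mul, ← map_mul, mul_comm]
    rwa [Polynomial.aeval_X] at this
  have h5 : Polynomial.aeval x m.divX * x = algebraMap E H (-(m.coeff 0)) := by
    rw [map_neg]
    exact eq_neg_of_add_eq_zero_left h4
  have h6 : IsUnit (algebraMap E H (-(m.coeff 0))) :=
    (IsUnit.mk0 _ (neg_ne_zero.mpr h3)).map (algebraMap E H)
  rw [← h5] at h6
  exact (hc.isUnit_mul_iff.mp h6).2

private theorem secIota {E K D : Type} [Field E] [Field K] [Algebra E K] [Ring D] [Algebra K D]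
    [Algebra E D] [IsScalarTower E K D] (R : Subalgebra E K) (B : Type) [Ring B] [Algebra R B]
    [Algebra E B] [IsScalarTower E R B] (e : K ⊗[R] B ≃ₐ[K] D) :
    ∃ ι : B →ₐ[E] D, ∀ y, ι y = e (1 ⊗ₜ y) := by
  let f : B →+* D := (e : K ⊗[R] B →+* D).comp
    ((Algebra.TensorProduct.includeRight : B →ₐ[R] K ⊗[R] B) : B →+* K ⊗[R] B)
  refine ⟨{ f with commutes' := ?_ }, fun y => rfl⟩
  intro r
  show e ((Algebra.TensorProduct.includeRight : B →ₐ[R] K ⊗[R] B) (algebraMap E B r)) = _
  have h1 : ∀ s : R, (Algebra.TensorProduct.includeRight : B →ₐ[R] K ⊗[R] B)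
      (algebraMap R B s) = algebraMap K (K ⊗[R] B) (algebraMap R K s) := by
    intro s
    rw [Algebra.TensorProduct.includeRight_apply, Algebra.algebraMap_eq_smul_one,
      TensorProduct.tmul_smul, TensorProduct.smul_tmul', Algebra.TensorProduct.algebraMap_apply]
    congr 1
    rw [Algebra.smul_def, mul_one]
    rfl
  rw [IsScalarTower.algebraMap_apply E R B, h1, AlgEquiv.commutes,
    ← IsScalarTower.algebraMap_apply E R K, ← IsScalarTower.algebraMap_apply E K D]

/-- the global sections of an Azumaya algebra on the projective line whose generic fibre is a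
division algebra -/
theorem p1_sections (E D : Type) [Field E] [CharZero E] [DivisionRing D]
    [Algebra (RatFunc E) D] [FiniteDimensional (RatFunc E) D] :
    ∃ h0 : E[X], h0 ≠ 0 ∧ ∀ h : E[X], h0 ∣ h → h ≠ 0 → ∀ (B : Az (locAt E h))
      (B' : Az (locInf E)), Nonempty (RatFunc E ⊗[locAt E h] B ≃ₐ[RatFunc E] D) →
      Nonempty (RatFunc E ⊗[locInf E] B' ≃ₐ[RatFunc E] D) →
      ∃ (H : Type) (_ : Ring H) (_ : Algebra E H) (_ : Algebra E B) (_ : Algebra E B')
        (_ : IsScalarTower E (locAt E h) B) (_ : IsScalarTower E (locInf E) B')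
        (_ : H →ₐ[E] B) (_ : H →ₐ[E] B') (v : Fin (finrank (RatFunc E) D) → H),
        LinearIndependent E v ∧ ∀ x : H, x ≠ 0 → IsUnit x := by
  classical
  have hch : CharZero (RatFunc E) := charZero_of_injective_algebraMap
    (algebraMap E (RatFunc E)).injective
  set b := Module.finBasis (RatFunc E) D with hb
  obtain ⟨h1, hh1, H1⟩ := secDenom (fun p : Fin (finrank (RatFunc E) D) ×
    Fin (finrank (RatFunc E) D) × Fin (finrank (RatFunc E) D) => b.repr (b p.1 * b p.2.1) p.2.2)
  obtain ⟨h2, hh2, H2⟩ := secDenom (fun p : Fin (finrank (RatFunc E) D) => b.repr 1 p)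
  obtain ⟨h3, hh3, H3⟩ := secDenom (fun p : Bool => if p then secDisc b else (secDisc b)⁻¹)
  refine ⟨h1 * (h2 * h3), mul_ne_zero hh1 (mul_ne_zero hh2 hh3), ?_⟩
  intro h hdvd hh B B' ⟨e⟩ ⟨e'⟩
  have K1 := H1 h (dvd_of_mul_right_dvd hdvd)
  have K2 := H2 h (dvd_of_mul_right_dvd (dvd_of_mul_left_dvd hdvd))
  have K3 := H3 h (dvd_of_mul_left_dvd (dvd_of_mul_left_dvd hdvd))
  let _ : Algebra E D := Algebra.compHom D (algebraMap E (RatFunc E))
  have : IsScalarTower E (RatFunc E) D := IsScalarTower.of_algebraMap_eq fun _ => rfl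
  let _ : Algebra E B := Algebra.compHom B (algebraMap E (locAt E h))
  have : IsScalarTower E (locAt E h) B := IsScalarTower.of_algebraMap_eq fun _ => rfl
  let _ : Algebra E B' := Algebra.compHom B' (algebraMap E (locInf E))
  have : IsScalarTower E (locInf E) B' := IsScalarTower.of_algebraMap_eq fun _ => rfl
  obtain ⟨g, hg0, hg1, hg2, hg3, hg4, hg5⟩ := secLocal b (locAt E h) B e
  obtain ⟨g', hg0', hg1', hg2', hg3', hg4', hg5'⟩ := secLocal b (locInf E) B' e'
  obtain ⟨v, hv, hv2⟩ := rr E h hh _ g g' (secDisc b) (secDisc_ne b)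
    (by simpa using K3 true) (by simpa using K3 false) hg1 hg2 hg0 hg1' hg2' hg0'
  obtain ⟨ι, hι⟩ := secIota (E := E) (locAt E h) B e
  obtain ⟨ι', hι'⟩ := secIota (E := E) (locInf E) B' e'
  have hιi : Function.Injective ι := by
    have : (ι : B → D) = fun y => e (1 ⊗ₜ y) := funext hι
    rw [this]; exact hg5
  have hιi' : Function.Injective ι' := by
    have : (ι' : B' → D) = fun y => e' (1 ⊗ₜ y) := funext hι'
    rw [this]; exact hg5'
  set C := secCoord (E := E) b (intAway E h) K2 (fun i j k => K1 (i, j, k)) with hC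
  set H : Subalgebra E D := ι.range ⊓ (ι'.range ⊓ C) with hH
  have hHι : H ≤ ι.range := inf_le_left
  have hHι' : H ≤ ι'.range := inf_le_right.trans inf_le_left
  have hHC : H ≤ C := inf_le_right.trans inf_le_right
  have hvH : ∀ i, (∑ j, v i j • b j) ∈ H := by
    intro i
    obtain ⟨ha, ⟨x, hx, hgx⟩, ⟨x', hx', hgx'⟩⟩ := hv2 i
    have hrepr : ∀ j, b.repr (∑ j, v i j • b j) j = v i j := fun j => by
      rw [b.repr_sum_self]
    refine ⟨?_, ?_, ?_⟩
    · obtain ⟨y, hy⟩ := hg3 x hx
      refine ⟨y, ?_⟩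
      show ι y = _
      rw [hι]
      apply b.repr.injective
      ext j
      rw [hy j, hgx, hrepr]
    · obtain ⟨y, hy⟩ := hg3' x' hx'
      refine ⟨y, ?_⟩
      show ι' y = _
      rw [hι']
      apply b.repr.injective
      ext j
      rw [hy j, hgx', hrepr]
    · intro j
      rw [hrepr]
      exact ha j
  refine ⟨H, inferInstance, inferInstance, inferInstance, inferInstance, inferInstance,
    inferInstance, ((AlgEquiv.ofInjective ι hιi).symm : ι.range →ₐ[E] B).comp
      (Subalgebra.inclusion hHι), ((AlgEquiv.ofInjective ι' hιi').symm : ι'.range →ₐ[E] B').comp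
      (Subalgebra.inclusion hHι'), fun i => ⟨_, hvH i⟩, ?_, ?_⟩
  · rw [Fintype.linearIndependent_iff] at hv ⊢
    intro c hc
    apply hv c
    have h5 := congrArg (H.val : H → D) hc
    rw [map_sum, map_zero] at h5
    simp only [map_smul, Subalgebra.coe_val] at h5
    have h6 : ∑ j, (∑ i, c i • v i) j • b j = 0 := by
      rw [← h5]
      simp only [Finset.sum_apply, Pi.smul_apply, Finset.sum_smul, Finset.smul_sum]
      rw [Finset.sum_comm]
      refine Finset.sum_congr rfl fun i _ => Finset.sum_congr rfl fun j _ => ?_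
      rw [smul_assoc]
    funext j
    exact (Fintype.linearIndependent_iff.mp b.linearIndependent) _ h6 j
  · intro x hx
    have h5 : ∀ k, ∃ c : E, algebraMap E (RatFunc E) c =
        (LinearMap.mulLeft (RatFunc E) (x : D)).charpoly.coeff k := by
      intro k
      obtain ⟨y, hy⟩ := hHι x.2
      obtain ⟨y', hy'⟩ := hHι' x.2
      refine secConst h _ ?_ ?_ ?_
      · have := hg4 y k
        rwa [← hι, show ι y = x from hy] at this
      · exact secCoord_charpoly (E := E) b (intAway E h) (fun i j k => K1 (i, j, k)) _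
          (hHC x.2) k
      · have := hg4' y' k
        rwa [← hι', show ι' y' = x from hy'] at this
    have h6 : (LinearMap.mulLeft (RatFunc E) (x : D)).charpoly ∈
        Polynomial.lifts (algebraMap E (RatFunc E)) := by
      rw [Polynomial.lifts_iff_coeff_lifts]
      intro k
      obtain ⟨c, hc⟩ := h5 k
      exact ⟨c, hc⟩
    obtain ⟨p, hp⟩ := (Polynomial.mem_lifts _).mp h6
    have hp0 : p ≠ 0 := by
      intro h7
      rw [h7, Polynomial.map_zero] at hp
      exact (LinearMap.charpoly_monic _).ne_zero hp.symm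
    refine secUnit H x hx p hp0 ?_
    rw [← Polynomial.aeval_map_algebraMap (RatFunc E), hp]
    have h8 := LinearMap.aeval_self_charpoly (LinearMap.mulLeft (RatFunc E) (x : D))
    have h9 : LinearMap.mulLeft (RatFunc E) (x : D) = Algebra.lmul (RatFunc E) D (x : D) := rfl
    have h10 := congrArg (fun φ : Module.End (RatFunc E) D => φ 1) h8
    simp only [LinearMap.zero_apply] at h10
    conv_lhs at h10 => rw [h9, Polynomial.aeval_algHom_apply]
    have h11 : Polynomial.aeval (x : D) (LinearMap.mulLeft (RatFunc E) (x : D)).charpoly * 1 = 0 :=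
      h10
    rwa [mul_one] at h11

end Pool.Agent.Helper8.BR
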