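import Pool.Agent.Helper8.BR.Quat
import Pool.Agent.Helper8.BR.Centralizer
import Pool.Agent.Helper8.BR.Fields

set_option autoImplicit false

/-! BR-11: classes split by a quadratic extension of a local ring -/

open scoped TensorProduct Quaternion

namespace Pool.Agent.Helper8.BR

section lemQ
variable {k C : Type} [Field k] [Ring C] [Algebra k C]

private def quadP (k : Type) {C : Type} [Field k] [Ring C] [Algebra k C] (J : C) :
    Submodule k C where
  carrier := {x | J * x = x * J}
  add_mem' := by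
    intro a b ha hb
    simp only [Set.mem_ofPred_eq] at *
    rw [mul_add, add_mul, ha, hb]
  zero_mem' := by simp
  smul_mem' := by
    intro c x hx
    simp only [Set.mem_ofPred_eq] at *
    rw [mul_smul_comm, smul_mul_assoc, hx]

private def quadN (k : Type) {C : Type} [Field k] [Ring C] [Algebra k C] (J : C) :
    Submodule k C where
  carrier := {x | J * x = -(x * J)}
  add_mem' := by
    intro a b ha hb
    simp only [Set.mem_ofPred_eq] at *
    rw [mul_add, add_mul, ha, hb, neg_add]
  zero_mem' := by simp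
  smul_mem' := by
    intro c x hx
    simp only [Set.mem_ofPred_eq] at *
    rw [mul_smul_comm, smul_mul_assoc, hx, smul_neg]

private lemma mem_quadP {J x : C} : x ∈ quadP k J ↔ J * x = x * J := Iff.rfl
private lemma mem_quadN {J x : C} : x ∈ quadN k J ↔ J * x = -(x * J) := Iff.rfl

private lemma quad_compl (h2 : (2 : k) ≠ 0) (J : C) (d : k) (hd : d ≠ 0)
    (hJ : J * J = algebraMap k C d) : IsCompl (quadP k J) (quadN k J) := by
  have hJJ : ∀ x : C, J * (J * x) = d • x := by
    intro x; rw [← mul_assoc, hJ, Algebra.smul_def]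
  have hJJ' : ∀ x : C, x * J * J = d • x := by
    intro x; rw [mul_assoc, hJ, ← Algebra.commutes, Algebra.smul_def]
  constructor
  · rw [Submodule.disjoint_def]
    intro x hx hx'
    rw [mem_quadP] at hx
    rw [mem_quadN] at hx'
    have h1 : (2 : k) • (J * x) = 0 := by
      rw [two_smul]
      nth_rewrite 2 [hx']
      rw [hx, add_neg_cancel]
    have h3 : J * x = 0 := (smul_eq_zero.mp h1).resolve_left h2
    have h4 : d • x = 0 := by rw [← hJJ, h3, mul_zero]
    exact (smul_eq_zero.mp h4).resolve_left hd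
  · rw [codisjoint_iff, eq_top_iff]
    intro x _
    rw [Submodule.mem_sup]
    refine ⟨(2 : k)⁻¹ • (x + d⁻¹ • (J * x * J)), ?_, (2 : k)⁻¹ • (x - d⁻¹ • (J * x * J)), ?_, ?_⟩
    · refine Submodule.smul_mem _ _ ?_
      rw [mem_quadP, mul_add, add_mul, mul_smul_comm, smul_mul_assoc, hJJ', mul_assoc, hJJ,
        smul_smul, smul_smul, inv_mul_cancel₀ hd, one_smul, one_smul, add_comm]
    · refine Submodule.smul_mem _ _ ?_
      rw [mem_quadN, mul_sub, sub_mul, mul_smul_comm, smul_mul_assoc, hJJ', mul_assoc, hJJ,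
        smul_smul, smul_smul, inv_mul_cancel₀ hd, one_smul, one_smul, neg_sub]
    · rw [← smul_add, add_add_sub_cancel, ← two_smul k, smul_smul, inv_mul_cancel₀ h2, one_smul]

private lemma quad_key [IsSimpleRing C] [Algebra.IsCentral k C] [FiniteDimensional k C]
    (h2 : (2 : k) ≠ 0) (h4 : Module.finrank k C = 4) (J : C) (d : k) (hd : d ≠ 0)
    (hJ : J * J = algebraMap k C d) (hJs : ∀ c : k, J ≠ algebraMap k C c) :
    ∃ (x : C) (a : k), a ≠ 0 ∧ J * x = -(x * J) ∧ x * x = algebraMap k C a ∧
      Submodule.span k (Set.range ![1, J, x, J * x]) = ⊤ := by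
  have hJJ : ∀ x : C, J * (J * x) = d • x := by
    intro x; rw [← mul_assoc, hJ, Algebra.smul_def]
  have hnt : Nontrivial C := inferInstance
  set P := quadP k J with hP
  set N := quadN k J with hN
  have hcompl : IsCompl P N := quad_compl h2 J d hd hJ
  have hPP : P * P ≤ P := by
    rw [Submodule.mul_le]
    intro m hm n hn
    rw [hP, mem_quadP] at *
    rw [← mul_assoc, hm, mul_assoc, hn, mul_assoc]
  have hPN : P * N ≤ N := by
    rw [Submodule.mul_le]
    intro m hm n hn
    rw [hP, mem_quadP] at hm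
    rw [hN, mem_quadN] at *
    rw [← mul_assoc, hm, mul_assoc, hn, mul_neg, mul_assoc]
  have hNP : N * P ≤ N := by
    rw [Submodule.mul_le]
    intro m hm n hn
    rw [hP, mem_quadP] at hn
    rw [hN, mem_quadN] at *
    rw [← mul_assoc, hm, neg_mul, mul_assoc, hn, mul_assoc]
  have hNN : N * N ≤ P := by
    rw [Submodule.mul_le]
    intro m hm n hn
    rw [hN, mem_quadN] at hm hn
    rw [hP, mem_quadP]
    rw [← mul_assoc, hm, neg_mul, mul_assoc, hn, mul_neg, neg_neg, mul_assoc]
  -- N is not zero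
  have hN0 : N ≠ ⊥ := by
    intro h0
    have hPtop : P = ⊤ := by
      have := hcompl.sup_eq_top
      rwa [h0, sup_bot_eq] at this
    have hcen : J ∈ Subalgebra.center k C := by
      rw [Subalgebra.mem_center_iff]
      intro x
      have : x ∈ P := by rw [hPtop]; trivial
      exact (mem_quadP.mp this).symm
    rw [Algebra.IsCentral.center_eq_bot, Algebra.mem_bot] at hcen
    obtain ⟨c, hc⟩ := hcen
    exact hJs c hc.symm
  obtain ⟨n₀, hn₀, hn₀0⟩ := Submodule.exists_mem_ne_zero_of_ne_bot hN0
  -- the graded ideal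
  have hT : N * N ⊔ N = ⊤ := by
    have hl : (⊤ : Submodule k C) * (N * N ⊔ N) ≤ N * N ⊔ N := by
      rw [← hcompl.sup_eq_top, Submodule.sup_mul, Submodule.mul_sup, Submodule.mul_sup]
      refine sup_le (sup_le ?_ ?_) (sup_le ?_ ?_)
      · rw [← mul_assoc]
        exact (mul_le_mul' hPN le_rfl).trans le_sup_left
      · exact hPN.trans le_sup_right
      · exact (mul_le_mul' le_rfl hNN).trans (hNP.trans le_sup_right)
      · exact le_sup_left
    have hr : (N * N ⊔ N) * (⊤ : Submodule k C) ≤ N * N ⊔ N := by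
      rw [← hcompl.sup_eq_top, Submodule.mul_sup, Submodule.sup_mul, Submodule.sup_mul]
      refine sup_le (sup_le ?_ ?_) (sup_le ?_ ?_)
      · rw [mul_assoc]
        exact (mul_le_mul' le_rfl hNP).trans le_sup_left
      · exact hNP.trans le_sup_right
      · exact (mul_le_mul' hNN le_rfl).trans (hPN.trans le_sup_right)
      · exact le_sup_left
    let I : TwoSidedIdeal C := TwoSidedIdeal.mk' ((N * N ⊔ N : Submodule k C) : Set C)
      (Submodule.zero_mem _) (fun h h' => Submodule.add_mem _ h h')
      (fun h => Submodule.neg_mem _ h)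
      (fun {x y} h => hl (Submodule.mul_mem_mul (Submodule.mem_top) h))
      (fun {x y} h => hr (Submodule.mul_mem_mul h Submodule.mem_top))
    have hI : I = ⊤ := by
      rcases IsSimpleRing.simple.eq_bot_or_eq_top I with h | h
      · exfalso
        apply hn₀0
        have : n₀ ∈ I := by
          rw [TwoSidedIdeal.mem_mk']
          exact (le_sup_right : N ≤ N * N ⊔ N) hn₀
        rw [h] at this
        simpa using this
      · exact h
    rw [eq_top_iff]
    intro x _
    have : x ∈ I := by rw [hI]; trivial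
    rw [TwoSidedIdeal.mem_mk'] at this
    exact this
  have hNNP : N * N = P := by
    refine le_antisymm hNN fun p hp => ?_
    have : p ∈ N * N ⊔ N := by rw [hT]; trivial
    obtain ⟨u, hu, v, hv, huv⟩ := Submodule.mem_sup.mp this
    have hvP : v ∈ P := by
      have : v = p - u := by rw [← huv]; abel
      rw [this]
      exact Submodule.sub_mem _ hp (hNN hu)
    have hv0 : v = 0 := by
      have := hcompl.inf_eq_bot
      have hm : v ∈ P ⊓ N := ⟨hvP, hv⟩
      rw [this] at hm
      simpa using hm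
    rw [← huv, hv0, add_zero]
    exact hu
  have hdim : Module.finrank k P + Module.finrank k N = 4 := by
    rw [← h4]
    exact Submodule.finrank_add_eq_of_isCompl hcompl
  -- 1, J independent in P
  have h1P : (1 : C) ∈ P := by rw [hP, mem_quadP]; simp
  have hJP : J ∈ P := by rw [hP, mem_quadP]
  have hind : LinearIndependent k ![(1 : C), J] := by
    rw [LinearIndependent.pair_iff]
    intro s t hst
    by_cases ht : t = 0
    · subst ht
      simp only [zero_smul, add_zero, smul_eq_zero, one_ne_zero, or_false] at hst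
      exact ⟨hst, rfl⟩
    · exfalso
      apply hJs (-(t⁻¹ * s))
      have h1 : t • J = -(s • (1 : C)) := by
        rw [eq_neg_iff_add_eq_zero, add_comm]; exact hst
      have h3 : J = t⁻¹ • (t • J) := by rw [smul_smul, inv_mul_cancel₀ ht, one_smul]
      rw [h3, h1, Algebra.algebraMap_eq_smul_one, smul_neg, neg_smul, smul_smul]
  have hspan_le : Submodule.span k (Set.range ![(1 : C), J]) ≤ P := by
    rw [Submodule.span_le]
    rintro _ ⟨i, rfl⟩
    fin_cases i
    · exact h1P
    · exact hJP
  have hfr2 : Module.finrank k (Submodule.span k (Set.range ![(1 : C), J])) = 2 := by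
    rw [finrank_span_eq_card hind]; simp
  have hP2 : 2 ≤ Module.finrank k P := by
    rw [← hfr2]
    exact Submodule.finrank_mono hspan_le
  -- N is spanned by two elements
  have hN2 : Module.finrank k N ≤ 2 := by omega
  obtain ⟨y, z, hyz⟩ : ∃ y z : C, N = Submodule.span k {y, z} := by
    obtain ⟨b⟩ : Nonempty (Module.Basis (Fin (Module.finrank k N)) k N) :=
      ⟨Module.finBasis k N⟩
    have hb : N = Submodule.span k (Set.range fun i => (b i : C)) := by
      have h1 := b.span_eq
      have h3 := congrArg (Submodule.map N.subtype) h1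
      rw [Submodule.map_span, Submodule.map_top, Submodule.range_subtype, ← Set.range_comp] at h3
      exact h3.symm
    let w : ℕ → C := fun i => if h : i < Module.finrank k N then (b ⟨i, h⟩ : C) else 0
    have hw : ∀ i, w i ∈ N := by
      intro i
      by_cases h : i < Module.finrank k N
      · simp only [w, dif_pos h]; exact (b ⟨i, h⟩).2
      · simp only [w, dif_neg h]; exact Submodule.zero_mem _
    refine ⟨w 0, w 1, le_antisymm ?_ ?_⟩
    · nth_rewrite 1 [hb]
      rw [Submodule.span_le]
      rintro _ ⟨⟨i, hi⟩, rfl⟩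
      apply Submodule.subset_span
      have : i = 0 ∨ i = 1 := by omega
      rcases this with rfl | rfl
      · left; simp only [w, dif_pos hi]
      · right; simp only [w, dif_pos hi, Set.mem_singleton_iff]
    · rw [Submodule.span_le]
      rintro _ (rfl | rfl)
      · exact hw 0
      · exact hw 1
  have hyN : y ∈ N := by rw [hyz]; exact Submodule.subset_span (by simp)
  have hzN : z ∈ N := by rw [hyz]; exact Submodule.subset_span (by simp)
  have hNN_span : N * N = Submodule.span k {y * y, y * z, z * y, z * z} := by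
    rw [hyz, Submodule.span_mul_span]
    congr 1
    ext t
    simp only [Set.mem_mul, Set.mem_insert_iff, Set.mem_singleton_iff]
    constructor
    · rintro ⟨a, (rfl | rfl), b, (rfl | rfl), rfl⟩ <;> simp
    · rintro (rfl | rfl | rfl | rfl)
      · exact ⟨y, Or.inl rfl, y, Or.inl rfl, rfl⟩
      · exact ⟨y, Or.inl rfl, z, Or.inr rfl, rfl⟩
      · exact ⟨z, Or.inr rfl, y, Or.inl rfl, rfl⟩
      · exact ⟨z, Or.inr rfl, z, Or.inr rfl, rfl⟩
  -- an element with nonzero square
  obtain ⟨x, hxN, hxx⟩ : ∃ x ∈ N, x * x ≠ 0 := by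
    by_contra hcon
    push Not at hcon
    have hyy := hcon y hyN
    have hzz := hcon z hzN
    have hs := hcon (y + z) (Submodule.add_mem _ hyN hzN)
    have hzy : z * y = -(y * z) := by
      have : (y + z) * (y + z) = y * y + y * z + z * y + z * z := by noncomm_ring
      rw [this, hyy, hzz] at hs
      rw [eq_neg_iff_add_eq_zero]
      simpa [add_comm] using hs
    have hle : N * N ≤ Submodule.span k {y * z} := by
      rw [hNN_span, Submodule.span_le]
      have hm : y * z ∈ Submodule.span k {y * z} := Submodule.mem_span_singleton_self _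
      rintro _ (rfl | rfl | rfl | rfl)
      · rw [hyy]; exact Submodule.zero_mem _
      · exact hm
      · rw [hzy]; exact Submodule.neg_mem _ hm
      · rw [hzz]; exact Submodule.zero_mem _
    have h1 : Module.finrank k P ≤ 1 := by
      rw [← hNNP]
      exact (Submodule.finrank_mono hle).trans (by simpa using finrank_span_le_card (R := k) ({_} : Set C))
    omega
  -- P has dimension 2
  have hP2' : Module.finrank k P = 2 := by
    by_contra hne
    have hN1 : Module.finrank k N ≤ 1 := by omega
    obtain ⟨v, hv⟩ := (finrank_le_one_iff (K := k) (V := N)).mp hN1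
    have hNle : N ≤ Submodule.span k {(v : C)} := by
      intro t ht
      obtain ⟨c, hc⟩ := hv ⟨t, ht⟩
      rw [Submodule.mem_span_singleton]
      exact ⟨c, by simpa using congrArg Subtype.val hc⟩
    have hle : N * N ≤ Submodule.span k {(v : C) * v} := by
      refine (mul_le_mul' hNle hNle).trans ?_
      rw [Submodule.span_mul_span, Set.singleton_mul_singleton]
    have h1 : Module.finrank k P ≤ 1 := by
      rw [← hNNP]
      exact (Submodule.finrank_mono hle).trans (by simpa using finrank_span_le_card (R := k) ({_} : Set C))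
    omega
  have hPspan : Submodule.span k (Set.range ![(1 : C), J]) = P :=
    Submodule.eq_of_le_of_finrank_eq hspan_le (by rw [hfr2, hP2'])
  have hPmem : ∀ p ∈ P, ∃ a b : k, p = algebraMap k C a + b • J := by
    intro p hp
    rw [← hPspan, Matrix.range_cons, Matrix.range_cons, Matrix.range_empty, Set.union_empty,
      Set.singleton_union, Submodule.mem_span_pair] at hp
    obtain ⟨a, b, hab⟩ := hp
    exact ⟨a, b, by rw [← hab, Algebra.algebraMap_eq_smul_one]⟩
  have hxJ : J * x = -(x * J) := mem_quadN.mp hxN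
  have hx0 : x ≠ 0 := by rintro rfl; simp at hxx
  obtain ⟨a, b, hab⟩ := hPmem (x * x) (hNN (Submodule.mul_mem_mul hxN hxN))
  have hb0 : b = 0 := by
    have h1 : x * (x * x) = (x * x) * x := by rw [mul_assoc]
    rw [hab, mul_add, add_mul, ← Algebra.commutes, mul_smul_comm, smul_mul_assoc, hxJ,
      smul_neg] at h1
    have h3 : b • (x * J) = -(b • (x * J)) := add_left_cancel h1
    have h5 : (2 : k) • (b • (x * J)) = 0 := by
      rw [two_smul]; nth_rewrite 2 [h3]; rw [add_neg_cancel]
    have h6 : b • (x * J) = 0 := (smul_eq_zero.mp h5).resolve_left h2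
    rcases smul_eq_zero.mp h6 with h | h
    · exact h
    · exfalso
      apply hx0
      have : J * x = 0 := by rw [hxJ, h, neg_zero]
      have h7 : d • x = 0 := by rw [← hJJ, this, mul_zero]
      exact (smul_eq_zero.mp h7).resolve_left hd
  rw [hb0, zero_smul, add_zero] at hab
  have ha0 : a ≠ 0 := by
    rintro rfl
    rw [map_zero] at hab
    exact hxx hab
  refine ⟨x, a, ha0, hxJ, hab, ?_⟩
  rw [eq_top_iff]
  intro t _
  have m1 : (1 : C) ∈ Submodule.span k (Set.range ![1, J, x, J * x]) :=
    Submodule.subset_span ⟨0, rfl⟩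
  have m2 : J ∈ Submodule.span k (Set.range ![1, J, x, J * x]) :=
    Submodule.subset_span ⟨1, rfl⟩
  have m3 : x ∈ Submodule.span k (Set.range ![1, J, x, J * x]) :=
    Submodule.subset_span ⟨2, rfl⟩
  have m4 : J * x ∈ Submodule.span k (Set.range ![1, J, x, J * x]) :=
    Submodule.subset_span ⟨3, rfl⟩
  have ht : t ∈ P ⊔ N := by rw [hcompl.sup_eq_top]; trivial
  obtain ⟨p, hp, n, hn, hpn⟩ := Submodule.mem_sup.mp ht
  rw [← hpn]
  refine Submodule.add_mem _ ?_ ?_
  · obtain ⟨α, β, hαβ⟩ := hPmem p hp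
    rw [hαβ, Algebra.algebraMap_eq_smul_one]
    exact Submodule.add_mem _ (Submodule.smul_mem _ _ m1) (Submodule.smul_mem _ _ m2)
  · obtain ⟨α, β, hαβ⟩ := hPmem (n * x) (hNN (Submodule.mul_mem_mul hn hxN))
    have h1 : a • n = α • x + β • (J * x) := by
      have : n * x * x = a • n := by
        rw [mul_assoc, hab, ← Algebra.commutes, Algebra.smul_def]
      rw [← this, hαβ, add_mul, smul_mul_assoc, ← Algebra.smul_def]
    have h3 : n = a⁻¹ • (α • x + β • (J * x)) := by
      rw [← h1, smul_smul, inv_mul_cancel₀ ha0, one_smul]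
    rw [h3]
    exact Submodule.smul_mem _ _ (Submodule.add_mem _ (Submodule.smul_mem _ _ m3)
      (Submodule.smul_mem _ _ m4))

end lemQ

section localStep
variable {R C : Type} [CommRing R] [IsDomain R] [IsLocalRing R] [Algebra ℚ R]
  [Ring C] [Algebra R C] [Module.Free R C] [IsAzumaya R C]

private lemma quad_two_unit (R : Type) [CommRing R] [Algebra ℚ R] : IsUnit (2 : R) := by
  have h : IsUnit (algebraMap ℚ R 2) := (isUnit_iff_ne_zero.mpr two_ne_zero).map _
  rwa [map_ofNat] at h

private lemma quad_local (h4 : Module.finrank R C = 4) (J : C) (d : R) (hd : IsUnit d)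
    (hJ : J * J = algebraMap R C d) (ℓ : C →ₗ[R] R) (hℓJ : ℓ J = 1) (hℓ1 : ℓ 1 = 0) :
    ∃ u : R, IsUnit u ∧ Nonempty (ℍ[R, u, d] ≃ₐ[R] C) := by
  classical
  obtain ⟨e, he⟩ := hd.exists_left_inv
  obtain ⟨w, hw⟩ := (quad_two_unit R).exists_left_inv
  have hNT : Module.IsTorsionFree R C := inferInstance
  let k := IsLocalRing.ResidueField R
  let res : R →+* k := IsLocalRing.residue R
  have : IsAzumaya k (k ⊗[R] C) := az_baseChange R k C
  have : IsSimpleRing (k ⊗[R] C) := az_simple k (k ⊗[R] C)
  have h4k : Module.finrank k (k ⊗[R] C) = 4 := by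
    rw [Module.finrank_baseChange, h4]
  have h2k : (2 : k) ≠ 0 := by
    have : IsUnit (res 2) := (quad_two_unit R).map res
    have h3 := this.ne_zero
    rwa [map_ofNat] at h3
  have hdk : res d ≠ 0 := (hd.map res).ne_zero
  have hamap : ∀ r : R, (1 : k) ⊗ₜ[R] (algebraMap R C r) = algebraMap k (k ⊗[R] C) (res r) := by
    intro r
    rw [Algebra.TensorProduct.algebraMap_apply, Algebra.algebraMap_eq_smul_one,
      TensorProduct.tmul_smul, TensorProduct.smul_tmul', Algebra.algebraMap_self_apply]
    congr 1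
    rw [Algebra.smul_def, mul_one]
    rfl
  have hJk : ((1 : k) ⊗ₜ[R] J) * ((1 : k) ⊗ₜ[R] J) = algebraMap k (k ⊗[R] C) (res d) := by
    rw [Algebra.TensorProduct.tmul_mul_tmul, one_mul, hJ, hamap]
  have hJs : ∀ c : k, ((1 : k) ⊗ₜ[R] J) ≠ algebraMap k (k ⊗[R] C) c := by
    intro c hc
    let L : k ⊗[R] C →ₗ[k] k :=
      (TensorProduct.AlgebraTensorModule.rid R k k).toLinearMap ∘ₗ ℓ.baseChange k
    have h1 : L ((1 : k) ⊗ₜ[R] J) = 1 := by
      simp [L, hℓJ]
    have h3 : L (algebraMap k (k ⊗[R] C) c) = 0 := by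
      rw [Algebra.TensorProduct.algebraMap_apply]
      simp [L, hℓ1]
    rw [hc, h3] at h1
    exact zero_ne_one h1
  obtain ⟨xb, a, ha0, hxJ, hxx, hspan⟩ := quad_key h2k h4k ((1 : k) ⊗ₜ[R] J) (res d) hdk hJk hJs
  have hsurj : Function.Surjective (TensorProduct.mk R k C 1) :=
    TensorProduct.mk_surjective R C k Ideal.Quotient.mk_surjective
  obtain ⟨x₁, hx₁⟩ := hsurj xb
  rw [TensorProduct.mk_apply] at hx₁
  set x : C := w • (x₁ - e • (J * x₁ * J)) with hx
  have hJJl : ∀ y : C, J * (J * y) = d • y := by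
    intro y; rw [← mul_assoc, hJ, Algebra.smul_def]
  have hJJr : ∀ y : C, y * J * J = d • y := by
    intro y; rw [mul_assoc, hJ, ← Algebra.commutes, Algebra.smul_def]
  have hJx : J * x = -(x * J) := by
    rw [hx, mul_smul_comm, smul_mul_assoc, ← smul_neg]
    congr 1
    rw [mul_sub, sub_mul, mul_smul_comm, smul_mul_assoc, hJJr, mul_assoc, hJJl,
      smul_smul, smul_smul, he, one_smul, one_smul, neg_sub]
  have hcalc : (1 : k) ⊗ₜ[R] x = xb := by
    have h1 : (1 : k) ⊗ₜ[R] (J * x₁ * J) = -((1 : k) ⊗ₜ[R] (d • x₁)) := by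
      have : (1 : k) ⊗ₜ[R] (J * x₁ * J)
          = (((1 : k) ⊗ₜ[R] J) * ((1 : k) ⊗ₜ[R] x₁)) * ((1 : k) ⊗ₜ[R] J) := by
        simp
      rw [this, hx₁, hxJ, neg_mul, mul_assoc, hJk, ← Algebra.commutes, ← hamap d, ← hx₁]
      rw [Algebra.TensorProduct.tmul_mul_tmul, one_mul, Algebra.smul_def]
    rw [hx, TensorProduct.tmul_smul, TensorProduct.tmul_sub, TensorProduct.tmul_smul, h1,
      TensorProduct.tmul_smul, smul_neg, smul_smul, he, one_smul, sub_neg_eq_add, ← two_smul R,
      smul_smul, hw, one_smul, hx₁]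
  clear_value x
  -- spanning
  let v : Fin 4 → C := ![1, J, x, J * x]
  have hv : ∀ i, (1 : k) ⊗ₜ[R] v i = ![1, (1 : k) ⊗ₜ[R] J, xb, ((1 : k) ⊗ₜ[R] J) * xb] i := by
    intro i
    fin_cases i
    · rfl
    · rfl
    · exact hcalc
    · show (1 : k) ⊗ₜ[R] (J * x) = ((1 : k) ⊗ₜ[R] J) * xb
      rw [← hcalc, Algebra.TensorProduct.tmul_mul_tmul, one_mul]
  let B := basisOfTopLeSpanOfCardEqFinrank
    ![1, (1 : k) ⊗ₜ[R] J, xb, ((1 : k) ⊗ₜ[R] J) * xb] hspan.ge (by rw [h4k]; simp)
  have htop : Submodule.span R (Set.range v) = ⊤ := by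
    refine IsLocalRing.span_eq_top_of_tmul_eq_basis (R := R) v B fun i => ?_
    rw [hv i, coe_basisOfTopLeSpanOfCardEqFinrank]
  have hmem : ∀ y : C, ∃ α β γ δ : R, y = α • (1 : C) + β • J + γ • x + δ • (J * x) := by
    intro y
    have : y ∈ Submodule.span R (Set.range v) := by rw [htop]; trivial
    rw [Submodule.mem_span_range_iff_exists_fun] at this
    obtain ⟨c, hc⟩ := this
    refine ⟨c 0, c 1, c 2, c 3, ?_⟩
    rw [← hc, Fin.sum_univ_four]
    rfl
  have hcancel2 : ∀ y : C, y = -y → y = 0 := by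
    intro y hy
    have h1 : (2 : R) • y = 0 := by rw [two_smul]; nth_rewrite 2 [hy]; rw [add_neg_cancel]
    have : y = w • ((2 : R) • y) := by rw [smul_smul, hw, one_smul]
    rw [this, h1, smul_zero]
  have hcancelJ : ∀ y : C, J * y = 0 → y = 0 := by
    intro y hy
    have h1 : d • y = 0 := by rw [← hJJl, hy, mul_zero]
    have : y = e • (d • y) := by rw [smul_smul, he, one_smul]
    rw [this, h1, smul_zero]
  obtain ⟨α, β, γ, δ, hxx'⟩ := hmem (x * x)
  -- odd part of `x * x` vanishes
  have hodd : γ • x + δ • (J * x) = 0 := by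
    have h1 : J * (x * x) = (x * x) * J := by
      rw [← mul_assoc, hJx, neg_mul, mul_assoc, hJx, mul_neg, neg_neg, mul_assoc]
    rw [hxx'] at h1
    apply hcancelJ
    apply hcancel2
    have h3 : (γ • x + δ • (J * x)) * J = -(J * (γ • x + δ • (J * x))) := by
      rw [add_mul, mul_add, smul_mul_assoc, smul_mul_assoc, mul_smul_comm, mul_smul_comm,
        mul_assoc J x J]
      have : x * J = -(J * x) := by rw [hJx, neg_neg]
      rw [this, mul_neg, smul_neg, smul_neg, neg_add]
    have h5 : J * (α • (1 : C) + β • J) = (α • (1 : C) + β • J) * J := by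
      rw [mul_add, add_mul, mul_smul_comm, mul_smul_comm, smul_mul_assoc, smul_mul_assoc,
        mul_one, one_mul]
    rw [add_assoc, mul_add, add_mul, h5] at h1
    rw [← h3]
    exact add_left_cancel h1
  have hxx2 : x * x = α • (1 : C) + β • J := by
    rw [hxx', add_assoc, hodd, add_zero]
  have hx0 : x ≠ 0 := by
    intro h
    rw [h, TensorProduct.tmul_zero] at hcalc
    rw [← hcalc, mul_zero] at hxx
    have : algebraMap k (k ⊗[R] C) a ≠ 0 := by
      rw [map_ne_zero_iff _ (FaithfulSMul.algebraMap_injective k (k ⊗[R] C))]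
      exact ha0
    exact this hxx.symm
  have hβ : β = 0 := by
    have h1 : x * (x * x) = (x * x) * x := by rw [mul_assoc]
    rw [hxx2, mul_add, add_mul, mul_smul_comm, mul_smul_comm, smul_mul_assoc, smul_mul_assoc,
      mul_one, one_mul, hJx] at h1
    have h3 : β • (x * J) = -(β • (x * J)) := by
      have := add_left_cancel h1
      rwa [smul_neg] at this
    have h5 := hcancel2 _ h3
    have h6 : J * (β • x) = 0 := by
      rw [mul_smul_comm, hJx, smul_neg, h5, neg_zero]
    have h7 := hcancelJ _ h6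
    exact (smul_eq_zero.mp h7).resolve_right hx0
  have hxx3 : x * x = α • (1 : C) := by rw [hxx2, hβ, zero_smul, add_zero]
  have hα : IsUnit α := by
    have h1 : algebraMap k (k ⊗[R] C) (res α) = algebraMap k (k ⊗[R] C) a := by
      rw [← hxx, ← hamap, ← hcalc, Algebra.TensorProduct.tmul_mul_tmul, one_mul, hxx3,
        Algebra.algebraMap_eq_smul_one]
    have h3 : res α = a := FaithfulSMul.algebraMap_injective k (k ⊗[R] C) h1
    have h5 : res α ≠ 0 := by rw [h3]; exact ha0
    exact (IsLocalRing.residue_ne_zero_iff_isUnit α).mp h5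
  refine ⟨α, hα, ?_⟩
  let q : QuaternionAlgebra.Basis C α 0 d :=
    { i := x
      j := J
      k := x * J
      i_mul_i := by rw [hxx3, zero_smul, add_zero]
      j_mul_j := by rw [hJ, Algebra.algebraMap_eq_smul_one]
      i_mul_j := rfl
      j_mul_i := by rw [hJx, zero_smul, zero_sub] }
  have hqs : Function.Surjective q.liftHom := by
    intro y
    obtain ⟨a', b', c', d', hy⟩ := hmem y
    refine ⟨⟨a', c', b', -d'⟩, ?_⟩
    show q.lift _ = y
    rw [QuaternionAlgebra.Basis.lift, hy, Algebra.algebraMap_eq_smul_one]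
    show a' • (1 : C) + c' • x + b' • J + (-d') • (x * J) = _
    rw [hJx, smul_neg, neg_smul]
    abel
  have hfq : Module.finrank R ℍ[R, α, d] = 4 := by
    rw [QuaternionAlgebra.finrank_eq_four]
  have hqi : Function.Injective q.liftHom := by
    have hequiv : Nonempty (C ≃ₗ[R] ℍ[R, α, d]) :=
      ⟨LinearEquiv.ofFinrankEq C ℍ[R, α, d] (by rw [h4, hfq])⟩
    obtain ⟨E⟩ := hequiv
    have hs : Function.Surjective (E.toLinearMap ∘ₗ q.liftHom.toLinearMap) :=
      E.surjective.comp hqs
    have hi := OrzechProperty.injective_of_surjective_endomorphism _ hs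
    exact Function.Injective.of_comp (f := E) hi
  exact ⟨AlgEquiv.ofBijective q.liftHom ⟨hqi, hqs⟩⟩

end localStep

private def quadMatEnd (R S : Type) [CommRing R] [CommRing S] [Algebra R S] (m : ℕ) :
    Matrix (Fin m) (Fin m) S →ₐ[R] Module.End R (Fin m → S) where
  toFun M := (Matrix.mulVecLin M).restrictScalars R
  map_one' := by
    refine LinearMap.ext fun v => ?_
    simp
  map_mul' M N := by
    refine LinearMap.ext fun v => ?_
    simp
  map_zero' := by
    refine LinearMap.ext fun v => ?_
    simp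
  map_add' M N := by
    refine LinearMap.ext fun v => ?_
    simp
  commutes' r := by
    refine LinearMap.ext fun v => ?_
    rw [Algebra.algebraMap_eq_smul_one, Algebra.algebraMap_eq_smul_one]
    simp

private lemma quadMatEnd_apply (R S : Type) [CommRing R] [CommRing S] [Algebra R S] (m : ℕ)
    (M : Matrix (Fin m) (Fin m) S) (v : Fin m → S) : quadMatEnd R S m M v = M.mulVec v := rfl

theorem split_quadratic (R A : Type) [CommRing R] [IsDomain R] [IsPrincipalIdealRing R]
    [IsLocalRing R] [Algebra ℚ R] [Ring A] [Algebra R A] [Module.Free R A] [IsAzumaya R A]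
    (d : R) (hd : IsUnit d)
    (h : BrEq (QuadraticAlgebra R d 0) (QuadraticAlgebra R d 0 ⊗[R] A)
      (QuadraticAlgebra R d 0)) :
    ∃ u : R, IsUnit u ∧ BrEq R A ℍ[R, u, d] := by
  classical
  obtain ⟨n, m, hn, hm, ⟨e⟩⟩ := h
  have hnt : Nontrivial (QuadraticAlgebra R d 0) := inferInstance
  have hA'az : IsAzumaya R (Matrix (Fin n) (Fin n) A) := az_matrix R A n hn
  have hne : Nonempty (Fin (m * 2)) := ⟨⟨0, by omega⟩⟩
  let g : Matrix (Fin n) (Fin n) A →ₐ[R]
      Matrix (Fin m) (Fin m) (QuadraticAlgebra R d 0) :=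
    (e.restrictScalars R).toAlgHom.comp
      ((Algebra.TensorProduct.includeRight :
        A →ₐ[R] (QuadraticAlgebra R d 0) ⊗[R] A).mapMatrix)
  let f : Matrix (Fin n) (Fin n) A →ₐ[R] Module.End R (Fin m → QuadraticAlgebra R d 0) :=
    (quadMatEnd R (QuadraticAlgebra R d 0) m).comp g
  obtain ⟨e2, -⟩ := centralizer_equiv R (Matrix (Fin n) (Fin n) A)
    (Module.End R (Fin m → QuadraticAlgebra R d 0)) f
  let C := Subalgebra.centralizer R (Set.range f)
  -- the endomorphism ring
  have hfrV : Module.finrank R (Fin m → QuadraticAlgebra R d 0) = m * 2 := by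
    rw [Module.finrank_pi_fintype]
    simp [QuadraticAlgebra.finrank_eq_two]
  let bV : Module.Basis (Fin (m * 2)) R (Fin m → QuadraticAlgebra R d 0) :=
    Module.finBasisOfFinrankEq R _ hfrV
  let eE : Module.End R (Fin m → QuadraticAlgebra R d 0) ≃ₐ[R]
      Matrix (Fin (m * 2)) (Fin (m * 2)) R := LinearMap.toMatrixAlgEquiv bV
  have hMat : IsAzumaya R (Matrix (Fin (m * 2)) (Fin (m * 2)) R) := IsAzumaya.matrix R _
  have hEaz : IsAzumaya R (Module.End R (Fin m → QuadraticAlgebra R d 0)) :=
    IsAzumaya.of_AlgEquiv R _ _ eE.symm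
  have hACaz : IsAzumaya R (Matrix (Fin n) (Fin n) A ⊗[R] C) :=
    IsAzumaya.of_AlgEquiv R _ _ e2.symm
  have hCfin : Module.Finite R C :=
    Module.Finite.of_injective C.val.toLinearMap Subtype.val_injective
  have hCtf : Module.IsTorsionFree R C :=
    Function.Injective.moduleIsTorsionFree (C.val : C → _) Subtype.val_injective
      (fun r x => rfl)
  have hSub : Module.Free R (Subalgebra.toSubmodule C) := by
    obtain ⟨r, ⟨bC⟩⟩ := Submodule.nonempty_basis_of_pid
      (Module.Free.chooseBasis R (Module.End R (Fin m → QuadraticAlgebra R d 0)))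
      (Subalgebra.toSubmodule C)
    exact Module.Free.of_basis bC
  have hCfree : Module.Free R C := Module.Free.of_equiv (Subalgebra.toSubmoduleEquiv C)
  have hnm : Nonempty (Fin m) := ⟨⟨0, Nat.pos_of_ne_zero hm⟩⟩
  have hVnt : Nontrivial (Fin m → QuadraticAlgebra R d 0) := inferInstance
  have hEnt : Nontrivial (Module.End R (Fin m → QuadraticAlgebra R d 0)) := inferInstance
  have hCnt : Nontrivial C := C.val.toRingHom.domain_nontrivial
  have hCff : FaithfulSMul R C := inferInstance
  have hCaz : IsAzumaya R C := az_factor R (Matrix (Fin n) (Fin n) A) C hACaz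
  -- ranks
  have hfrA : Module.finrank R (Matrix (Fin n) (Fin n) A) = m * m := by
    have h1 := e.toLinearEquiv.finrank_eq
    rw [Module.finrank_matrix, Module.finrank_matrix, Module.finrank_baseChange,
      Module.finrank_self] at h1
    rw [Module.finrank_matrix]
    simpa using h1
  have hfrE : Module.finrank R (Module.End R (Fin m → QuadraticAlgebra R d 0))
      = (m * 2) * (m * 2) := by
    rw [eE.toLinearEquiv.finrank_eq, Module.finrank_matrix, Module.finrank_self]
    simp
  have h4 : Module.finrank R C = 4 := by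
    have h1 := e2.toLinearEquiv.finrank_eq
    rw [Module.finrank_tensorProduct, hfrA, hfrE] at h1
    have hmm : 0 < m * m := Nat.mul_pos (Nat.pos_of_ne_zero hm) (Nat.pos_of_ne_zero hm)
    have h3 : m * m * Module.finrank R C = m * m * 4 := by rw [h1]; ring
    exact Nat.eq_of_mul_eq_mul_left hmm h3
  -- the element `J`
  let ω : QuadraticAlgebra R d 0 := ⟨0, 1⟩
  have hωω : ω * ω = algebraMap R (QuadraticAlgebra R d 0) d := by
    ext <;> simp [ω]
  let J₀ : Module.End R (Fin m → QuadraticAlgebra R d 0) := Algebra.lsmul R R _ ω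
  have hJ₀ : ∀ v, J₀ v = ω • v := fun v => rfl
  have hJ₀mem : J₀ ∈ C := by
    rw [Subalgebra.mem_centralizer_iff]
    rintro _ ⟨a, rfl⟩
    refine LinearMap.ext fun v => ?_
    show f a (J₀ v) = J₀ (f a v)
    rw [hJ₀, hJ₀]
    show (g a).mulVec (ω • v) = ω • (g a).mulVec v
    rw [Matrix.mulVec_smul]
  let J : C := ⟨J₀, hJ₀mem⟩
  have hJJ : J * J = algebraMap R C d := by
    apply Subtype.ext
    refine LinearMap.ext fun v => ?_
    show ω • (ω • v) = d • v
    rw [smul_smul, hωω, algebraMap_smul]
  let i₀ : Fin m := ⟨0, Nat.pos_of_ne_zero hm⟩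
  let ℓ : C →ₗ[R] R :=
    { toFun := fun c => ((c : Module.End R (Fin m → QuadraticAlgebra R d 0))
        (Pi.single i₀ 1) i₀).im
      map_add' := by intro c c'; simp
      map_smul' := by intro r c; simp }
  have hℓJ : ℓ J = 1 := by
    show ((ω • (Pi.single i₀ 1 : Fin m → QuadraticAlgebra R d 0)) i₀).im = 1
    simp [ω]
  have hℓ1 : ℓ 1 = 0 := by
    show (((Pi.single i₀ 1 : Fin m → QuadraticAlgebra R d 0)) i₀).im = 0
    rw [Pi.single_eq_same]
    rfl
  obtain ⟨u, hu, ⟨q⟩⟩ := quad_local h4 J d hd hJJ ℓ hℓJ hℓ1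
  refine ⟨u, hu, ?_⟩
  have hqaz : IsAzumaya R ℍ[R, u, d] := IsAzumaya.of_AlgEquiv R C ℍ[R, u, d] q.symm
  have hb1 : BrEq R (Matrix (Fin n) (Fin n) A ⊗[R] ℍ[R, u, d]ᵐᵒᵖ) R := by
    have e3 : Matrix (Fin n) (Fin n) A ⊗[R] ℍ[R, u, d]ᵐᵒᵖ ≃ₐ[R]
        Matrix (Fin n) (Fin n) A ⊗[R] C :=
      Algebra.TensorProduct.congr AlgEquiv.refl
        ((QuaternionAlgebra.starAe (R := R)).symm.trans q)
    have e4 := (e3.trans e2).trans eE
    exact (BrEq.of_algEquiv e4).trans (BrEq.matrix R R (m * 2) (by omega))
  exact (BrEq.matrix R A n hn).symm.trans (BrEq.of_tensor_op hb1)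

end Pool.Agent.Helper8.BR
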