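import Pool.Agent.Helper8.BR.Defs

set_option autoImplicit false

/-! BR-12 -/

open scoped TensorProduct Quaternion

namespace Pool.Agent.Helper8.BR

section

variable {R : Type} [CommRing R] [IsDomain R] [IsPrincipalIdealRing R] [IsLocalRing R] {d : R}

/-- every element is an element of `R` times a pair one of whose entries is a unit -/
theorem quad_decomp (z : QuadraticAlgebra R d 0) :
    ∃ (g : R) (w : QuadraticAlgebra R d 0),
      z = algebraMap R (QuadraticAlgebra R d 0) g * w ∧ (IsUnit w.re ∨ IsUnit w.im) := by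
  obtain ⟨g, hg⟩ := (IsPrincipalIdealRing.principal (Ideal.span {z.re, z.im})).principal
  rw [Ideal.submodule_span_eq] at hg
  have h1 : z.re ∈ Ideal.span {g} := hg ▸ Ideal.subset_span (by simp)
  have h2 : z.im ∈ Ideal.span {g} := hg ▸ Ideal.subset_span (by simp)
  obtain ⟨x, hx⟩ := Ideal.mem_span_singleton.mp h1
  obtain ⟨y, hy⟩ := Ideal.mem_span_singleton.mp h2
  by_cases g0 : g = 0
  · refine ⟨0, 1, ?_, Or.inl ?_⟩
    · rw [map_zero, zero_mul]
      ext
      · rw [hx, g0, zero_mul]; rfl
      · rw [hy, g0, zero_mul]; rfl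
    · exact isUnit_one
  · have h3 : g ∈ Ideal.span {z.re, z.im} := by
      rw [hg]; exact Ideal.mem_span_singleton_self g
    obtain ⟨s, t, hst⟩ := Ideal.mem_span_pair.mp h3
    refine ⟨g, ⟨x, y⟩, ?_, ?_⟩
    · rw [QuadraticAlgebra.algebraMap_eq, QuadraticAlgebra.mk_mul_mk]
      ext
      · simp [hx]
      · simp [hy]
    · have h4 : g * (s * x + t * y) = g * 1 := by
        rw [mul_one]
        calc g * (s * x + t * y) = s * (g * x) + t * (g * y) := by ring
          _ = g := by rw [← hx, ← hy, hst]
      have h5 := mul_left_cancel₀ g0 h4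
      by_contra hcon
      push Not at hcon
      have hx' : x ∈ IsLocalRing.maximalIdeal R := by
        rw [IsLocalRing.mem_maximalIdeal]; exact hcon.1
      have hy' : y ∈ IsLocalRing.maximalIdeal R := by
        rw [IsLocalRing.mem_maximalIdeal]; exact hcon.2
      have : (1 : R) ∈ IsLocalRing.maximalIdeal R := by
        rw [← h5]
        exact Ideal.add_mem _ (Ideal.mul_mem_left _ _ hx') (Ideal.mul_mem_left _ _ hy')
      exact (IsLocalRing.maximalIdeal.isMaximal R).ne_top
        ((Ideal.eq_top_iff_one _).mpr this)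

omit [IsDomain R] [IsPrincipalIdealRing R] in
theorem quad_norm_unit (h : ∀ x : R, ¬ (x ^ 2 - d ∈ IsLocalRing.maximalIdeal R))
    (w : QuadraticAlgebra R d 0) (hw : IsUnit w.re ∨ IsUnit w.im) : IsUnit w := by
  rw [QuadraticAlgebra.isUnit_iff_norm_isUnit]
  by_contra hcon
  have hn : w.norm ∈ IsLocalRing.maximalIdeal R := by
    rw [IsLocalRing.mem_maximalIdeal]; exact hcon
  have hnorm : w.norm = w.re ^ 2 - d * w.im ^ 2 := by
    rw [QuadraticAlgebra.norm_def]; ring
  rw [hnorm] at hn
  by_cases hi : IsUnit w.im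
  · obtain ⟨u, hu⟩ := hi
    apply h (w.re * (u⁻¹ : Rˣ))
    have h6 : (w.re * (u⁻¹ : Rˣ)) ^ 2 - d = ((u⁻¹ : Rˣ) : R) ^ 2 * (w.re ^ 2 - d * w.im ^ 2) := by
      have h7 : ((u⁻¹ : Rˣ) : R) * w.im = 1 := by rw [← hu]; exact u.inv_mul
      linear_combination (-d * (((u⁻¹ : Rˣ) : R) * w.im + 1)) * h7 * (-1)
    rw [h6]
    exact Ideal.mul_mem_left _ _ hn
  · have hr : IsUnit w.re := hw.resolve_right hi
    have hi' : w.im ∈ IsLocalRing.maximalIdeal R := by
      rw [IsLocalRing.mem_maximalIdeal]; exact hi
    have h8 : w.re ^ 2 ∈ IsLocalRing.maximalIdeal R := by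
      have h9 : w.re ^ 2 = (w.re ^ 2 - d * w.im ^ 2) + (d * w.im) * w.im := by ring
      rw [h9]
      exact Ideal.add_mem _ hn (Ideal.mul_mem_left _ _ hi')
    rw [IsLocalRing.mem_maximalIdeal] at h8
    exact h8 (hr.pow 2)

end

/-- if `d` is not a square in the residue field of the local principal ideal domain `R` then
`R[√d]` is a local principal ideal domain -/
theorem quad_pid (R : Type) [CommRing R] [IsDomain R] [IsPrincipalIdealRing R]
    [IsLocalRing R] (d : R) (h2 : IsUnit (2 : R))
    (h : ∀ x : R, ¬ (x ^ 2 - d ∈ IsLocalRing.maximalIdeal R)) :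
    IsDomain (QuadraticAlgebra R d 0) ∧ IsPrincipalIdealRing (QuadraticAlgebra R d 0) ∧
      IsLocalRing (QuadraticAlgebra R d 0) := by
  have hdec : ∀ z : QuadraticAlgebra R d 0, ∃ (g : R) (w : QuadraticAlgebra R d 0),
      z = algebraMap R (QuadraticAlgebra R d 0) g * w ∧ IsUnit w := by
    intro z
    obtain ⟨g, w, hz, hw⟩ := quad_decomp z
    exact ⟨g, w, hz, quad_norm_unit h w hw⟩
  refine ⟨?_, ?_, ?_⟩
  · have hnz : NoZeroDivisors (QuadraticAlgebra R d 0) := by
      constructor
      intro a b hab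
      obtain ⟨g, w, ha, hw⟩ := hdec a
      obtain ⟨g', w', hb, hw'⟩ := hdec b
      have h1 : algebraMap R (QuadraticAlgebra R d 0) (g * g') * (w * w') = 0 := by
        rw [map_mul, ← hab, ha, hb]; ring
      have h2' : algebraMap R (QuadraticAlgebra R d 0) (g * g') = 0 := by
        have := (hw.mul hw').mul_left_eq_zero.mp h1
        exact this
      have h3 : g * g' = 0 := by
        apply QuadraticAlgebra.algebraMap_injective (a := d) (b := 0)
        rw [h2', map_zero]
      rcases mul_eq_zero.mp h3 with h4 | h4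
      · left; rw [ha, h4, map_zero, zero_mul]
      · right; rw [hb, h4, map_zero, zero_mul]
    have : Nontrivial (QuadraticAlgebra R d 0) := inferInstance
    exact NoZeroDivisors.to_isDomain _
  · refine ⟨fun I => ?_⟩
    obtain ⟨g0, hg0⟩ := (IsPrincipalIdealRing.principal
      (I.comap (algebraMap R (QuadraticAlgebra R d 0)))).principal
    rw [Ideal.submodule_span_eq] at hg0
    refine ⟨algebraMap R _ g0, ?_⟩
    rw [Ideal.submodule_span_eq]
    apply le_antisymm
    · intro z hz
      obtain ⟨g, w, hzw, hw⟩ := hdec z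
      have hg : g ∈ I.comap (algebraMap R (QuadraticAlgebra R d 0)) := by
        rw [Ideal.mem_comap]
        obtain ⟨u, hu⟩ := hw
        have : algebraMap R (QuadraticAlgebra R d 0) g = ((u⁻¹ : _ˣ) : QuadraticAlgebra R d 0) * z := by
          rw [hzw, ← hu, mul_left_comm, Units.inv_mul, mul_one]
        rw [this]
        exact Ideal.mul_mem_left _ _ hz
      rw [hg0, Ideal.mem_span_singleton] at hg
      rw [Ideal.mem_span_singleton, hzw]
      exact Dvd.dvd.mul_right (map_dvd _ hg) _
    · rw [Ideal.span_singleton_le_iff_mem]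
      have : g0 ∈ I.comap (algebraMap R (QuadraticAlgebra R d 0)) := by
        rw [hg0]; exact Ideal.mem_span_singleton_self g0
      exact this
  · have : Nontrivial (QuadraticAlgebra R d 0) := inferInstance
    have key : ∀ z : QuadraticAlgebra R d 0, ¬ IsUnit z ↔
        (z.re ∈ IsLocalRing.maximalIdeal R ∧ z.im ∈ IsLocalRing.maximalIdeal R) := by
      intro z
      rw [IsLocalRing.mem_maximalIdeal, IsLocalRing.mem_maximalIdeal]
      constructor
      · intro hz
        by_contra hcon
        rw [not_and_or] at hcon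
        apply hz
        apply quad_norm_unit h
        rcases hcon with hc | hc
        · left; simpa [mem_nonunits_iff] using hc
        · right; simpa [mem_nonunits_iff] using hc
      · rintro ⟨h5, h6⟩ hz
        rw [QuadraticAlgebra.isUnit_iff_norm_isUnit] at hz
        have h7 : z.norm ∈ IsLocalRing.maximalIdeal R := by
          have hnorm : z.norm = z.re * z.re + (-d * z.im) * z.im := by
            rw [QuadraticAlgebra.norm_def]; ring
          rw [hnorm]
          exact Ideal.add_mem _ (Ideal.mul_mem_left _ _ h5) (Ideal.mul_mem_left _ _ h6)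
        rw [IsLocalRing.mem_maximalIdeal] at h7
        exact h7 hz
    refine IsLocalRing.of_nonunits_add ?_
    intro a b ha hb
    rw [mem_nonunits_iff] at ha hb ⊢
    rw [key] at ha hb ⊢
    refine ⟨?_, ?_⟩
    · rw [QuadraticAlgebra.re_add]
      exact Ideal.add_mem _ ha.1 hb.1
    · rw [QuadraticAlgebra.im_add]
      exact Ideal.add_mem _ ha.2 hb.2

end Pool.Agent.Helper8.BR
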