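import Pool.Agent.Helper8.BR.Calc

set_option autoImplicit false

/-! BR-9: quaternion algebras are Azumaya, base change, norms split -/

open scoped TensorProduct Quaternion

namespace Pool.Agent.Helper8.BR

section az
variable {R : Type} [CommRing R] {a b : R}

/-- the projections on the lines spanned by `1, i, j, k`, as elements of `A ⊗ Aᵒᵖ` -/
def quatProj (a' b' q s t : R) : ℍ[R, a, b] ⊗[R] (ℍ[R, a, b])ᵐᵒᵖ :=
  q • ((1 : ℍ[R, a, b]) ⊗ₜ[R] MulOpposite.op (1 : ℍ[R, a, b])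
    + (s * a') • (((⟨0, 1, 0, 0⟩ : ℍ[R, a, b])) ⊗ₜ[R] MulOpposite.op (⟨0, 1, 0, 0⟩ : ℍ[R, a, b]))
    + (t * b') • (((⟨0, 0, 1, 0⟩ : ℍ[R, a, b])) ⊗ₜ[R] MulOpposite.op (⟨0, 0, 1, 0⟩ : ℍ[R, a, b]))
    - (s * t * a' * b') •
      (((⟨0, 0, 0, 1⟩ : ℍ[R, a, b])) ⊗ₜ[R] MulOpposite.op (⟨0, 0, 0, 1⟩ : ℍ[R, a, b])))

theorem quatProj_apply (a' b' q s t : R) (ha : a * a' = 1) (hb : b * b' = 1)
    (z : ℍ[R, a, b]) :
    AlgHom.mulLeftRight R ℍ[R, a, b] (quatProj a' b' q s t) z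
      = ⟨q * (1 + s + t + s * t) * z.re, q * (1 + s - t - s * t) * z.imI,
        q * (1 - s + t - s * t) * z.imJ, q * (1 - s - t + s * t) * z.imK⟩ := by
  simp only [quatProj, map_smul, map_add, map_sub, LinearMap.smul_apply, LinearMap.add_apply,
    LinearMap.sub_apply, AlgHom.mulLeftRight_apply, MulOpposite.unop_op, one_mul, mul_one]
  ext
  · simp
    linear_combination (q * z.re * s) * ha + (q * z.re * t) * hb
      + (q * z.re * s * t * b * b') * ha + (q * z.re * s * t) * hb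
  · simp
    linear_combination (q * z.imI * s) * ha - (q * z.imI * t) * hb
      - (q * z.imI * s * t * b * b') * ha - (q * z.imI * s * t) * hb
  · simp
    linear_combination -(q * z.imJ * s) * ha + (q * z.imJ * t) * hb
      - (q * z.imJ * s * t * b * b') * ha - (q * z.imJ * s * t) * hb
  · simp
    linear_combination -(q * z.imK * s) * ha - (q * z.imK * t) * hb
      + (q * z.imK * s * t * b * b') * ha + (q * z.imK * s * t) * hb

theorem quat_surj (a' b' q : R) (ha : a * a' = 1) (hb : b * b' = 1) (hq : q * 4 = 1) :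
    Function.Surjective (AlgHom.mulLeftRight R ℍ[R, a, b]) := by
  intro f
  refine ⟨((f ⟨1, 0, 0, 0⟩) ⊗ₜ[R] MulOpposite.op (1 : ℍ[R, a, b])) * quatProj a' b' q 1 1
    + ((f ⟨0, 1, 0, 0⟩ * (⟨0, a', 0, 0⟩ : ℍ[R, a, b])) ⊗ₜ[R] MulOpposite.op (1 : ℍ[R, a, b]))
        * quatProj a' b' q 1 (-1)
    + ((f ⟨0, 0, 1, 0⟩ * (⟨0, 0, b', 0⟩ : ℍ[R, a, b])) ⊗ₜ[R] MulOpposite.op (1 : ℍ[R, a, b]))
        * quatProj a' b' q (-1) 1
    + ((f ⟨0, 0, 0, 1⟩ * (⟨0, 0, 0, -(a' * b')⟩ : ℍ[R, a, b])) ⊗ₜ[R]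
        MulOpposite.op (1 : ℍ[R, a, b])) * quatProj a' b' q (-1) (-1), ?_⟩
  refine LinearMap.ext fun z => ?_
  simp only [map_add, map_mul, LinearMap.add_apply, Module.End.mul_apply,
    quatProj_apply a' b' q _ _ ha hb, AlgHom.mulLeftRight_apply, MulOpposite.unop_op, mul_one]
  have hz : z = z.re • (⟨1, 0, 0, 0⟩ : ℍ[R, a, b]) + z.imI • (⟨0, 1, 0, 0⟩ : ℍ[R, a, b])
      + z.imJ • (⟨0, 0, 1, 0⟩ : ℍ[R, a, b]) + z.imK • (⟨0, 0, 0, 1⟩ : ℍ[R, a, b]) := by
    ext <;> simp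
  have e1 : (⟨q * (1 + 1 + 1 + 1) * z.re, q * (1 + 1 - 1 - 1) * z.imI,
        q * (1 - 1 + 1 - 1) * z.imJ, q * (1 - 1 - 1 + 1) * z.imK⟩ : ℍ[R, a, b])
      = z.re • (1 : ℍ[R, a, b]) := by
    ext
    · simp
      linear_combination z.re * hq
    · simp
    · simp
    · simp
  have e2 : (⟨0, a', 0, 0⟩ : ℍ[R, a, b]) *
      (⟨q * (1 + 1 + -1 + 1 * -1) * z.re, q * (1 + 1 - -1 - 1 * -1) * z.imI,
        q * (1 - 1 + -1 - 1 * -1) * z.imJ, q * (1 - 1 - -1 + 1 * -1) * z.imK⟩ : ℍ[R, a, b])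
      = z.imI • (1 : ℍ[R, a, b]) := by
    ext
    · simp
      linear_combination (z.imI * a * a') * hq + z.imI * ha
    · simp
    · simp
    · simp
  have e3 : (⟨0, 0, b', 0⟩ : ℍ[R, a, b]) *
      (⟨q * (1 + -1 + 1 + -1) * z.re, q * (1 + -1 - 1 - -1) * z.imI,
        q * (1 - -1 + 1 - -1) * z.imJ, q * (1 - -1 - 1 + -1) * z.imK⟩ : ℍ[R, a, b])
      = z.imJ • (1 : ℍ[R, a, b]) := by
    ext
    · simp
      linear_combination (z.imJ * b * b') * hq + z.imJ * hb
    · simp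
    · simp
    · simp
  have e4 : (⟨0, 0, 0, -(a' * b')⟩ : ℍ[R, a, b]) *
      (⟨q * (1 + -1 + -1 + -1 * -1) * z.re, q * (1 + -1 - -1 - -1 * -1) * z.imI,
        q * (1 - -1 + -1 - -1 * -1) * z.imJ, q * (1 - -1 - -1 + -1 * -1) * z.imK⟩ : ℍ[R, a, b])
      = z.imK • (1 : ℍ[R, a, b]) := by
    ext
    · simp
      linear_combination (z.imK * a * a' * b * b') * hq + (z.imK * b * b') * ha + z.imK * hb
    · simp
    · simp
    · simp
  rw [mul_assoc (f ⟨0, 1, 0, 0⟩), mul_assoc (f ⟨0, 0, 1, 0⟩), mul_assoc (f ⟨0, 0, 0, 1⟩),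
    e1, e2, e3, e4]
  conv_rhs => rw [hz]
  simp only [map_add, map_smul, mul_smul_comm, mul_one]

end az

theorem quat_az (R : Type) [CommRing R] (a b : R) (ha : IsUnit a) (hb : IsUnit b)
    (h2 : IsUnit (2 : R)) : IsAzumaya R ℍ[R, a, b] := by
  obtain ⟨a', ha'⟩ := isUnit_iff_exists_inv.1 ha
  obtain ⟨b', hb'⟩ := isUnit_iff_exists_inv.1 hb
  obtain ⟨c, hc⟩ := isUnit_iff_exists_inv.1 h2
  have hq : (c * c) * 4 = 1 := by linear_combination (2 * c) * hc + hc
  have hsurj := quat_surj a' b' (c * c) ha' hb' hq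
  have hfaith : FaithfulSMul R ℍ[R, a, b] := by
    refine ⟨fun {r s} hrs => ?_⟩
    have := congrArg QuaternionAlgebra.re (hrs 1)
    simpa using this
  refine ⟨?_⟩
  rcases subsingleton_or_nontrivial R with hR | hR
  · have : Subsingleton (ℍ[R, a, b] ⊗[R] (ℍ[R, a, b])ᵐᵒᵖ) := Module.subsingleton R _
    exact ⟨fun x y _ => Subsingleton.elim x y, hsurj⟩
  · have hfin : Module.finrank R (Module.End R ℍ[R, a, b])
        = Module.finrank R (ℍ[R, a, b] ⊗[R] (ℍ[R, a, b])ᵐᵒᵖ) := by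
      rw [Module.finrank_linearMap, Module.finrank_tensorProduct,
        (MulOpposite.opLinearEquiv R (M := ℍ[R, a, b])).symm.finrank_eq]
    let e : Module.End R ℍ[R, a, b] ≃ₗ[R] (ℍ[R, a, b] ⊗[R] (ℍ[R, a, b])ᵐᵒᵖ) :=
      LinearEquiv.ofFinrankEq _ _ hfin
    have h1 : Function.Surjective
        ((AlgHom.mulLeftRight R ℍ[R, a, b]).toLinearMap.comp e.toLinearMap) :=
      hsurj.comp e.surjective
    have h3 := OrzechProperty.injective_of_surjective_endomorphism _ h1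
    refine ⟨fun x y hxy => ?_, hsurj⟩
    have h4 : e.symm x = e.symm y := by
      apply h3
      simpa using hxy
    exact e.symm.injective h4

theorem quat_baseChange (R S : Type) [CommRing R] [CommRing S] [Algebra R S] (a b : R) :
    Nonempty (S ⊗[R] ℍ[R, a, b] ≃ₐ[S] ℍ[S, algebraMap R S a, algebraMap R S b]) := by
  let B : QuaternionAlgebra.Basis ℍ[S, algebraMap R S a, algebraMap R S b] a (0 : R) b :=
    { i := ⟨0, 1, 0, 0⟩
      j := ⟨0, 0, 1, 0⟩
      k := ⟨0, 0, 0, 1⟩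
      i_mul_i := by ext <;> simp [Algebra.algebraMap_eq_smul_one]
      j_mul_j := by ext <;> simp [Algebra.algebraMap_eq_smul_one]
      i_mul_j := by ext <;> simp
      j_mul_i := by ext <;> simp }
  let f : ℍ[R, a, b] →ₐ[R] ℍ[S, algebraMap R S a, algebraMap R S b] := B.liftHom
  have hf : ∀ x : ℍ[R, a, b], f x = ⟨algebraMap R S x.re, algebraMap R S x.imI,
      algebraMap R S x.imJ, algebraMap R S x.imK⟩ := by
    intro x
    change B.lift x = _
    simp only [QuaternionAlgebra.Basis.lift]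
    ext <;> simp [B, Algebra.algebraMap_eq_smul_one]
  let φ : S ⊗[R] ℍ[R, a, b] →ₐ[S] ℍ[S, algebraMap R S a, algebraMap R S b] :=
    Algebra.TensorProduct.lift (Algebra.ofId S _) f (fun s x => Algebra.commutes _ _)
  have hφ : ∀ (s : S) (x : ℍ[R, a, b]), φ (s ⊗ₜ x) = s • f x := by
    intro s x
    simp [φ, Algebra.ofId_apply, Algebra.smul_def]
  let ψ : ℍ[S, algebraMap R S a, algebraMap R S b] → S ⊗[R] ℍ[R, a, b] := fun y =>
    y.re ⊗ₜ[R] (⟨1, 0, 0, 0⟩ : ℍ[R, a, b]) + y.imI ⊗ₜ[R] (⟨0, 1, 0, 0⟩ : ℍ[R, a, b])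
      + y.imJ ⊗ₜ[R] (⟨0, 0, 1, 0⟩ : ℍ[R, a, b]) + y.imK ⊗ₜ[R] (⟨0, 0, 0, 1⟩ : ℍ[R, a, b])
  have hψadd : ∀ x y, ψ (x + y) = ψ x + ψ y := by
    intro x y
    simp only [ψ, QuaternionAlgebra.re_add, QuaternionAlgebra.imI_add,
      QuaternionAlgebra.imJ_add, QuaternionAlgebra.imK_add, TensorProduct.add_tmul]
    abel
  refine ⟨AlgEquiv.ofBijective φ (Function.bijective_iff_has_inverse.2 ⟨ψ, ?_, ?_⟩)⟩
  · intro t
    induction t using TensorProduct.induction_on with
    | zero =>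
      rw [map_zero]
      simp [ψ]
    | add x y hx hy => rw [map_add, hψadd, hx, hy]
    | tmul s x =>
      rw [hφ, hf]
      simp only [ψ, QuaternionAlgebra.re_smul, QuaternionAlgebra.imI_smul,
        QuaternionAlgebra.imJ_smul, QuaternionAlgebra.imK_smul, smul_eq_mul]
      have hr : ∀ (r : R) (y : ℍ[R, a, b]), (s * algebraMap R S r) ⊗ₜ[R] y = s ⊗ₜ[R] (r • y) := by
        intro r y
        rw [mul_comm, ← Algebra.smul_def, TensorProduct.smul_tmul]
      rw [hr, hr, hr, hr, ← TensorProduct.tmul_add, ← TensorProduct.tmul_add,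
        ← TensorProduct.tmul_add]
      congr 1
      ext <;> simp
  · intro y
    simp only [ψ, map_add, hφ, hf]
    ext <;> simp

theorem quat_norm (R : Type) [CommRing R] (a d u v : R) (ha : IsUnit a) (hd : IsUnit d)
    (h2 : IsUnit (2 : R)) (h : a = u ^ 2 - d * v ^ 2) : BrEq R ℍ[R, a, d] R := by
  obtain ⟨a', ha'⟩ := isUnit_iff_exists_inv.1 ha
  obtain ⟨d', hd'⟩ := isUnit_iff_exists_inv.1 hd
  obtain ⟨c, hc⟩ := isUnit_iff_exists_inv.1 h2
  have hA : (u ^ 2 - d * v ^ 2) * a' = 1 := by rw [← h]; exact ha'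
  let B : QuaternionAlgebra.Basis (Matrix (Fin 2) (Fin 2) R) a (0 : R) d :=
    { i := !![u, -(d * v); v, -u]
      j := !![0, d; 1, 0]
      k := !![-(d * v), u * d; -u, v * d]
      i_mul_i := by
        rw [h]
        ext i j
        fin_cases i <;> fin_cases j <;> simp [Matrix.mul_apply, Fin.sum_univ_two] <;> ring
      j_mul_j := by
        ext i j
        fin_cases i <;> fin_cases j <;> simp [Matrix.mul_apply, Fin.sum_univ_two]
      i_mul_j := by
        ext i j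
        fin_cases i <;> fin_cases j <;> simp [Matrix.mul_apply, Fin.sum_univ_two]
      j_mul_i := by
        ext i j
        fin_cases i <;> fin_cases j <;> simp [Matrix.mul_apply, Fin.sum_univ_two] <;> ring }
  let f : ℍ[R, a, d] →ₐ[R] Matrix (Fin 2) (Fin 2) R := B.liftHom
  have hf : ∀ x : ℍ[R, a, d], f x = !![x.re + u * x.imI - d * v * x.imK,
      -(d * v * x.imI) + d * x.imJ + u * d * x.imK;
      v * x.imI + x.imJ - u * x.imK, x.re - u * x.imI + v * d * x.imK] := by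
    intro x
    change B.lift x = _
    simp only [QuaternionAlgebra.Basis.lift]
    ext i j
    fin_cases i <;> fin_cases j <;> simp [B, Matrix.algebraMap_matrix_apply] <;> ring
  have hbij : Function.Bijective f := by
    refine Function.bijective_iff_has_inverse.2 ⟨fun M =>
      ⟨c * (M 0 0 + M 1 1),
        c * (M 0 0 - M 1 1) * a' * u + c * (d' * M 0 1 - M 1 0) * a' * d * v,
        c * (d' * M 0 1 + M 1 0),
        c * (M 0 0 - M 1 1) * a' * v + c * (d' * M 0 1 - M 1 0) * a' * u⟩, ?_, ?_⟩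
    · intro x
      rw [hf]
      ext
      · simp
        linear_combination x.re * hc
      · simp
        linear_combination (c * a' * d * v * (-(v * x.imI) + x.imJ + u * x.imK)) * hd'
          + (2 * c * x.imI) * hA + x.imI * hc
      · simp
        linear_combination (c * (-(v * x.imI) + x.imJ + u * x.imK)) * hd' + x.imJ * hc
      · simp
        linear_combination (c * a' * u * (-(v * x.imI) + x.imJ + u * x.imK)) * hd'
          + (2 * c * x.imK) * hA + x.imK * hc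
    · intro M
      rw [hf]
      ext i j
      fin_cases i <;> fin_cases j
      · simp
        linear_combination (c * (M 0 0 - M 1 1)) * hA + M 0 0 * hc
      · simp
        linear_combination (c * d * (d' * M 0 1 - M 1 0)) * hA + (2 * c * M 0 1) * hd'
          + M 0 1 * hc
      · simp
        linear_combination -(c * (d' * M 0 1 - M 1 0)) * hA + M 1 0 * hc
      · simp
        linear_combination -(c * (M 0 0 - M 1 1)) * hA + M 1 1 * hc
  exact (BrEq.of_algEquiv (AlgEquiv.ofBijective f hbij)).trans (BrEq.matrix R R 2 two_ne_zero)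

end Pool.Agent.Helper8.BR
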