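import Pool.Agent.Helper8.BR.Quat
import Pool.Agent.Helper8.BR.Skolem

set_option autoImplicit false

/-! BR-10: sums of quaternion algebras with a common slot; split quaternion algebras -/

open scoped TensorProduct Quaternion

namespace Pool.Agent.Helper8.BR

theorem quat_tensor_equiv (R : Type) [CommRing R] (a b d : R) (hb : IsUnit b)
    (hd : IsUnit d) :
    Nonempty (ℍ[R, a * b, d] ⊗[R] ℍ[R, b, d ^ 2] ≃ₐ[R] ℍ[R, a, d] ⊗[R] ℍ[R, b, d]) := by
  obtain ⟨b', hb'⟩ := isUnit_iff_exists_inv.1 hb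
  obtain ⟨d', hd'⟩ := isUnit_iff_exists_inv.1 hd
  -- the quaternion relations
  have ii : ∀ x y : R, (⟨0, 1, 0, 0⟩ : ℍ[R, x, y]) * ⟨0, 1, 0, 0⟩ = x • 1 := by
    intro x y; ext <;> simp
  have jj : ∀ x y : R, (⟨0, 0, 1, 0⟩ : ℍ[R, x, y]) * ⟨0, 0, 1, 0⟩ = y • 1 := by
    intro x y; ext <;> simp
  have ij : ∀ x y : R, (⟨0, 1, 0, 0⟩ : ℍ[R, x, y]) * ⟨0, 0, 1, 0⟩ = ⟨0, 0, 0, 1⟩ := by
    intro x y; ext <;> simp
  have ji : ∀ x y : R, (⟨0, 0, 1, 0⟩ : ℍ[R, x, y]) * ⟨0, 1, 0, 0⟩ = -⟨0, 0, 0, 1⟩ := by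
    intro x y; ext <;> simp
  let P : QuaternionAlgebra.Basis (ℍ[R, a, d] ⊗[R] ℍ[R, b, d]) (a * b) (0 : R) d :=
    { i := (⟨0, 1, 0, 0⟩ : ℍ[R, a, d]) ⊗ₜ[R] (⟨0, 1, 0, 0⟩ : ℍ[R, b, d])
      j := (⟨0, 0, 1, 0⟩ : ℍ[R, a, d]) ⊗ₜ[R] (1 : ℍ[R, b, d])
      k := (⟨0, 0, 0, 1⟩ : ℍ[R, a, d]) ⊗ₜ[R] (⟨0, 1, 0, 0⟩ : ℍ[R, b, d])
      i_mul_i := by
        rw [Algebra.TensorProduct.tmul_mul_tmul, ii, ii, zero_smul, add_zero,
          TensorProduct.smul_tmul_smul, Algebra.TensorProduct.one_def]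
      j_mul_j := by
        rw [Algebra.TensorProduct.tmul_mul_tmul, jj, one_mul, ← TensorProduct.smul_tmul',
          Algebra.TensorProduct.one_def]
      i_mul_j := by
        rw [Algebra.TensorProduct.tmul_mul_tmul, ij, mul_one]
      j_mul_i := by
        rw [Algebra.TensorProduct.tmul_mul_tmul, ji, one_mul, zero_smul, zero_sub,
          TensorProduct.neg_tmul] }
  let Q : QuaternionAlgebra.Basis (ℍ[R, a, d] ⊗[R] ℍ[R, b, d]) b (0 : R) (d ^ 2) :=
    { i := (1 : ℍ[R, a, d]) ⊗ₜ[R] (⟨0, 1, 0, 0⟩ : ℍ[R, b, d])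
      j := (⟨0, 0, 1, 0⟩ : ℍ[R, a, d]) ⊗ₜ[R] (⟨0, 0, 1, 0⟩ : ℍ[R, b, d])
      k := (⟨0, 0, 1, 0⟩ : ℍ[R, a, d]) ⊗ₜ[R] (⟨0, 0, 0, 1⟩ : ℍ[R, b, d])
      i_mul_i := by
        rw [Algebra.TensorProduct.tmul_mul_tmul, ii, one_mul, zero_smul, add_zero,
          TensorProduct.tmul_smul, Algebra.TensorProduct.one_def]
      j_mul_j := by
        rw [Algebra.TensorProduct.tmul_mul_tmul, jj, jj, TensorProduct.smul_tmul_smul,
          Algebra.TensorProduct.one_def, pow_two]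
      i_mul_j := by
        rw [Algebra.TensorProduct.tmul_mul_tmul, ij, one_mul]
      j_mul_i := by
        rw [Algebra.TensorProduct.tmul_mul_tmul, ji, mul_one, zero_smul, zero_sub,
          TensorProduct.tmul_neg] }
  have hPi : P.i = (⟨0, 1, 0, 0⟩ : ℍ[R, a, d]) ⊗ₜ[R] (⟨0, 1, 0, 0⟩ : ℍ[R, b, d]) := rfl
  have hPj : P.j = (⟨0, 0, 1, 0⟩ : ℍ[R, a, d]) ⊗ₜ[R] (1 : ℍ[R, b, d]) := rfl
  have hQi : Q.i = (1 : ℍ[R, a, d]) ⊗ₜ[R] (⟨0, 1, 0, 0⟩ : ℍ[R, b, d]) := rfl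
  have hQj : Q.j = (⟨0, 0, 1, 0⟩ : ℍ[R, a, d]) ⊗ₜ[R] (⟨0, 0, 1, 0⟩ : ℍ[R, b, d]) := rfl
  have c1 : Commute P.i Q.i := by
    rw [hPi, hQi, Commute, SemiconjBy, Algebra.TensorProduct.tmul_mul_tmul,
      Algebra.TensorProduct.tmul_mul_tmul, one_mul, mul_one]
  have c2 : Commute P.i Q.j := by
    rw [hPi, hQj, Commute, SemiconjBy, Algebra.TensorProduct.tmul_mul_tmul,
      Algebra.TensorProduct.tmul_mul_tmul, ij, ij, ji, ji, TensorProduct.neg_tmul,
      TensorProduct.tmul_neg, neg_neg]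
  have c3 : Commute P.j Q.i := by
    rw [hPj, hQi, Commute, SemiconjBy, Algebra.TensorProduct.tmul_mul_tmul,
      Algebra.TensorProduct.tmul_mul_tmul, one_mul, mul_one, one_mul, mul_one]
  have c4 : Commute P.j Q.j := by
    rw [hPj, hQj, Commute, SemiconjBy, Algebra.TensorProduct.tmul_mul_tmul,
      Algebra.TensorProduct.tmul_mul_tmul, one_mul, mul_one]
  have hPk : P.k = P.i * P.j := P.i_mul_j.symm
  have hQk : Q.k = Q.i * Q.j := Q.i_mul_j.symm
  have hcomm : ∀ (x : ℍ[R, a * b, d]) (y : ℍ[R, b, d ^ 2]),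
      Commute (P.liftHom x) (Q.liftHom y) := by
    intro x y
    have hx : P.liftHom x = algebraMap R _ x.re + x.imI • P.i + x.imJ • P.j + x.imK • P.k := rfl
    have hy : Q.liftHom y = algebraMap R _ y.re + y.imI • Q.i + y.imJ • Q.j + y.imK • Q.k := rfl
    have key : ∀ z, Commute z Q.i → Commute z Q.j → Commute z (Q.liftHom y) := by
      intro z h1 h2
      rw [hy, hQk]
      exact (((Algebra.commute_algebraMap_right _ _).add_right (h1.smul_right _)).add_right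
        (h2.smul_right _)).add_right ((h1.mul_right h2).smul_right _)
    have k1 := key P.i c1 c2
    have k2 := key P.j c3 c4
    rw [hx, hPk]
    exact (((Algebra.commute_algebraMap_left _ _).add_left (k1.smul_left _)).add_left
      (k2.smul_left _)).add_left ((k1.mul_left k2).smul_left _)
  let Φ : ℍ[R, a * b, d] ⊗[R] ℍ[R, b, d ^ 2] →ₐ[R] ℍ[R, a, d] ⊗[R] ℍ[R, b, d] :=
    Algebra.TensorProduct.lift P.liftHom Q.liftHom hcomm
  have hΦ : ∀ x y, Φ (x ⊗ₜ y) = P.liftHom x * Q.liftHom y := fun x y =>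
    Algebra.TensorProduct.lift_tmul _ _ _ _ _
  have mPi : P.i ∈ Φ.range := ⟨⟨0, 1, 0, 0⟩ ⊗ₜ 1, by
    change Φ _ = _
    rw [hΦ, map_one, mul_one]
    change algebraMap R _ 0 + (1 : R) • P.i + (0 : R) • P.j + (0 : R) • P.k = _
    simp⟩
  have mPj : P.j ∈ Φ.range := ⟨⟨0, 0, 1, 0⟩ ⊗ₜ 1, by
    change Φ _ = _
    rw [hΦ, map_one, mul_one]
    change algebraMap R _ 0 + (0 : R) • P.i + (1 : R) • P.j + (0 : R) • P.k = _
    simp⟩
  have mQi : Q.i ∈ Φ.range := ⟨1 ⊗ₜ ⟨0, 1, 0, 0⟩, by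
    change Φ _ = _
    rw [hΦ, map_one, one_mul]
    change algebraMap R _ 0 + (1 : R) • Q.i + (0 : R) • Q.j + (0 : R) • Q.k = _
    simp⟩
  have mQj : Q.j ∈ Φ.range := ⟨1 ⊗ₜ ⟨0, 0, 1, 0⟩, by
    change Φ _ = _
    rw [hΦ, map_one, one_mul]
    change algebraMap R _ 0 + (0 : R) • Q.i + (1 : R) • Q.j + (0 : R) • Q.k = _
    simp⟩
  have mi : (⟨0, 1, 0, 0⟩ : ℍ[R, a, d]) ⊗ₜ[R] (1 : ℍ[R, b, d]) ∈ Φ.range := by
    have : (⟨0, 1, 0, 0⟩ : ℍ[R, a, d]) ⊗ₜ[R] (1 : ℍ[R, b, d]) = b' • (P.i * Q.i) := by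
      rw [hPi, hQi, Algebra.TensorProduct.tmul_mul_tmul, mul_one, ii, TensorProduct.tmul_smul,
        smul_smul, mul_comm b' b, hb', one_smul]
    rw [this]
    exact Subalgebra.smul_mem _ (mul_mem mPi mQi) _
  have mj' : (1 : ℍ[R, a, d]) ⊗ₜ[R] (⟨0, 0, 1, 0⟩ : ℍ[R, b, d]) ∈ Φ.range := by
    have : (1 : ℍ[R, a, d]) ⊗ₜ[R] (⟨0, 0, 1, 0⟩ : ℍ[R, b, d]) = d' • (P.j * Q.j) := by
      rw [hPj, hQj, Algebra.TensorProduct.tmul_mul_tmul, one_mul, jj, TensorProduct.smul_tmul',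
        smul_smul, mul_comm d' d, hd', one_smul]
    rw [this]
    exact Subalgebra.smul_mem _ (mul_mem mPj mQj) _
  have mx : ∀ x : ℍ[R, a, d], x ⊗ₜ[R] (1 : ℍ[R, b, d]) ∈ Φ.range := by
    intro x
    have hx : x ⊗ₜ[R] (1 : ℍ[R, b, d])
        = algebraMap R _ x.re
          + x.imI • ((⟨0, 1, 0, 0⟩ : ℍ[R, a, d]) ⊗ₜ[R] (1 : ℍ[R, b, d]))
          + x.imJ • ((⟨0, 0, 1, 0⟩ : ℍ[R, a, d]) ⊗ₜ[R] (1 : ℍ[R, b, d]))
          + x.imK • (((⟨0, 1, 0, 0⟩ : ℍ[R, a, d]) ⊗ₜ[R] (1 : ℍ[R, b, d]))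
            * ((⟨0, 0, 1, 0⟩ : ℍ[R, a, d]) ⊗ₜ[R] (1 : ℍ[R, b, d]))) := by
      rw [Algebra.TensorProduct.tmul_mul_tmul, ij, mul_one, Algebra.algebraMap_eq_smul_one,
        Algebra.TensorProduct.one_def, TensorProduct.smul_tmul', TensorProduct.smul_tmul',
        TensorProduct.smul_tmul', TensorProduct.smul_tmul', ← TensorProduct.add_tmul,
        ← TensorProduct.add_tmul, ← TensorProduct.add_tmul]
      congr 1
      ext <;> simp
    rw [hx]
    exact add_mem (add_mem (add_mem (Subalgebra.algebraMap_mem _ _)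
      (Subalgebra.smul_mem _ mi _)) (Subalgebra.smul_mem _ mPj _))
      (Subalgebra.smul_mem _ (mul_mem mi mPj) _)
  have my : ∀ y : ℍ[R, b, d], (1 : ℍ[R, a, d]) ⊗ₜ[R] y ∈ Φ.range := by
    intro x
    have hx : (1 : ℍ[R, a, d]) ⊗ₜ[R] x
        = algebraMap R _ x.re
          + x.imI • ((1 : ℍ[R, a, d]) ⊗ₜ[R] (⟨0, 1, 0, 0⟩ : ℍ[R, b, d]))
          + x.imJ • ((1 : ℍ[R, a, d]) ⊗ₜ[R] (⟨0, 0, 1, 0⟩ : ℍ[R, b, d]))
          + x.imK • (((1 : ℍ[R, a, d]) ⊗ₜ[R] (⟨0, 1, 0, 0⟩ : ℍ[R, b, d]))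
            * ((1 : ℍ[R, a, d]) ⊗ₜ[R] (⟨0, 0, 1, 0⟩ : ℍ[R, b, d]))) := by
      rw [Algebra.TensorProduct.tmul_mul_tmul, ij, mul_one, Algebra.algebraMap_eq_smul_one,
        Algebra.TensorProduct.one_def, ← TensorProduct.tmul_smul, ← TensorProduct.tmul_smul,
        ← TensorProduct.tmul_smul, ← TensorProduct.tmul_smul, ← TensorProduct.tmul_add,
        ← TensorProduct.tmul_add, ← TensorProduct.tmul_add]
      congr 1
      ext <;> simp
    rw [hx]
    exact add_mem (add_mem (add_mem (Subalgebra.algebraMap_mem _ _)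
      (Subalgebra.smul_mem _ mQi _)) (Subalgebra.smul_mem _ mj' _))
      (Subalgebra.smul_mem _ (mul_mem mQi mj') _)
  have hsurj : Function.Surjective Φ := by
    intro t
    suffices ht : t ∈ Φ.range from ht
    induction t using TensorProduct.induction_on with
    | zero => exact zero_mem _
    | add x y hx hy => exact add_mem hx hy
    | tmul x y =>
      have : x ⊗ₜ[R] y = (x ⊗ₜ[R] (1 : ℍ[R, b, d])) * ((1 : ℍ[R, a, d]) ⊗ₜ[R] y) := by
        rw [Algebra.TensorProduct.tmul_mul_tmul, mul_one, one_mul]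
      rw [this]
      exact mul_mem (mx x) (my y)
  rcases subsingleton_or_nontrivial R with hR | hR
  · have : Subsingleton (ℍ[R, a * b, d] ⊗[R] ℍ[R, b, d ^ 2]) := Module.subsingleton R _
    exact ⟨AlgEquiv.ofBijective Φ ⟨fun x y _ => Subsingleton.elim x y, hsurj⟩⟩
  · have hfin : Module.finrank R (ℍ[R, a, d] ⊗[R] ℍ[R, b, d])
        = Module.finrank R (ℍ[R, a * b, d] ⊗[R] ℍ[R, b, d ^ 2]) := by
      rw [Module.finrank_tensorProduct, Module.finrank_tensorProduct,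
        QuaternionAlgebra.finrank_eq_four, QuaternionAlgebra.finrank_eq_four,
        QuaternionAlgebra.finrank_eq_four, QuaternionAlgebra.finrank_eq_four]
    let e := LinearEquiv.ofFinrankEq _ _ hfin
    have h1 : Function.Surjective (Φ.toLinearMap.comp e.toLinearMap) :=
      hsurj.comp e.surjective
    have h3 := OrzechProperty.injective_of_surjective_endomorphism _ h1
    refine ⟨AlgEquiv.ofBijective Φ ⟨fun x y hxy => ?_, hsurj⟩⟩
    have h4 : e.symm x = e.symm y := by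
      apply h3
      simpa using hxy
    exact e.symm.injective h4

theorem quat_add (R : Type) [CommRing R] (a b d : R) (ha : IsUnit a) (hb : IsUnit b)
    (hd : IsUnit d) (h2 : IsUnit (2 : R)) :
    BrEq R (ℍ[R, a, d] ⊗[R] ℍ[R, b, d]) ℍ[R, a * b, d] := by
  obtain ⟨e⟩ := quat_tensor_equiv R a b d hb hd
  obtain ⟨d', hd'⟩ := isUnit_iff_exists_inv.1 hd
  obtain ⟨c, hc⟩ := isUnit_iff_exists_inv.1 h2
  have h1 : BrEq R ℍ[R, b, d ^ 2] R := by
    refine quat_norm R b (d ^ 2) (c * (b + 1)) (c * d' * (b - 1)) hb (hd.pow 2) h2 ?_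
    linear_combination (-2 * b * c - b) * hc + (c ^ 2 * (b - 1) ^ 2 * (d * d' + 1)) * hd'
  exact ((BrEq.of_algEquiv e.symm).trans ((BrEq.refl R ℍ[R, a * b, d]).tensor h1)).trans
    (BrEq.of_algEquiv (Algebra.TensorProduct.rid R R ℍ[R, a * b, d]))

theorem norm_of_isotropic {K : Type} [Field K] (h2 : (2 : K) ≠ 0) (a d : K)
    (hd : d ≠ 0) (x : ℍ[K, a, d]) (hx : x ≠ 0)
    (h : x.re ^ 2 - a * x.imI ^ 2 - d * x.imJ ^ 2 + a * d * x.imK ^ 2 = 0) :
    ∃ u v : K, a = u ^ 2 - d * v ^ 2 := by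
  have hsq : ∀ c : K, d = c ^ 2 → ∃ u v : K, a = u ^ 2 - d * v ^ 2 := by
    intro c hc
    have hc0 : c ≠ 0 := by
      rintro rfl
      apply hd
      rw [hc]; ring
    refine ⟨(a + 1) / 2, (a - 1) / (2 * c), ?_⟩
    rw [hc]
    field_simp
    ring
  have hiso : ∀ p q : K, p ^ 2 - d * q ^ 2 = 0 → ¬ (p = 0 ∧ q = 0) →
      ∃ u v : K, a = u ^ 2 - d * v ^ 2 := by
    intro p q hpq hne
    by_cases hq : q = 0
    · exfalso
      apply hne
      rw [hq] at hpq
      refine ⟨?_, hq⟩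
      have : p ^ 2 = 0 := by linear_combination hpq
      exact pow_eq_zero_iff two_ne_zero |>.1 this
    · apply hsq (p / q)
      field_simp
      linear_combination -hpq
  by_cases hN : x.imI ^ 2 - d * x.imK ^ 2 = 0
  · by_cases h13 : x.imI = 0 ∧ x.imK = 0
    · apply hiso x.re x.imJ
      · rw [h13.1, h13.2] at h
        linear_combination h
      · rintro ⟨h0, h2'⟩
        apply hx
        ext
        · exact h0
        · exact h13.1
        · exact h2'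
        · exact h13.2
    · exact hiso _ _ hN h13
  · refine ⟨(x.re * x.imI - d * x.imJ * x.imK) / (x.imI ^ 2 - d * x.imK ^ 2),
      (x.imI * x.imJ - x.re * x.imK) / (x.imI ^ 2 - d * x.imK ^ 2), ?_⟩
    field_simp
    linear_combination -(x.imI ^ 2 - d * x.imK ^ 2) * h

theorem quat_split_field (K : Type) [Field K] (h2 : (2 : K) ≠ 0) (a d : K) (ha : a ≠ 0)
    (hd : d ≠ 0) (h : BrEq K ℍ[K, a, d] K) : ∃ u v : K, a = u ^ 2 - d * v ^ 2 := by
  obtain ⟨n, m, hn, hm, ⟨e⟩⟩ := h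
  have hdim : n * n * 4 = m * m := by
    have h1 := e.toLinearEquiv.finrank_eq
    rw [Module.finrank_matrix, Module.finrank_matrix, QuaternionAlgebra.finrank_eq_four,
      Module.finrank_self] at h1
    simpa using h1
  have hlt : m < n * 4 := by
    by_contra hc
    push Not at hc
    have : 0 < n * n := Nat.pos_of_ne_zero (Nat.mul_ne_zero hn hn)
    nlinarith
  have : NeZero n := ⟨hn⟩
  set E : Matrix (Fin n) (Fin n) ℍ[K, a, d] := Matrix.single 0 0 1 with hE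
  have hE0 : E ≠ 0 := by
    intro h0
    have := congrFun (congrFun h0 0) 0
    rw [hE] at this
    simp at this
  have heE : e E ≠ 0 := fun h0 => hE0 (e.injective (by rw [h0, map_zero]))
  have hEE : E * E = E := by rw [hE]; simp
  obtain ⟨v, hv⟩ : ∃ v, Matrix.mulVec (e E) v ≠ 0 := by
    by_contra hc
    push Not at hc
    apply heE
    apply Matrix.toLin'.injective
    refine LinearMap.ext fun v => ?_
    rw [Matrix.toLin'_apply, hc v, map_zero, LinearMap.zero_apply]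
  set w := Matrix.mulVec (e E) v with hw
  have hEw : Matrix.mulVec (e E) w = w := by
    rw [hw, Matrix.mulVec_mulVec, ← map_mul, hEE]
  -- the column map
  let col : (Fin n → ℍ[K, a, d]) →ₗ[K] Matrix (Fin n) (Fin n) ℍ[K, a, d] :=
    { toFun := fun x => Matrix.of fun i j => if j = 0 then x i else 0
      map_add' := by
        intro x y
        apply Matrix.ext
        intro i j
        simp only [Matrix.of_apply, Matrix.add_apply, Pi.add_apply]
        split_ifs <;> simp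
      map_smul' := by
        intro c x
        apply Matrix.ext
        intro i j
        simp only [Matrix.of_apply, Matrix.smul_apply, Pi.smul_apply, RingHom.id_apply]
        split_ifs <;> simp }
  let L : (Fin n → ℍ[K, a, d]) →ₗ[K] (Fin m → K) :=
    (LinearMap.flip (Matrix.mulVecBilin K K) w).comp (e.toLinearMap.comp col)
  have hL : ∀ x, L x = Matrix.mulVec (e (col x)) w := fun x => rfl
  have hker : LinearMap.ker L ≠ ⊥ := by
    apply LinearMap.ker_ne_bot_of_finrank_lt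
    rw [Module.finrank_fin_fun, Module.finrank_pi_fintype]
    simpa [QuaternionAlgebra.finrank_eq_four] using hlt
  obtain ⟨x, hx, hx0⟩ := Submodule.exists_mem_ne_zero_of_ne_bot hker
  obtain ⟨j, hj⟩ : ∃ j, x j ≠ 0 := by
    by_contra hc
    push Not at hc
    exact hx0 (funext hc)
  rw [LinearMap.mem_ker, hL] at hx
  have hprod : Matrix.single 0 j (star (x j)) * col x
      = ((star (x j) * x j).re) • E := by
    apply Matrix.ext
    intro i l
    have hstar : star (x j) * x j = (((star (x j) * x j).re : K) : ℍ[K, a, d]) :=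
      QuaternionAlgebra.star_mul_eq_coe (x j)
    rw [Matrix.smul_apply, hE]
    by_cases hi : i = 0
    · subst hi
      rw [Matrix.single_mul_apply_same]
      change star (x j) * (if l = 0 then x j else 0) = _
      by_cases hl : l = 0
      · subst hl
        rw [if_pos rfl, Matrix.single_apply_same, hstar]
        ext <;> simp
      · rw [if_neg hl, mul_zero, Matrix.single_apply, if_neg (fun h0 => hl h0.2.symm), smul_zero]
    · rw [Matrix.single_mul_apply_of_ne _ _ _ _ _ hi, Matrix.single_apply,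
        if_neg (fun h0 => hi h0.1.symm), smul_zero]
  have hr : (star (x j) * x j).re = 0 := by
    have h5 : Matrix.mulVec (e (Matrix.single 0 j (star (x j)) * col x)) w = 0 := by
      rw [map_mul, ← Matrix.mulVec_mulVec, hx, Matrix.mulVec_zero]
    rw [hprod, map_smul, Matrix.smul_mulVec, hEw, smul_eq_zero] at h5
    exact h5.resolve_right hv
  refine norm_of_isotropic h2 a d hd (x j) hj ?_
  refine Eq.trans ?_ hr
  simp
  ring

end Pool.Agent.Helper8.BR
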