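import Pool.Agent.Helper8.BR.SmithDim
import Pool.Agent.Helper8.BR.LocRings

set_option autoImplicit false

/-! BR-17: Riemann-Roch for vector bundles of degree 0 on the projective line -/

open Module
open scoped TensorProduct Polynomial

namespace Pool.Agent.Helper8.BR

section RRaux

variable {E : Type} [Field E]

/-- factorisation of a polynomial in a part supported on `h` and a part prime to `h` -/
theorem rr_exists_factor (h : E[X]) (n : ℕ) :
    ∀ p : E[X], p ≠ 0 → p.natDegree ≤ n →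
      ∃ (a b : E[X]) (k : ℕ), p = a * b ∧ a ∣ h ^ k ∧ IsCoprime b h := by
  induction n with
  | zero =>
    intro p hp hn
    refine ⟨1, p, 0, (one_mul p).symm, one_dvd _, ?_⟩
    rw [Polynomial.eq_C_of_natDegree_le_zero hn] at hp ⊢
    have hc : p.coeff 0 ≠ 0 := fun hc => hp (by rw [hc, Polynomial.C_0])
    obtain ⟨u, hu⟩ := (Polynomial.isUnit_C).2 (isUnit_iff_ne_zero.2 hc)
    rw [← hu]
    exact ⟨↑u⁻¹, 0, by rw [Units.inv_mul, zero_mul, add_zero]⟩
  | succ n ih =>
    intro p hp hn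
    by_cases hu : IsCoprime p h
    · exact ⟨1, p, 0, (one_mul p).symm, one_dvd _, hu⟩
    · obtain ⟨d, hdp, hdh, hdu⟩ : ∃ d, d ∣ p ∧ d ∣ h ∧ ¬ IsUnit d := by
        by_contra hcon
        push Not at hcon
        exact hu (isRelPrime_iff_isCoprime.1 fun d h1 h2 => hcon d h1 h2)
      obtain ⟨p', rfl⟩ := hdp
      have hd0 : d ≠ 0 := left_ne_zero_of_mul hp
      have hp0 : p' ≠ 0 := right_ne_zero_of_mul hp
      have hdeg : 1 ≤ d.natDegree := by
        by_contra hcon
        have hz : d.natDegree ≤ 0 := by omega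
        apply hdu
        rw [Polynomial.eq_C_of_natDegree_le_zero hz] at hd0 ⊢
        have hc : d.coeff 0 ≠ 0 := fun hc => hd0 (by rw [hc, Polynomial.C_0])
        exact (Polynomial.isUnit_C).2 (isUnit_iff_ne_zero.2 hc)
      rw [Polynomial.natDegree_mul hd0 hp0] at hn
      obtain ⟨a, b, k, h1, h2, h3⟩ := ih p' hp0 (by omega)
      refine ⟨d * a, b, k + 1, ?_, ?_, h3⟩
      · rw [h1, mul_assoc]
      · rw [pow_succ']
        exact mul_dvd_mul hdh h2

theorem rr_algebraMap_ne_zero {p : E[X]} (hp : p ≠ 0) : algebraMap E[X] (RatFunc E) p ≠ 0 := by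
  rw [Ne, map_eq_zero_iff _ (IsFractionRing.injective E[X] (RatFunc E))]
  exact hp

/-- every rational function becomes an element of `locAt E h` after multiplication by a power
of `h` -/
theorem rr_exists_pow_mem (h : E[X]) (f : RatFunc E) :
    ∃ k : ℕ, ∀ m, k ≤ m → algebraMap E[X] (RatFunc E) h ^ m * f ∈ locAt E h := by
  obtain ⟨a, b, k, h1, h2, h3⟩ := rr_exists_factor h _ f.denom (RatFunc.denom_ne_zero f) le_rfl
  refine ⟨k, fun m hm => ?_⟩
  obtain ⟨c, hc⟩ := h2
  have hab : a * b ≠ 0 := by rw [← h1]; exact RatFunc.denom_ne_zero f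
  have hb0 : b ≠ 0 := right_ne_zero_of_mul hab
  have ha0 : a ≠ 0 := left_ne_zero_of_mul hab
  refine ⟨h ^ (m - k) * c * f.num, b, h3, hb0, ?_⟩
  have h4 : f * algebraMap E[X] (RatFunc E) f.denom = algebraMap E[X] (RatFunc E) f.num := by
    have := RatFunc.num_div_denom f
    rw [div_eq_iff (rr_algebraMap_ne_zero (RatFunc.denom_ne_zero f))] at this
    exact this.symm
  rw [map_mul, ← h4, ← map_pow]
  have h5 : h ^ m = h ^ (m - k) * (a * c) := by
    rw [← hc, ← pow_add, Nat.sub_add_cancel hm]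
  rw [h5, h1]
  simp only [map_mul]
  ring

/-- a nonzero element of `locAt E h` is a polynomial supported on `h` times a unit -/
theorem rr_exists_unit (h : E[X]) (f : RatFunc E) (hf0 : f ≠ 0)
    (hf : f ∈ locAt E h) :
    ∃ (a : E[X]) (k : ℕ) (u : RatFunc E), a ∣ h ^ k ∧ a ≠ 0 ∧ u ≠ 0 ∧ u ∈ locAt E h ∧
      u⁻¹ ∈ locAt E h ∧ f = algebraMap E[X] (RatFunc E) a * u := by
  obtain ⟨p, q, hq, hq0, hpq⟩ := hf
  have hp0 : p ≠ 0 := by
    rintro rfl
    rw [map_zero] at hpq
    rcases mul_eq_zero.1 hpq with h1 | h1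
    · exact hf0 h1
    · exact rr_algebraMap_ne_zero hq0 h1
  obtain ⟨a, b, k, h1, h2, h3⟩ := rr_exists_factor h _ p hp0 le_rfl
  have hb0 : b ≠ 0 := by
    rintro rfl
    exact hp0 (by rw [h1, mul_zero])
  have ha0 : a ≠ 0 := by
    rintro rfl
    exact hp0 (by rw [h1, zero_mul])
  have hq' := rr_algebraMap_ne_zero hq0
  have hb' := rr_algebraMap_ne_zero hb0
  refine ⟨a, k, algebraMap E[X] (RatFunc E) b / algebraMap E[X] (RatFunc E) q, h2, ha0,
    div_ne_zero hb' hq', ⟨b, q, hq, hq0, ?_⟩, ⟨q, b, h3, hb0, ?_⟩, ?_⟩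
  · field_simp
  · field_simp
  · rw [h1, map_mul] at hpq
    field_simp
    exact hpq

theorem rr_intDegree_nonneg (h : E[X]) (f : RatFunc E) (hf : f ∈ locAt E h)
    (hf' : f ∈ intAway E h) : 0 ≤ f.intDegree := by
  obtain ⟨p, q, hq, hq0, hpq⟩ := hf
  obtain ⟨p', k, hk⟩ := hf'
  have hinj := IsFractionRing.injective E[X] (RatFunc E)
  have h1 : p * h ^ k = p' * q := by
    apply hinj
    rw [map_mul, map_mul, ← hpq, ← hk, map_pow]
    ring
  have h2 : q ∣ p * h ^ k := ⟨p', by rw [h1, mul_comm]⟩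
  obtain ⟨r, rfl⟩ := (hq.pow_right (n := k)).dvd_of_dvd_mul_right h2
  have h3 : f = algebraMap E[X] (RatFunc E) r := by
    apply mul_right_cancel₀ (rr_algebraMap_ne_zero hq0)
    rw [hpq, map_mul, mul_comm]
  rw [h3, RatFunc.intDegree_polynomial]
  exact Int.natCast_nonneg _

theorem rr_intDegree_zero (h : E[X]) (f : RatFunc E) (hf : f ∈ locAt E h)
    (hf' : f ∈ intAway E h) (hi : f⁻¹ ∈ locAt E h) (hi' : f⁻¹ ∈ intAway E h) :
    f.intDegree = 0 := by
  have h1 := rr_intDegree_nonneg h f hf hf'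
  have h2 := rr_intDegree_nonneg h _ hi hi'
  rw [RatFunc.intDegree_inv] at h2
  omega

theorem rr_pow_inv_mem_intAway (h : E[X]) (h0 : h ≠ 0) (k : ℕ) :
    (algebraMap E[X] (RatFunc E) h ^ k)⁻¹ ∈ intAway E h := by
  refine ⟨1, k, ?_⟩
  rw [map_one, inv_mul_cancel₀]
  exact pow_ne_zero _ (rr_algebraMap_ne_zero h0)

theorem rr_poly_mem_intAway (h p : E[X]) : algebraMap E[X] (RatFunc E) p ∈ intAway E h :=
  ⟨p, 0, by rw [pow_zero, mul_one]⟩

theorem rr_dvd_inv_mem_intAway (h a : E[X]) (h0 : h ≠ 0) (k : ℕ) (ha : a ∣ h ^ k) :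
    (algebraMap E[X] (RatFunc E) a)⁻¹ ∈ intAway E h := by
  obtain ⟨c, hc⟩ := ha
  have hac : a * c ≠ 0 := by rw [← hc]; exact pow_ne_zero _ h0
  refine ⟨c, k, ?_⟩
  rw [← map_pow, hc, map_mul, ← mul_assoc, inv_mul_cancel₀ (rr_algebraMap_ne_zero
    (left_ne_zero_of_mul hac)), one_mul]

theorem rr_mem_locInf {f : RatFunc E} (hf : f.intDegree ≤ 0) : f ∈ locInf E := Or.inr hf

theorem rr_exists_pow_mem_locInf (f : RatFunc E) :
    ∃ k : ℕ, ∀ m, k ≤ m → (RatFunc.X ^ m)⁻¹ * f ∈ locInf E := by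
  refine ⟨f.intDegree.toNat, fun m hm => ?_⟩
  by_cases hf : f = 0
  · rw [hf, mul_zero]; exact (locInf E).zero_mem
  have hX : ∀ m : ℕ, ((RatFunc.X : RatFunc E) ^ m).intDegree = m := by
    intro m
    have : (RatFunc.X : RatFunc E) ^ m = algebraMap E[X] (RatFunc E) (Polynomial.X ^ m) := by
      rw [map_pow, RatFunc.algebraMap_X]
    rw [this, RatFunc.intDegree_polynomial, Polynomial.natDegree_X_pow]
  apply rr_mem_locInf
  rw [RatFunc.intDegree_mul (inv_ne_zero (pow_ne_zero _ RatFunc.X_ne_zero)) hf,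
    RatFunc.intDegree_inv, hX]
  omega

theorem rr_intDegree_X_pow (m : ℕ) : ((RatFunc.X : RatFunc E) ^ m).intDegree = m := by
  have : (RatFunc.X : RatFunc E) ^ m = algebraMap E[X] (RatFunc E) (Polynomial.X ^ m) := by
    rw [map_pow, RatFunc.algebraMap_X]
  rw [this, RatFunc.intDegree_polynomial, Polynomial.natDegree_X_pow]

theorem rr_intDegree_pow {f : RatFunc E} (hf : f ≠ 0) (m : ℕ) :
    (f ^ m).intDegree = m * f.intDegree := by
  induction m with
  | zero => simp
  | succ m ih =>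
    rw [pow_succ, RatFunc.intDegree_mul (pow_ne_zero _ hf) hf, ih]
    push_cast
    ring

theorem rr_exists_indep {V QA QT : Type} [AddCommGroup V] [Module E V] [Module.Finite E V]
    [AddCommGroup QA] [Module E QA] [Module.Finite E QA] [AddCommGroup QT] [Module E QT]
    [Module.Finite E QT] (φ : V →ₗ[E] QA) (ψ : V →ₗ[E] QT) (N : ℕ)
    (x y z : ℤ) (hx : (finrank E QA : ℤ) = x) (hy : (finrank E QT : ℤ) = y)
    (hz : (finrank E V : ℤ) = z) (hN : N + x + y ≤ z) :
    ∃ f : Fin N → V, LinearIndependent E f ∧ ∀ i, φ (f i) = 0 ∧ ψ (f i) = 0 := by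
  have hrn := LinearMap.finrank_range_add_finrank_ker (φ.prod ψ)
  have hrange : finrank E (LinearMap.range (φ.prod ψ)) ≤ finrank E QA + finrank E QT := by
    rw [← Module.finrank_prod]
    exact Submodule.finrank_le _
  have hker : N ≤ finrank E (LinearMap.ker (φ.prod ψ)) := by omega
  obtain ⟨f, hf⟩ := exists_linearIndependent_of_le_finrank hker
  refine ⟨fun i => (f i : V), hf.map' (LinearMap.ker (φ.prod ψ)).subtype
    (LinearMap.ker (φ.prod ψ)).ker_subtype, fun i => ?_⟩
  have h1 : (φ.prod ψ) (f i) = 0 := (f i).2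
  exact ⟨congrArg Prod.fst h1, congrArg Prod.snd h1⟩

theorem rr_exists_uniform {N : ℕ} {P : ℕ → Fin N → Fin N → Prop}
    (hP : ∀ i j, ∃ k, ∀ m, k ≤ m → P m i j) : ∃ k, ∀ i j, P k i j := by
  choose kk hkk using hP
  refine ⟨∑ i, ∑ j, kk i j, fun i j => hkk i j _ ?_⟩
  exact (Finset.single_le_sum (f := fun j => kk i j) (fun _ _ => Nat.zero_le _)
    (Finset.mem_univ j)).trans (Finset.single_le_sum (f := fun i => ∑ j, kk i j)
      (fun _ _ => Nat.zero_le _) (Finset.mem_univ i))

end RRaux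

theorem rr (E : Type) [Field E] (h : E[X]) (h0 : h ≠ 0) (N : ℕ)
    (g ginf : Matrix (Fin N) (Fin N) (RatFunc E)) (δ : RatFunc E) (hδ0 : δ ≠ 0)
    (hδ : δ ∈ intAway E h) (hδ' : δ⁻¹ ∈ intAway E h)
    (hg : g.det ^ 2 * δ ∈ locAt E h) (hg' : (g.det ^ 2 * δ)⁻¹ ∈ locAt E h)
    (hg0 : g.det ≠ 0)
    (hi : ginf.det ^ 2 * δ ∈ locInf E) (hi' : (ginf.det ^ 2 * δ)⁻¹ ∈ locInf E)
    (hi0 : ginf.det ≠ 0) :
    ∃ v : Fin N → (Fin N → RatFunc E), LinearIndependent E v ∧ ∀ i,
      (∀ j, v i j ∈ intAway E h) ∧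
      (∃ x : Fin N → RatFunc E, (∀ j, x j ∈ locAt E h) ∧ g.mulVec x = v i) ∧
      (∃ x : Fin N → RatFunc E, (∀ j, x j ∈ locInf E) ∧ ginf.mulVec x = v i) := by
  classical
  have hpid := locAt_pid E h h0
  have := hpid.1
  have hpid' := locInf_pid E
  have := hpid'.1
  have hHne : algebraMap E[X] (RatFunc E) h ≠ 0 := rr_algebraMap_ne_zero h0
  obtain ⟨k, hk⟩ : ∃ k : ℕ, ∀ i j, algebraMap E[X] (RatFunc E) h ^ k * g i j ∈ locAt E h :=
    rr_exists_uniform (P := fun m i j => algebraMap E[X] (RatFunc E) h ^ m * g i j ∈ locAt E h)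
      fun i j => rr_exists_pow_mem h (g i j)
  obtain ⟨M, hM⟩ : ∃ M : ℕ, ∀ i j, (RatFunc.X ^ M)⁻¹ * ginf i j ∈ locInf E :=
    rr_exists_uniform (P := fun m i j => (RatFunc.X ^ m)⁻¹ * ginf i j ∈ locInf E)
      fun i j => rr_exists_pow_mem_locInf (ginf i j)
  generalize hHk : algebraMap E[X] (RatFunc E) h ^ k = Hk at hk
  generalize hXM : (RatFunc.X ^ M : RatFunc E)⁻¹ = XM at hM
  have hHk0 : Hk ≠ 0 := by rw [← hHk]; exact pow_ne_zero _ hHne
  have hXM0 : XM ≠ 0 := by
    rw [← hXM]; exact inv_ne_zero (pow_ne_zero _ RatFunc.X_ne_zero)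
  let A : Matrix (Fin N) (Fin N) (locAt E h) := fun i j => ⟨Hk * g i j, hk i j⟩
  let T : Matrix (Fin N) (Fin N) (locInf E) := fun i j => ⟨XM * ginf i j, hM i j⟩
  have hdA : (A.det : RatFunc E) = Hk ^ N * g.det := by
    have h1 : (A.det : RatFunc E) = (locAt E h).val A.det := rfl
    rw [h1, AlgHom.map_det]
    have h2 : (locAt E h).val.mapMatrix A = Hk • g := by
      ext i j
      rfl
    rw [h2, Matrix.det_smul, Fintype.card_fin]
  have hdT : (T.det : RatFunc E) = XM ^ N * ginf.det := by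
    have h1 : (T.det : RatFunc E) = (locInf E).val T.det := rfl
    rw [h1, AlgHom.map_det]
    have h2 : (locInf E).val.mapMatrix T = XM • ginf := by
      ext i j
      rfl
    rw [h2, Matrix.det_smul, Fintype.card_fin]
  have hA0' : (A.det : RatFunc E) ≠ 0 := by
    rw [hdA]; exact mul_ne_zero (pow_ne_zero _ hHk0) hg0
  have hT0' : (T.det : RatFunc E) ≠ 0 := by
    rw [hdT]; exact mul_ne_zero (pow_ne_zero _ hXM0) hi0
  have hA0 : A.det ≠ 0 := fun hc => hA0' (by rw [hc]; rfl)
  have hT0 : T.det ≠ 0 := fun hc => hT0' (by rw [hc]; rfl)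
  obtain ⟨a, k', u, ha, ha0, hu0, hu, hu', hau⟩ := rr_exists_unit h _ hA0' A.det.2
  -- the degree of the finite part
  have hfinA : Module.Finite E (locAt E h ⧸ Ideal.span {A.det}) ∧
      finrank E (locAt E h ⧸ Ideal.span {A.det}) = a.natDegree := by
    have hspan : Ideal.span {A.det} = Ideal.span
        {(⟨algebraMap E[X] (RatFunc E) a, algebraMap_mem_locAt E h a⟩ : locAt E h)} := by
      have h1 : A.det = (⟨algebraMap E[X] (RatFunc E) a, algebraMap_mem_locAt E h a⟩ : locAt E h)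
          * ⟨u, hu⟩ := Subtype.ext hau
      have h2 : IsUnit (⟨u, hu⟩ : locAt E h) := by
        refine IsUnit.of_mul_eq_one ⟨u⁻¹, hu'⟩ (Subtype.ext ?_)
        exact mul_inv_cancel₀ hu0
      rw [h1, Ideal.span_singleton_mul_right_unit h2]
    rw [hspan]
    exact finrank_locAt E h a h0 k' ha
  have hfinT := finrank_locInf E T.det hT0
  have := hfinA.1
  have := hfinT.1
  have hQA := finrank_quot_det E (locAt E h) A hA0
  have hQT := finrank_quot_det E (locInf E) T hT0
  have := hQA.1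
  have := hQT.1
  -- the degree identities
  have hιa0 : algebraMap E[X] (RatFunc E) a ≠ 0 := rr_algebraMap_ne_zero ha0
  have hHkA : Hk ∈ intAway E h := by
    rw [← hHk]
    exact Subalgebra.pow_mem _ (rr_poly_mem_intAway h h) k
  have hHkA' : Hk⁻¹ ∈ intAway E h := by
    rw [← hHk]
    exact rr_pow_inv_mem_intAway h h0 k
  have hHkdeg : Hk.intDegree = k * h.natDegree := by
    rw [← hHk, rr_intDegree_pow hHne, RatFunc.intDegree_polynomial]
  have hdeg1 : 2 * (a.natDegree : ℤ) + δ.intDegree = 2 * (N * (k * h.natDegree)) := by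
    have hF : algebraMap E[X] (RatFunc E) a ^ 2 * δ * ((Hk ^ N) ^ 2)⁻¹ =
        (g.det ^ 2 * δ) * (u⁻¹) ^ 2 := by
      have h1 : algebraMap E[X] (RatFunc E) a = Hk ^ N * g.det * u⁻¹ := by
        rw [← hdA, hau, mul_assoc, mul_inv_cancel₀ hu0, mul_one]
      rw [h1]
      field_simp
    have hF0 : algebraMap E[X] (RatFunc E) a ^ 2 * δ * ((Hk ^ N) ^ 2)⁻¹ ≠ 0 :=
      mul_ne_zero (mul_ne_zero (pow_ne_zero _ hιa0) hδ0)
        (inv_ne_zero (pow_ne_zero _ (pow_ne_zero _ hHk0)))
    have hz := rr_intDegree_zero h (algebraMap E[X] (RatFunc E) a ^ 2 * δ * ((Hk ^ N) ^ 2)⁻¹)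
      (by rw [hF]; exact (locAt E h).mul_mem hg (Subalgebra.pow_mem _ hu' 2))
      (by
        refine (intAway E h).mul_mem ((intAway E h).mul_mem
          (Subalgebra.pow_mem _ (rr_poly_mem_intAway h a) 2) hδ) ?_
        rw [← inv_pow, ← inv_pow]
        exact Subalgebra.pow_mem _ (Subalgebra.pow_mem _ hHkA' _) _)
      (by
        rw [hF, mul_inv, ← inv_pow, inv_inv]
        exact (locAt E h).mul_mem hg' (Subalgebra.pow_mem _ hu 2))
      (by
        rw [mul_inv, mul_inv, inv_inv, ← inv_pow]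
        exact (intAway E h).mul_mem ((intAway E h).mul_mem
          (Subalgebra.pow_mem _ (rr_dvd_inv_mem_intAway h a h0 k' ha) 2) hδ')
          (Subalgebra.pow_mem _ (Subalgebra.pow_mem _ hHkA _) _))
    rw [RatFunc.intDegree_mul (mul_ne_zero (pow_ne_zero _ hιa0) hδ0)
        (inv_ne_zero (pow_ne_zero _ (pow_ne_zero _ hHk0))),
      RatFunc.intDegree_mul (pow_ne_zero _ hιa0) hδ0, RatFunc.intDegree_inv,
      rr_intDegree_pow hιa0, rr_intDegree_pow (pow_ne_zero _ hHk0), rr_intDegree_pow hHk0,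
      hHkdeg, RatFunc.intDegree_polynomial] at hz
    push_cast at hz
    linarith
  have hdeg2 : 2 * ginf.det.intDegree + δ.intDegree = 0 := by
    have h1 : (ginf.det ^ 2 * δ) ≠ 0 := mul_ne_zero (pow_ne_zero _ hi0) hδ0
    have h2 : (ginf.det ^ 2 * δ).intDegree ≤ 0 := hi.resolve_left h1
    have h3 : (ginf.det ^ 2 * δ)⁻¹.intDegree ≤ 0 := hi'.resolve_left (inv_ne_zero h1)
    rw [RatFunc.intDegree_inv] at h3
    rw [RatFunc.intDegree_mul (pow_ne_zero _ hi0) hδ0, rr_intDegree_pow hi0] at h2 h3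
    push_cast at h2 h3
    linarith
  have hXMdeg : XM.intDegree = -M := by
    rw [← hXM, RatFunc.intDegree_inv, rr_intDegree_X_pow]
  have hTdeg : (T.det : RatFunc E).intDegree = -(N * M) + ginf.det.intDegree := by
    rw [hdT, RatFunc.intDegree_mul (pow_ne_zero _ hXM0) hi0, rr_intDegree_pow hXM0, hXMdeg]
    ring
  -- the space of candidates
  let n : ℕ := M + k * h.natDegree
  have hcand : ∀ p : Polynomial.degreeLT E (n + 1),
      XM * (Hk⁻¹ * algebraMap E[X] (RatFunc E) (p : E[X])) ∈ locInf E := by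
    intro p
    by_cases hp : (p : E[X]) = 0
    · rw [hp, map_zero, mul_zero, mul_zero]; exact (locInf E).zero_mem
    apply rr_mem_locInf
    have hp' := rr_algebraMap_ne_zero hp
    rw [RatFunc.intDegree_mul hXM0 (mul_ne_zero (inv_ne_zero hHk0) hp'),
      RatFunc.intDegree_mul (inv_ne_zero hHk0) hp', hXMdeg, RatFunc.intDegree_inv, hHkdeg,
      RatFunc.intDegree_polynomial]
    have h1 := (Polynomial.mem_degreeLT.1 p.2)
    rw [Polynomial.degree_eq_natDegree hp, Nat.cast_lt] at h1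
    have h2 : (p : E[X]).natDegree ≤ M + k * h.natDegree := Nat.lt_succ_iff.1 h1
    have h3 : ((p : E[X]).natDegree : ℤ) ≤ M + k * h.natDegree := by exact_mod_cast h2
    linarith
  let α : (Fin N → Polynomial.degreeLT E (n + 1)) →ₗ[E] (Fin N → locAt E h) :=
    { toFun := fun p j => ⟨algebraMap E[X] (RatFunc E) (p j : E[X]),
        algebraMap_mem_locAt E h _⟩
      map_add' := by
        intro p q
        funext j
        apply Subtype.ext
        change algebraMap E[X] (RatFunc E) ((p j : E[X]) + q j) = _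
        rw [map_add]
        rfl
      map_smul' := by
        intro c p
        funext j
        apply Subtype.ext
        change algebraMap E[X] (RatFunc E) (c • (p j : E[X])) = _
        rw [Algebra.smul_def, map_mul]
        change _ = c • (algebraMap E[X] (RatFunc E) (p j : E[X]))
        rw [Algebra.smul_def]
        rfl }
  let β : (Fin N → Polynomial.degreeLT E (n + 1)) →ₗ[E] (Fin N → locInf E) :=
    { toFun := fun p j => ⟨XM * (Hk⁻¹ * algebraMap E[X] (RatFunc E) (p j : E[X])), hcand (p j)⟩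
      map_add' := by
        intro p q
        funext j
        apply Subtype.ext
        change XM * (Hk⁻¹ * algebraMap E[X] (RatFunc E) ((p j : E[X]) + q j)) = _
        rw [map_add, mul_add, mul_add]
        rfl
      map_smul' := by
        intro c p
        funext j
        apply Subtype.ext
        change XM * (Hk⁻¹ * algebraMap E[X] (RatFunc E) (c • (p j : E[X]))) = _
        rw [Algebra.smul_def, map_mul]
        change _ = c • (XM * (Hk⁻¹ * algebraMap E[X] (RatFunc E) (p j : E[X])))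
        rw [Algebra.smul_def]
        change XM * (Hk⁻¹ * (algebraMap E (RatFunc E) c * _)) = _
        ring }
  have hPfin : Module.Finite E (Polynomial.degreeLT E (n + 1)) :=
    Module.Finite.equiv (Polynomial.degreeLTEquiv E (n + 1)).symm
  have hPrank : finrank E (Polynomial.degreeLT E (n + 1)) = n + 1 := by
    rw [LinearEquiv.finrank_eq (Polynomial.degreeLTEquiv E (n + 1)), Module.finrank_fin_fun]
  have hdim : finrank E (Fin N → Polynomial.degreeLT E (n + 1)) = N * (n + 1) := by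
    rw [Module.finrank_pi_fintype, Finset.sum_const, Finset.card_univ, Fintype.card_fin, hPrank,
      smul_eq_mul]
  obtain ⟨f, hf, hfker⟩ := rr_exists_indep
    (((LinearMap.range A.mulVecLin).mkQ.restrictScalars E) ∘ₗ α)
    (((LinearMap.range T.mulVecLin).mkQ.restrictScalars E) ∘ₗ β) N
    (a.natDegree) (N * M - ginf.det.intDegree) (N * (M + k * h.natDegree + 1))
    (by rw [hQA.2, hfinA.2])
    (by
      rw [hQT.2, hfinT.2, hTdeg]
      ring)
    (by
      rw [hdim]
      simp only [n]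
      push_cast
      ring)
    (by linarith)
  let ι : (Fin N → Polynomial.degreeLT E (n + 1)) →ₗ[E] (Fin N → RatFunc E) :=
    { toFun := fun p j => Hk⁻¹ * algebraMap E[X] (RatFunc E) (p j : E[X])
      map_add' := by
        intro p q
        funext j
        change Hk⁻¹ * algebraMap E[X] (RatFunc E) ((p j : E[X]) + q j) = _
        rw [map_add, mul_add]
        rfl
      map_smul' := by
        intro c p
        funext j
        change Hk⁻¹ * algebraMap E[X] (RatFunc E) (c • (p j : E[X])) = _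
        rw [Algebra.smul_def, map_mul]
        change _ = c • (Hk⁻¹ * algebraMap E[X] (RatFunc E) (p j : E[X]))
        rw [Algebra.smul_def]
        change Hk⁻¹ * (algebraMap E (RatFunc E) c * _) = _
        ring }
  have hιinj : LinearMap.ker ι = ⊥ := by
    rw [LinearMap.ker_eq_bot']
    intro p hp
    funext j
    apply Subtype.ext
    have h1 : Hk⁻¹ * algebraMap E[X] (RatFunc E) (p j : E[X]) = 0 := congrFun hp j
    have h2 := (mul_eq_zero.1 h1).resolve_left (inv_ne_zero hHk0)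
    rwa [map_eq_zero_iff _ (IsFractionRing.injective E[X] (RatFunc E))] at h2
  refine ⟨fun i => ι (f i), ?_, fun i => ⟨?_, ?_, ?_⟩⟩
  · exact hf.map' ι hιinj
  · intro j
    exact (intAway E h).mul_mem hHkA' (rr_poly_mem_intAway h _)
  · have h1 : (LinearMap.range A.mulVecLin).mkQ (α (f i)) = 0 := (hfker i).1
    obtain ⟨x, hx⟩ := (Submodule.Quotient.mk_eq_zero _).1 h1
    refine ⟨fun j => (x j : RatFunc E), fun j => (x j).2, ?_⟩
    funext l
    have h2 : (A.mulVec x) l = α (f i) l := congrFun hx l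
    have h3 : ((A.mulVec x) l : RatFunc E) = ∑ j, Hk * g l j * x j := by
      have : ((A.mulVec x) l : RatFunc E) = (locAt E h).val (∑ j, A l j * x j) := rfl
      rw [this, map_sum]
      rfl
    have h4 : ((A.mulVec x) l : RatFunc E) =
        algebraMap E[X] (RatFunc E) ((f i l : E[X])) := by
      rw [h2]
      rfl
    change ∑ j, g l j * (x j : RatFunc E) = Hk⁻¹ * algebraMap E[X] (RatFunc E) _
    rw [← h4, h3, Finset.mul_sum]
    refine Finset.sum_congr rfl fun j _ => ?_
    field_simp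
  · have h1 : (LinearMap.range T.mulVecLin).mkQ (β (f i)) = 0 := (hfker i).2
    obtain ⟨x, hx⟩ := (Submodule.Quotient.mk_eq_zero _).1 h1
    refine ⟨fun j => (x j : RatFunc E), fun j => (x j).2, ?_⟩
    funext l
    have h2 : (T.mulVec x) l = β (f i) l := congrFun hx l
    have h3 : ((T.mulVec x) l : RatFunc E) = ∑ j, XM * ginf l j * x j := by
      have : ((T.mulVec x) l : RatFunc E) = (locInf E).val (∑ j, T l j * x j) := rfl
      rw [this, map_sum]
      rfl
    have h4 : ((T.mulVec x) l : RatFunc E) = XM * (Hk⁻¹ *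
        algebraMap E[X] (RatFunc E) ((f i l : E[X]))) := by
      rw [h2]
      rfl
    change ∑ j, ginf l j * (x j : RatFunc E) = Hk⁻¹ * algebraMap E[X] (RatFunc E) _
    apply mul_left_cancel₀ hXM0
    rw [← h4, h3, Finset.mul_sum]
    refine Finset.sum_congr rfl fun j _ => ?_
    ring

end Pool.Agent.Helper8.BR
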