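import Mathlib

set_option autoImplicit false

/-! BR-15 -/

open Module
open scoped TensorProduct Polynomial

namespace Pool.Agent.Helper8.BR

section smith_aux

variable {E O : Type} [Field E] [CommRing O] [IsDomain O] [Algebra E O]

private lemma smith_mul (a b : O) (ha : a ≠ 0)
    (hfin : Module.Finite E (O ⧸ Ideal.span {a * b})) :
    Module.Finite E (O ⧸ Ideal.span {a}) ∧ Module.Finite E (O ⧸ Ideal.span {b}) ∧
      finrank E (O ⧸ Ideal.span {a * b})
        = finrank E (O ⧸ Ideal.span {a}) + finrank E (O ⧸ Ideal.span {b}) := by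
  have hle : Ideal.span {a * b} ≤ Ideal.span {a} := by
    rw [Ideal.span_singleton_le_span_singleton]
    exact dvd_mul_right a b
  let π : (O ⧸ Ideal.span {a * b}) →ₗ[E] (O ⧸ Ideal.span {a}) :=
    (Ideal.Quotient.factorₐ E hle).toLinearMap
  have hπ : ∀ x : O, π (Ideal.Quotient.mk _ x) = Ideal.Quotient.mk _ x := fun x => rfl
  have hπs : Function.Surjective π := by
    intro y
    obtain ⟨x, rfl⟩ := Ideal.Quotient.mk_surjective y
    exact ⟨Ideal.Quotient.mk _ x, hπ x⟩
  have hcomap : Ideal.span {b} ≤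
      Submodule.comap (LinearMap.mulLeft O a) (Ideal.span {a * b}) := by
    rw [Ideal.span_le]
    intro x hx
    rw [Set.mem_singleton_iff] at hx
    subst hx
    exact Ideal.subset_span rfl
  let μ₀ : (O ⧸ Ideal.span {b}) →ₗ[O] (O ⧸ Ideal.span {a * b}) :=
    Submodule.mapQ _ _ (LinearMap.mulLeft O a) hcomap
  let μ : (O ⧸ Ideal.span {b}) →ₗ[E] (O ⧸ Ideal.span {a * b}) := μ₀.restrictScalars E
  have hμ : ∀ x : O, μ (Ideal.Quotient.mk _ x) = Ideal.Quotient.mk _ (a * x) := fun x => rfl
  have hμi : Function.Injective μ := by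
    rw [injective_iff_map_eq_zero]
    intro y hy
    obtain ⟨x, rfl⟩ := Ideal.Quotient.mk_surjective y
    rw [hμ, Ideal.Quotient.eq_zero_iff_mem, Ideal.mem_span_singleton] at hy
    rw [Ideal.Quotient.eq_zero_iff_mem, Ideal.mem_span_singleton]
    exact (mul_dvd_mul_iff_left ha).mp hy
  have hker : LinearMap.ker π = LinearMap.range μ := by
    ext y
    obtain ⟨x, rfl⟩ := Ideal.Quotient.mk_surjective y
    rw [LinearMap.mem_ker, hπ, Ideal.Quotient.eq_zero_iff_mem, Ideal.mem_span_singleton,
      LinearMap.mem_range]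
    constructor
    · rintro ⟨c, rfl⟩
      exact ⟨Ideal.Quotient.mk _ c, hμ c⟩
    · rintro ⟨z, hz⟩
      obtain ⟨c, rfl⟩ := Ideal.Quotient.mk_surjective z
      rw [hμ, Ideal.Quotient.eq, Ideal.mem_span_singleton] at hz
      have h1 : a ∣ a * c - x := (dvd_mul_right a b).trans hz
      have h2 : a ∣ a * c - (a * c - x) := dvd_sub (dvd_mul_right a c) h1
      simpa using h2
  have hf1 : Module.Finite E (O ⧸ Ideal.span {a}) := Module.Finite.of_surjective π hπs
  have hf2 : Module.Finite E (O ⧸ Ideal.span {b}) := Module.Finite.of_injective μ hμi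
  refine ⟨hf1, hf2, ?_⟩
  have h1 := LinearMap.finrank_range_add_finrank_ker π
  rw [LinearMap.range_eq_top.mpr hπs, finrank_top, hker, LinearMap.finrank_range_of_inj hμi] at h1
  exact h1.symm

private lemma smith_prod {ι : Type} (a : ι → O) (s : Finset ι) (hs : ∏ i ∈ s, a i ≠ 0)
    (hfin : Module.Finite E (O ⧸ Ideal.span {∏ i ∈ s, a i})) :
    (∀ i ∈ s, Module.Finite E (O ⧸ Ideal.span {a i})) ∧
      finrank E (O ⧸ Ideal.span {∏ i ∈ s, a i})
        = ∑ i ∈ s, finrank E (O ⧸ Ideal.span {a i}) := by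
  classical
  induction s using Finset.induction_on with
  | empty =>
    refine ⟨fun i hi => absurd hi (Finset.notMem_empty i), ?_⟩
    rw [Finset.sum_empty]
    have : Subsingleton (O ⧸ Ideal.span {∏ i ∈ (∅ : Finset ι), a i}) := by
      rw [Finset.prod_empty, Ideal.span_singleton_one]
      exact Ideal.Quotient.subsingleton_iff.mpr rfl
    exact finrank_zero_of_subsingleton
  | insert i s his ih =>
    rw [Finset.prod_insert his] at hs hfin
    rw [Finset.prod_insert his]
    obtain ⟨h1, h2, h3⟩ := smith_mul (E := E) (a i) (∏ i ∈ s, a i) (left_ne_zero_of_mul hs) hfin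
    obtain ⟨h4, h5⟩ := ih (right_ne_zero_of_mul hs) h2
    refine ⟨?_, ?_⟩
    · intro j hj
      rcases Finset.mem_insert.mp hj with rfl | hj
      · exact h1
      · exact h4 j hj
    · rw [h3, h5, Finset.sum_insert his]

end smith_aux

theorem finrank_quot_det (E O : Type) [Field E] [CommRing O] [IsDomain O]
    [IsPrincipalIdealRing O] [Algebra E O] {N : ℕ} (T : Matrix (Fin N) (Fin N) O)
    (hT : T.det ≠ 0) [Module.Finite E (O ⧸ Ideal.span {T.det})] :
    Module.Finite E ((Fin N → O) ⧸ LinearMap.range T.mulVecLin) ∧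
      finrank E ((Fin N → O) ⧸ LinearMap.range T.mulVecLin) =
        finrank E (O ⧸ Ideal.span {T.det}) := by
  classical
  have hinj : Function.Injective T.mulVecLin := by
    rw [← LinearMap.ker_eq_bot]
    by_contra hne
    have := (Matrix.exists_mulVec_eq_zero_iff (M := T)).mp (by
      obtain ⟨v, hv, hv0⟩ := (Submodule.ne_bot_iff _).mp hne
      exact ⟨v, hv0, by simpa using hv⟩)
    exact hT this
  set P : Submodule O (Fin N → O) := LinearMap.range T.mulVecLin with hP
  let φ : (Fin N → O) ≃ₗ[O] P := LinearEquiv.ofInjective T.mulVecLin hinj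
  have hrank : finrank O P = finrank O (Fin N → O) := φ.symm.finrank_eq
  let b := Pi.basisFun O (Fin N)
  let b' := Submodule.smithNormalFormTopBasis b hrank
  let c' := Submodule.smithNormalFormBotBasis b hrank
  let a := Submodule.smithNormalFormCoeffs b hrank
  have hab : ∀ i, (c' i : Fin N → O) = a i • b' i := Submodule.smithNormalFormBotBasis_def b hrank
  let ψ : (Fin N → O) ≃ₗ[O] P := b'.equiv c' (Equiv.refl _)
  let u : (Fin N → O) ≃ₗ[O] (Fin N → O) := φ.trans ψ.symm
  have hTd : T.mulVecLin = (P.subtype ∘ₗ ψ.toLinearMap) ∘ₗ u.toLinearMap := by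
    refine LinearMap.ext fun v => ?_
    have h1 : ψ (u v) = φ v := by simp [u]
    change T.mulVecLin v = (ψ (u v) : Fin N → O)
    rw [h1]
    rfl
  have hdet1 : LinearMap.det T.mulVecLin = T.det := by
    have : T.mulVecLin = Matrix.toLin' T := rfl
    rw [this, LinearMap.det_toLin']
  have hdet2 : LinearMap.det (P.subtype ∘ₗ ψ.toLinearMap) = ∏ i, a i := by
    rw [← LinearMap.det_toMatrix b']
    have : LinearMap.toMatrix b' b' (P.subtype ∘ₗ ψ.toLinearMap) = Matrix.diagonal a := by
      ext i j
      rw [LinearMap.toMatrix_apply]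
      simp only [LinearMap.comp_apply, LinearEquiv.coe_coe, Submodule.subtype_apply, ψ,
        Basis.equiv_apply, Equiv.refl_apply, hab, map_smul, Basis.repr_self]
      rw [Matrix.diagonal_apply]
      by_cases hij : i = j
      · subst hij
        simp
      · simp [hij]
    rw [this, Matrix.det_diagonal]
  have hassoc : T.det = (∏ i, a i) * LinearMap.det u.toLinearMap := by
    rw [← hdet1, hTd, LinearMap.det_comp, hdet2]
  have hunit : IsUnit (LinearMap.det u.toLinearMap) := LinearEquiv.isUnit_det' u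
  have hspan : Ideal.span {T.det} = Ideal.span {∏ i, a i} := by
    rw [Ideal.span_singleton_eq_span_singleton, hassoc]
    exact associated_mul_unit_left _ _ hunit
  have hprod0 : ∏ i, a i ≠ 0 := by
    intro h0
    rw [h0, zero_mul] at hassoc
    exact hT hassoc
  have key : ∀ I : Ideal O, I = Ideal.span {∏ i, a i} → Module.Finite E (O ⧸ I) →
      (∀ i, Module.Finite E (O ⧸ Ideal.span {a i})) ∧
        finrank E (O ⧸ I) = ∑ i, finrank E (O ⧸ Ideal.span {a i}) := by
    rintro _ rfl hfin
    obtain ⟨h1, h2⟩ := smith_prod (E := E) a Finset.univ hprod0 hfin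
    exact ⟨fun i => h1 i (Finset.mem_univ i), h2⟩
  obtain ⟨hf, hs⟩ := key _ hspan inferInstance
  have hfi : ∀ i, Module.Finite E (O ⧸ Ideal.span {Submodule.smithNormalFormCoeffs b hrank i}) := hf
  refine ⟨?_, ?_⟩
  · let e := (Submodule.quotientEquivPiSpan P b hrank).restrictScalars E
    exact Module.Finite.equiv e.symm
  · rw [Submodule.finrank_quotient_eq_sum E b hrank, hs]

end Pool.Agent.Helper8.BR
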