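import Pool.Agent.Helper8.BR.Group
import Pool.Agent.Helper8.BR.QuatAdd

set_option autoImplicit false

/-! BR-10b -/

open scoped TensorProduct Quaternion

namespace Pool.Agent.Helper8.BR

/-- the class of the quaternion algebra `(u, d)` -/
noncomputable def sym (R : Type) [CommRing R] (d u : R) : Br R := by
  classical
  exact if h : IsUnit u ∧ IsUnit d ∧ IsUnit (2 : R) then
    haveI := quat_az R u d h.1 h.2.1 h.2.2
    Br.mk R ℍ[R, u, d] else 0

private theorem sym_of (R : Type) [CommRing R] (d u : R) (hu : IsUnit u) (hd : IsUnit d)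
    (h2 : IsUnit (2 : R)) :
    sym R d u = (haveI := quat_az R u d hu hd h2; Br.mk R ℍ[R, u, d]) := by
  unfold sym
  exact dif_pos ⟨hu, hd, h2⟩

private theorem sym_of_not (R : Type) [CommRing R] (d u : R)
    (h : ¬ (IsUnit u ∧ IsUnit d ∧ IsUnit (2 : R))) : sym R d u = 0 := by
  unfold sym
  exact dif_neg h

theorem sym_mul (R : Type) [CommRing R] (d u v : R) (hu : IsUnit u) (hv : IsUnit v) :
    sym R d (u * v) = sym R d u + sym R d v := by
  by_cases h : IsUnit d ∧ IsUnit (2 : R)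
  · rw [sym_of R d (u * v) (hu.mul hv) h.1 h.2, sym_of R d u hu h.1 h.2,
      sym_of R d v hv h.1 h.2]
    haveI := quat_az R u d hu h.1 h.2
    haveI := quat_az R v d hv h.1 h.2
    haveI := quat_az R (u * v) d (hu.mul hv) h.1 h.2
    exact ((Br.mk_add_mk_eq_iff R _ _ _).2 (quat_add R u v d hu hv h.1 h.2)).symm
  · rw [sym_of_not R d (u * v) (fun h' => h h'.2), sym_of_not R d u (fun h' => h h'.2),
      sym_of_not R d v (fun h' => h h'.2), add_zero]

theorem sym_map (R S : Type) [CommRing R] [CommRing S] (f : R →+* S) (d u : R) (hu : IsUnit u)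
    (hd : IsUnit d) (h2 : IsUnit (2 : R)) : Br.map f (sym R d u) = sym S (f d) (f u) := by
  have h2' : IsUnit (2 : S) := by
    have := h2.map f
    rwa [map_ofNat] at this
  rw [sym_of R d u hu hd h2, sym_of S (f d) (f u) (hu.map f) (hd.map f) h2']
  letI := f.toAlgebra
  haveI := quat_az R u d hu hd h2
  haveI := quat_az S (f u) (f d) (hu.map f) (hd.map f) h2'
  obtain ⟨e⟩ := quat_baseChange R S u d
  exact (Br.map_mk_eq_iff R S _ _).2 (BrEq.of_algEquiv e)

theorem sym_norm (R : Type) [CommRing R] (d u x y : R) (hu : IsUnit u)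
    (h : u = x ^ 2 - d * y ^ 2) : sym R d u = 0 := by
  by_cases h' : IsUnit d ∧ IsUnit (2 : R)
  · rw [sym_of R d u hu h'.1 h'.2]
    haveI := quat_az R u d hu h'.1 h'.2
    exact (Br.mk_eq_zero_iff R _).2 (quat_norm R u d x y hu h'.1 h'.2 h)
  · exact sym_of_not R d u (fun h'' => h' h''.2)

theorem sym_eq_zero (K : Type) [Field K] (h2 : (2 : K) ≠ 0) (d u : K) (hd : d ≠ 0) (hu : u ≠ 0)
    (h : sym K d u = 0) : ∃ x y : K, u = x ^ 2 - d * y ^ 2 := by
  rw [sym_of K d u (IsUnit.mk0 u hu) (IsUnit.mk0 d hd) (IsUnit.mk0 2 h2)] at h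
  haveI := quat_az K u d (IsUnit.mk0 u hu) (IsUnit.mk0 d hd) (IsUnit.mk0 2 h2)
  exact quat_split_field K h2 u d hu hd ((Br.mk_eq_zero_iff K _).1 h)

end Pool.Agent.Helper8.BR
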