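import Pool.Agent.Helper8.BR.Defs

set_option autoImplicit false

/-! BR-1 -/

open scoped TensorProduct Quaternion

namespace Pool.Agent.Helper8.BR

section tensor_aux

variable (R A B : Type) [CommRing R] [Ring A] [Algebra R A] [Ring B] [Algebra R B]

/-- `(A ⊗ Aᵐᵒᵖ) ⊗ (B ⊗ Bᵐᵒᵖ) ≃ (A ⊗ B) ⊗ (A ⊗ B)ᵐᵒᵖ`. -/
private noncomputable def tensorSwap :
    (A ⊗[R] Aᵐᵒᵖ) ⊗[R] (B ⊗[R] Bᵐᵒᵖ) ≃ₐ[R] (A ⊗[R] B) ⊗[R] (A ⊗[R] B)ᵐᵒᵖ :=
  (Algebra.TensorProduct.tensorTensorTensorComm R R R R A Aᵐᵒᵖ B Bᵐᵒᵖ).trans
    (Algebra.TensorProduct.congr AlgEquiv.refl (Algebra.TensorProduct.opAlgEquiv R R A B))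

private lemma tensorSwap_tmul (a : A) (a' : Aᵐᵒᵖ) (b : B) (b' : Bᵐᵒᵖ) :
    tensorSwap R A B ((a ⊗ₜ a') ⊗ₜ (b ⊗ₜ b'))
      = (a ⊗ₜ b) ⊗ₜ MulOpposite.op (a'.unop ⊗ₜ b'.unop) := by
  simp [tensorSwap]

private lemma mulLeftRight_tensor (t : (A ⊗[R] Aᵐᵒᵖ) ⊗[R] (B ⊗[R] Bᵐᵒᵖ)) :
    AlgHom.mulLeftRight R (A ⊗[R] B) (tensorSwap R A B t)
      = TensorProduct.homTensorHomMap (.id R) A B A B
        (TensorProduct.map (AlgHom.mulLeftRight R A).toLinearMap
          (AlgHom.mulLeftRight R B).toLinearMap t) := by
  induction t using TensorProduct.induction_on with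
  | zero => simp
  | tmul x y =>
    induction x using TensorProduct.induction_on with
    | zero => simp
    | tmul a a' =>
      induction y using TensorProduct.induction_on with
      | zero => simp
      | tmul b b' =>
        rw [tensorSwap_tmul]
        refine TensorProduct.ext' fun u v => ?_
        simp
      | add s t hs ht => rw [TensorProduct.tmul_add, map_add, map_add, hs, ht, map_add, map_add]
    | add s t hs ht => rw [TensorProduct.add_tmul, map_add, map_add, hs, ht, map_add, map_add]
  | add s t hs ht => rw [map_add, map_add, hs, ht, map_add, map_add]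

private lemma mulLeftRight_tensor_bij [Module.Free R A] [Module.Free R B] [Module.Finite R A]
    [Module.Finite R B] :
    Function.Bijective (AlgHom.mulLeftRight R (A ⊗[R] B)) ↔
      Function.Bijective (TensorProduct.map (AlgHom.mulLeftRight R A).toLinearMap
          (AlgHom.mulLeftRight R B).toLinearMap) := by
  have h1 : Function.Bijective (TensorProduct.homTensorHomMap (.id R) A B A B) := by
    have := (homTensorHomEquiv R A B A B).bijective
    rw [← LinearEquiv.coe_toLinearMap, homTensorHomEquiv_toLinearMap] at this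
    exact this
  have h2 : (AlgHom.mulLeftRight R (A ⊗[R] B)) ∘ (tensorSwap R A B)
      = (TensorProduct.homTensorHomMap (.id R) A B A B) ∘
        (TensorProduct.map (AlgHom.mulLeftRight R A).toLinearMap
          (AlgHom.mulLeftRight R B).toLinearMap) := by
    funext t
    exact mulLeftRight_tensor R A B t
  rw [← Function.Bijective.of_comp_iff _ (tensorSwap R A B).bijective, h2,
    Function.Bijective.of_comp_iff' h1]

end tensor_aux

theorem az_tensor (R A B : Type) [CommRing R] [Ring A] [Algebra R A] [Ring B] [Algebra R B]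
    [Module.Free R A] [Module.Free R B] [IsAzumaya R A] [IsAzumaya R B] :
    IsAzumaya R (A ⊗[R] B) := by
  have hf : FaithfulSMul R (A ⊗[R] B) := by
    rcases subsingleton_or_nontrivial R with h | h
    · exact ⟨fun _ => Subsingleton.elim _ _⟩
    have hA : Nontrivial A := (FaithfulSMul.algebraMap_injective R A).nontrivial
    have hB : Nontrivial B := (FaithfulSMul.algebraMap_injective R B).nontrivial
    infer_instance
  have hp : Module.Projective R (A ⊗[R] B) := inferInstance
  have hfin : Module.Finite R (A ⊗[R] B) := inferInstance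
  refine { bij := ?_ }
  rw [mulLeftRight_tensor_bij]
  let eA := (AlgEquiv.ofBijective (AlgHom.mulLeftRight R A) IsAzumaya.bij).toLinearEquiv
  let eB := (AlgEquiv.ofBijective (AlgHom.mulLeftRight R B) IsAzumaya.bij).toLinearEquiv
  exact (TensorProduct.congr eA eB).bijective

theorem az_factor (R A B : Type) [CommRing R] [Ring A] [Algebra R A] [Ring B] [Algebra R B]
    [Module.Free R A] [Module.Free R B] [IsAzumaya R A] [Module.Finite R B] [FaithfulSMul R B]
    (h : IsAzumaya R (A ⊗[R] B)) : IsAzumaya R B := by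
  have hp : Module.Projective R B := inferInstance
  refine { bij := ?_ }
  rcases subsingleton_or_nontrivial R with hR | hR
  · have hB : Subsingleton B := Module.subsingleton R B
    have hBB : Subsingleton (B ⊗[R] Bᵐᵒᵖ) := Module.subsingleton R _
    have hE : Subsingleton (Module.End R B) := Module.subsingleton R _
    exact ⟨fun _ _ _ => Subsingleton.elim _ _, fun x => ⟨0, Subsingleton.elim _ _⟩⟩
  have hA : Nontrivial A := (FaithfulSMul.algebraMap_injective R A).nontrivial
  have h1 := (mulLeftRight_tensor_bij R A B).mp h.bij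
  let eA := (AlgEquiv.ofBijective (AlgHom.mulLeftRight R A) IsAzumaya.bij).toLinearEquiv
  have h2 : TensorProduct.map (AlgHom.mulLeftRight R A).toLinearMap
      (AlgHom.mulLeftRight R B).toLinearMap
      = (LinearMap.rTensor _ eA.toLinearMap).comp
        (LinearMap.lTensor (A ⊗[R] Aᵐᵒᵖ) (AlgHom.mulLeftRight R B).toLinearMap) := by
    refine TensorProduct.ext' fun x y => ?_
    rfl
  have h3 : Function.Bijective (LinearMap.rTensor (Module.End R B) eA.toLinearMap) :=
    (TensorProduct.congr eA (LinearEquiv.refl R (Module.End R B))).bijective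
  rw [h2, LinearMap.coe_comp, Function.Bijective.of_comp_iff' h3] at h1
  exact (Module.FaithfullyFlat.lTensor_bijective_iff_bijective R (A ⊗[R] Aᵐᵒᵖ) _).mp h1

end Pool.Agent.Helper8.BR
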